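import Pool.Agent.Helper46.WG.L9

/-!
# Integral modular data (MP_2b6189_al), part 10: prime power dimensions, lacunary global dimensions
-/

set_option autoImplicit false

open scoped BigOperators ComplexConjugate
open Finset Polynomial NumberField IsDedekindDomain

namespace Pool.Agent.Helper46.WG

/-- a prime number is not invertible in the ring of integers -/
theorem prime_not_dvd_one {L : Type} [Field L] [NumberField L] {ℓ : ℕ} (hℓ : ℓ.Prime) : ¬ (ℓ : 𝓞 L) ∣ 1 := by
  rintro ⟨z, hz⟩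
  have h1 := congrArg (algebraMap (𝓞 L) L) hz
  rw [map_one, map_mul, map_natCast] at h1
  have hℓ0 : (ℓ : L) ≠ 0 := Nat.cast_ne_zero.2 hℓ.ne_zero
  have h2 : algebraMap (𝓞 L) L z = algebraMap ℚ L ((1 : ℚ) / ℓ) := by
    rw [map_div₀, map_one, map_natCast, eq_div_iff hℓ0, mul_comm]
    exact h1.symm
  have h3 : IsIntegral ℤ (algebraMap (𝓞 L) L z) := z.isIntegral_coe
  rw [h2, isIntegral_algebraMap_iff (algebraMap ℚ L).injective] at h3
  obtain ⟨n, hn⟩ := IsIntegrallyClosed.isIntegral_iff.1 h3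
  have h4 : (n : ℚ) = 1 / ℓ := by simpa using hn
  have h5 : (ℓ : ℚ) ≠ 0 := Nat.cast_ne_zero.2 hℓ.ne_zero
  rw [eq_div_iff h5] at h4
  have h6 : n * (ℓ : ℤ) = 1 := by exact_mod_cast h4
  have h7 : (ℓ : ℤ) ∣ 1 := ⟨n, by rw [mul_comm]; exact h6.symm⟩
  have h8 : ℓ ∣ 1 := by exact_mod_cast h7
  exact hℓ.one_lt.ne' (Nat.dvd_one.1 h8)

namespace IntegralModularDatum

variable {I : Type} [Fintype I] [DecidableEq I] {M : IntegralModularDatum I}

/-- no simple object of prime power dimension -/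
theorem no_prime_power (hsim : M.Simple) {ℓ j : ℕ} (hℓ : ℓ.Prime) {X : I} (hX : M.d X = ℓ ^ j) (hX1 : X ≠ M.unit) :
    M.d X = 1 := by
  classical
  obtain ⟨L, _, _, _, e, t, he, hR, hint⟩ := M.exists_real
  have hex : ∃ Y, Y ≠ M.unit ∧ ¬ ℓ ∣ M.d Y ∧ t X Y ≠ 0 := by
    by_contra hcon
    push Not at hcon
    apply prime_not_dvd_one (L := L) hℓ
    have h1 : ∑ Y, (M.d Y : 𝓞 L) * xx hint Y X = 0 := by
      apply RingOfIntegers.coe_injective
      rw [map_sum, map_zero]
      have h2 := sum_row hR X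
      rw [if_neg hX1] at h2
      have h3 : ∀ Y, algebraMap (𝓞 L) L ((M.d Y : 𝓞 L) * xx hint Y X) = (M.d Y : L) * t X Y / M.d X := by
        intro Y
        rw [map_mul, map_natCast, coe_xx, hR.t_symm Y X]
        ring
      simp_rw [h3]
      rw [← Finset.sum_div, h2, zero_div]
    rw [← Finset.add_sum_erase _ _ (Finset.mem_univ M.unit)] at h1
    have h4 : (M.d M.unit : 𝓞 L) * xx hint M.unit X = 1 := by
      apply RingOfIntegers.coe_injective
      rw [map_mul, map_natCast, coe_xx, M.d_unit, hR.t_unit, div_self (d_neF hR X)]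
      simp
    rw [h4] at h1
    have h5 : (1 : 𝓞 L) = -∑ Y ∈ Finset.univ.erase M.unit, (M.d Y : 𝓞 L) * xx hint Y X := eq_neg_of_add_eq_zero_left h1
    rw [h5]
    refine (dvd_neg).2 (Finset.dvd_sum fun Y hY => ?_)
    have hY1 : Y ≠ M.unit := Finset.ne_of_mem_erase hY
    by_cases hd : ℓ ∣ M.d Y
    · obtain ⟨c, hc⟩ := hd
      rw [hc]
      push_cast
      exact ⟨(c : 𝓞 L) * xx hint Y X, by ring⟩
    · have h6 := hcon Y hY1 hd
      have h7 : xx hint Y X = 0 := by
        apply RingOfIntegers.coe_injective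
        rw [coe_xx, hR.t_symm, h6, zero_div, map_zero]
      rw [h7, mul_zero]
      exact dvd_zero _
  obtain ⟨Y, hY1, hYℓ, htXY⟩ := hex
  -- the algebraic integer `t X Y / (d X * d Y)`
  have hcop : IsCoprime ((M.d X : ℕ) : ℤ) ((M.d Y : ℕ) : ℤ) := by
    rw [Nat.isCoprime_iff_coprime, hX]
    exact Nat.Coprime.pow_left _ ((Nat.Prime.coprime_iff_not_dvd hℓ).2 hYℓ)
  obtain ⟨u, v, huv⟩ := hcop
  let α : 𝓞 L := (u : 𝓞 L) * xx hint X Y + (v : 𝓞 L) * xx hint Y X
  have hdX := d_neF hR X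
  have hdY := d_neF hR Y
  have hα : algebraMap (𝓞 L) L α = t X Y / (M.d X * M.d Y) := by
    show algebraMap (𝓞 L) L ((u : 𝓞 L) * xx hint X Y + (v : 𝓞 L) * xx hint Y X) = _
    rw [map_add, map_mul, map_mul, map_intCast, map_intCast, coe_xx, coe_xx, hR.t_symm Y X]
    have h1 : ((u * (M.d X : ℤ) + v * (M.d Y : ℤ) : ℤ) : L) = 1 := by rw [huv]; simp
    push_cast at h1
    rw [eq_div_iff (mul_ne_zero hdX hdY)]
    calc ((u : L) * (t X Y / M.d Y) + v * (t X Y / M.d X)) * (M.d X * M.d Y)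
        = ((u : L) * M.d X + v * M.d Y) * t X Y := by field_simp
      _ = t X Y := by rw [h1, one_mul]
  have hα0 : α ≠ 0 := by
    intro h
    rw [h, map_zero] at hα
    exact div_ne_zero htXY (mul_ne_zero hdX hdY) hα.symm
  have hα1 := norm_eq_one_of_le α hα0 (fun e' => by
    show ‖e' (algebraMap (𝓞 L) L α)‖ ≤ 1
    rw [hα, map_div₀, map_mul, map_natCast, map_natCast, norm_div, norm_mul, Complex.norm_natCast, Complex.norm_natCast]
    have h0 : (0 : ℝ) < (M.d X : ℝ) * M.d Y := mul_pos (Nat.cast_pos.2 (M.d_pos X)) (Nat.cast_pos.2 (M.d_pos Y))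
    exact (div_le_one₀ h0).2 (norm_t_le hR e' X Y)) e
  have hs : ‖M.s X Y‖ = (M.d X : ℝ) * M.d Y := by
    have h0 : (0 : ℝ) < (M.d X : ℝ) * M.d Y := mul_pos (Nat.cast_pos.2 (M.d_pos X)) (Nat.cast_pos.2 (M.d_pos Y))
    have h1 : ‖e (algebraMap (𝓞 L) L α)‖ = 1 := hα1
    rw [hα, map_div₀, map_mul, map_natCast, map_natCast, norm_div, norm_mul, Complex.norm_natCast,
      Complex.norm_natCast, he, div_eq_one_iff_eq h0.ne'] at h1
    exact h1
  -- `Y` centralizes `X ⊗ X*`
  have hc : ∀ V, M.N X (M.dual X) V ≠ 0 → V = M.unit := by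
    intro V hV
    have h1 : M.s V Y = (M.d V : ℂ) * M.d Y := by
      refine M.eq_of_sum (a := M.N X (M.dual X)) ?_ hV
      have h2 : ∑ k, (M.N X (M.dual X) k : ℂ) * M.s k Y = ((‖M.s X Y‖ ^ 2 / (M.d Y : ℝ) : ℝ) : ℂ) := M.toMD.sum_sq X Y
      rw [h2, Complex.ofReal_re, hs]
      have h3 : ∑ k, (M.N X (M.dual X) k : ℝ) * (M.d k * M.d Y) = ((∑ k, M.N X (M.dual X) k * M.d k : ℕ) : ℝ) * M.d Y := by
        push_cast
        rw [Finset.sum_mul]
        exact Finset.sum_congr rfl fun k _ => by ring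
      rw [h3, M.sumN_d, M.d_dual]
      have h4 : (M.d Y : ℝ) ≠ 0 := Nat.cast_ne_zero.2 (M.d_pos Y).ne'
      push_cast
      field_simp
    have h2 : V ∈ M.cent {Y} := by
      rw [mem_cent]
      intro l hl
      rw [Finset.mem_singleton.1 hl]
      exact h1
    rcases hsim _ (M.cent_fusion {Y}) with h | h
    · rw [h, Finset.mem_singleton] at h2
      exact h2
    · exfalso
      apply hY1
      have h3 : Y ∈ M.cent Finset.univ := by
        rw [← h]
        exact M.sub_cent_cent {Y} (Finset.mem_singleton_self Y)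
      rw [M.cent_univ, Finset.mem_singleton] at h3
      exact h3
  have h1 := M.sumN_d X (M.dual X)
  rw [M.d_dual, Finset.sum_eq_single M.unit, M.N_dual_unit, if_pos rfl, M.d_unit] at h1
  · exact Nat.eq_one_of_mul_eq_one_left h1.symm
  · intro V _ hV
    have : M.N X (M.dual X) V = 0 := by
      by_contra hne
      exact hV (hc V hne)
    rw [this, zero_mul]
  · intro h
    exact absurd (Finset.mem_univ _) h

theorem two_le (hsim : M.Simple) (hnp : ¬ M.Pointed) {V : I} (hV : V ≠ M.unit) : 2 ≤ M.d V := by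
  have hinv : M.inv = {M.unit} := by
    rcases hsim _ M.inv_fusion with h | h
    · exact h
    · exfalso
      apply hnp
      intro i
      have : i ∈ M.inv := by rw [h]; exact Finset.mem_univ _
      exact (Finset.mem_filter.1 this).2
  by_contra hcon
  have h1 := M.d_pos V
  have h2 : V ∈ M.inv := Finset.mem_filter.2 ⟨Finset.mem_univ _, by omega⟩
  rw [hinv, Finset.mem_singleton] at h2
  exact hV h2

/-- if all nontrivial dimensions are divisible by a prime `q` then `q` does not divide the global dimension -/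
theorem not_dvd_gdim {q : ℕ} (hq : q.Prime) (h : ∀ V, V ≠ M.unit → q ∣ M.d V) : ¬ q ∣ M.gdim := by
  classical
  intro hD
  unfold gdim at hD
  rw [← Finset.add_sum_erase _ _ (Finset.mem_univ M.unit), M.d_unit, one_pow] at hD
  have h1 : q ∣ ∑ V ∈ Finset.univ.erase M.unit, M.d V ^ 2 :=
    Finset.dvd_sum fun V hV => (h V (Finset.ne_of_mem_erase hV)).trans (dvd_pow_self _ two_ne_zero)
  have h2 : q ∣ 1 := (Nat.dvd_add_left h1).1 hD
  exact hq.one_lt.ne' (Nat.dvd_one.1 h2)

/-- **Theorem A.** In a simple integral modular datum which is not pointed, every prime divisor `p` of the global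
dimension is smaller than the square of the dimension of some simple object whose dimension is prime to `p` (and not a
prime power). -/
theorem exists_large (hsim : M.Simple) (hnp : ¬ M.Pointed) {p : ℕ} (hp : p.Prime) (hpD : p ∣ M.gdim) :
    ∃ X, ¬ p ∣ M.d X ∧ ¬ IsPrimePow (M.d X) ∧ p < M.d X ^ 2 := by
  classical
  by_contra hcon
  push Not at hcon
  have hF1 : ∀ X, ¬ p ∣ M.d X → M.d X ^ 2 < p := by
    intro X hX
    have h1 : ¬ IsPrimePow (M.d X) := by
      intro h
      obtain ⟨ℓ, j, hℓ, hj, he⟩ := (isPrimePow_nat_iff _).1 h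
      by_cases hX1 : X = M.unit
      · rw [hX1, M.d_unit] at h
        exact not_isPrimePow_one h
      · have h2 := no_prime_power hsim hℓ he.symm hX1
        rw [h2] at h
        exact not_isPrimePow_one h
    have h2 := hcon X hX h1
    refine lt_of_le_of_ne h2 fun h3 => ?_
    exact Nat.Prime.not_prime_pow le_rfl (h3 ▸ hp)
  have hF2 : ∀ X Y, ¬ p ∣ M.d X → ¬ p ∣ M.d Y → M.d X * M.d Y < p := by
    intro X Y hX hY
    have h1 := hF1 X hX
    have h2 := hF1 Y hY
    nlinarith [sq_nonneg ((M.d X : ℤ) - M.d Y)]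
  let F : Finset I := Finset.univ.filter fun X => ¬ p ∣ M.d X
  have hF : M.IsFusion F := by
    refine ⟨?_, ?_, ?_⟩
    · refine Finset.mem_filter.2 ⟨Finset.mem_univ _, ?_⟩
      rw [M.d_unit]
      exact fun h => hp.one_lt.ne' (Nat.dvd_one.1 h)
    · intro i hi
      refine Finset.mem_filter.2 ⟨Finset.mem_univ _, ?_⟩
      rw [M.d_dual]
      exact (Finset.mem_filter.1 hi).2
    · intro i hi j hj k hk
      refine Finset.mem_filter.2 ⟨Finset.mem_univ _, ?_⟩
      have h1 := hF2 i j (Finset.mem_filter.1 hi).2 (Finset.mem_filter.1 hj).2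
      have h2 : M.N i j k * M.d k ≤ ∑ k, M.N i j k * M.d k :=
        Finset.single_le_sum (f := fun k => M.N i j k * M.d k) (fun _ _ => Nat.zero_le _) (Finset.mem_univ k)
      rw [M.sumN_d] at h2
      have h3 : M.d k ≤ M.N i j k * M.d k := Nat.le_mul_of_pos_left _ (Nat.pos_of_ne_zero hk)
      intro h4
      have h5 := Nat.le_of_dvd (M.d_pos k) h4
      omega
  rcases hsim F hF with h1 | h1
  · refine not_dvd_gdim hp (fun V hV => ?_) hpD
    by_contra hcon
    have h2 : V ∈ F := Finset.mem_filter.2 ⟨Finset.mem_univ _, hcon⟩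
    rw [h1, Finset.mem_singleton] at h2
    exact hV h2
  · have h2 : ∀ X, ¬ p ∣ M.d X := by
      intro X
      have h3 : X ∈ F := by rw [h1]; exact Finset.mem_univ _
      exact (Finset.mem_filter.1 h3).2
    exact no_large_prime hsim hnp hp hpD fun i j => hF2 i j (h2 i) (h2 j)

end IntegralModularDatum

/-- The arithmetic condition which Theorem A imposes on the global dimension of a simple datum: for every prime divisor
`p` of `D` there is a number `d` prime to `p`, not a prime power, with `d ^ 2 ∣ D` and `p < d ^ 2`. -/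
def Admissible (D : ℕ) : Prop := ∀ p : ℕ, p.Prime → p ∣ D → ∃ d : ℕ, d ^ 2 ∣ D ∧ ¬ p ∣ d ∧ ¬ IsPrimePow d ∧ p < d ^ 2

/-- Lacunary numbers: (base) at most two primes have their square dividing `n`; (step) multiplication by a power of a
prime `p` which is larger than all square divisors. -/
inductive Lacunary : ℕ → Prop
  | base (n q r : ℕ) : n ≠ 0 → (∀ ℓ : ℕ, ℓ.Prime → ℓ ^ 2 ∣ n → ℓ = q ∨ ℓ = r) → Lacunary n
  | step (m p x : ℕ) : Lacunary m → p.Prime → (∀ d : ℕ, d ^ 2 ∣ m → d ^ 2 < p) → Lacunary (p ^ x * m)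

/-- a number `d > 1` which is not a prime power is divisible by two primes -/
theorem two_primes {d : ℕ} (hd : 1 < d) (h : ¬ IsPrimePow d) : ∃ a b : ℕ, a.Prime ∧ b.Prime ∧ a ≠ b ∧ a ∣ d ∧ b ∣ d := by
  by_contra hcon
  push Not at hcon
  apply h
  rw [isPrimePow_iff_unique_prime_dvd]
  refine ⟨d.minFac, ⟨Nat.minFac_prime hd.ne', Nat.minFac_dvd d⟩, fun y hy => ?_⟩
  by_contra hne
  exact hcon y d.minFac hy.1 (Nat.minFac_prime hd.ne') hne hy.2 (Nat.minFac_dvd d)

theorem Lacunary.noAdm {n : ℕ} (h : Lacunary n) : ∀ D : ℕ, D ∣ n → Admissible D → D = 1 := by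
  induction h with
  | base n q r hn h =>
    intro D hD hA
    by_contra hD1
    have hgt : ∀ {p d : ℕ}, p.Prime → p < d ^ 2 → 1 < d := by
      intro p d hp hd
      by_contra hcon
      have h1 : d ≤ 1 := by omega
      have h2 : d ^ 2 ≤ 1 := by nlinarith
      have := hp.two_le
      omega
    have hdv : ∀ {d ℓ : ℕ}, d ^ 2 ∣ D → ℓ.Prime → ℓ ∣ d → ℓ = q ∨ ℓ = r := fun h1 h2 h3 =>
      h _ h2 (((pow_dvd_pow_of_dvd h3 2).trans h1).trans hD)
    have hp := Nat.minFac_prime hD1
    obtain ⟨d, h1, h2, h3, h4⟩ := hA _ hp (Nat.minFac_dvd D)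
    obtain ⟨a, b, ha, hb, hab, had, hbd⟩ := two_primes (hgt hp h4) h3
    -- `a` divides `D`
    have haD : a ∣ D := (had.trans (dvd_pow_self d two_ne_zero)).trans h1
    obtain ⟨d', h1', h2', h3', h4'⟩ := hA a ha haD
    obtain ⟨a', b', ha', hb', hab', had', hbd'⟩ := two_primes (hgt ha h4') h3'
    have e1 := hdv h1 ha had
    have e2 := hdv h1 hb hbd
    have e3 := hdv h1' ha' had'
    have e4 := hdv h1' hb' hbd'
    have n1 : a' ≠ a := fun h => h2' (h ▸ had')
    have n2 : b' ≠ a := fun h => h2' (h ▸ hbd')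
    rcases e1 with e1 | e1 <;> rcases e2 with e2 | e2 <;> rcases e3 with e3 | e3 <;> rcases e4 with e4 | e4 <;>
      first
        | exact hab (e1.trans e2.symm)
        | exact hab' (e3.trans e4.symm)
        | exact n1 (e3.trans e1.symm)
        | exact n2 (e4.trans e1.symm)
  | step m p x _ hp h ih =>
    intro D hD hA
    by_cases hpD : p ∣ D
    · exfalso
      obtain ⟨d, h1, h2, h3, h4⟩ := hA p hp hpD
      have h5 : Nat.Coprime (d ^ 2) (p ^ x) := Nat.Coprime.pow _ _ ((Nat.Prime.coprime_iff_not_dvd hp).2 h2).symm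
      have h6 := h d (Nat.Coprime.dvd_of_dvd_mul_left h5 (h1.trans hD))
      omega
    · have h2 : Nat.Coprime D (p ^ x) := Nat.Coprime.pow_right _ ((Nat.Prime.coprime_iff_not_dvd hp).2 hpD).symm
      exact ih D (Nat.Coprime.dvd_of_dvd_mul_left h2 hD) hA

namespace IntegralModularDatum

variable {I : Type} [Fintype I] [DecidableEq I] {M : IntegralModularDatum I}

theorem admissible (hsim : M.Simple) (hnp : ¬ M.Pointed) : Admissible M.gdim := by
  intro p hp hpD
  obtain ⟨X, h1, h2, h3⟩ := exists_large hsim hnp hp hpD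
  exact ⟨M.d X, M.sq_dvd X, h1, h2, h3⟩

/-- **Theorem L.** -/
theorem pointed_of_noAdm {n : ℕ} (hn : ∀ D : ℕ, D ∣ n → Admissible D → D = 1) (I : Type) [Fintype I] [DecidableEq I]
    (M : IntegralModularDatum I) (h : M.gdim ∣ n) (hM : M.NoSym) : M.Pointed := by
  refine reduce n ?_ _ I M rfl h hM
  intro I _ _ M h _ hsim
  by_contra hnp
  have h1 := hn _ h (admissible hsim hnp)
  apply hnp
  intro i
  have h2 : M.d i ^ 2 ≤ M.gdim := by
    unfold gdim
    exact Finset.single_le_sum (f := fun l => M.d l ^ 2) (fun _ _ => Nat.zero_le _) (Finset.mem_univ i)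
  rw [h1] at h2
  have h3 := M.d_pos i
  nlinarith

end IntegralModularDatum

end Pool.Agent.Helper46.WG
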