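import Mathlib

/-!
# Modular data with simple objects of bounded dimension (MP_2b6189_al)

If all simple objects of a pseudounitary modular datum have dimension at most `k` then the global dimension is at most
`B(k)` times the number of invertible objects.
-/

set_option autoImplicit false

open scoped BigOperators ComplexConjugate
open Finset

namespace Pool.Agent.Helper46.WG

/-- The `S`-matrix, the dimensions of the simple objects and the fusion coefficients of a modular fusion category with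
positive dimensions: `I` is the set of the simple objects, `d i > 0` the dimension of `i`, `s` the (unnormalised)
`S`-matrix, `N i j k` the multiplicity of `k` in `i ⊗ j`. -/
structure ModularDatum (I : Type) [Fintype I] [DecidableEq I] where
  unit : I
  dual : I → I
  d : I → ℝ
  s : I → I → ℂ
  N : I → I → I → ℕ
  d_pos : ∀ i, 0 < d i
  d_unit : d unit = 1
  s_unit : ∀ i, s unit i = (d i : ℂ)
  s_symm : ∀ i j, s i j = s j i
  s_dual : ∀ i j, s (dual i) j = conj (s i j)
  orth : ∀ i j, ∑ l, s i l * conj (s j l) = if i = j then ((∑ l, d l ^ 2 : ℝ) : ℂ) else 0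
  verlinde : ∀ i j l, s i l * s j l = (d l : ℂ) * ∑ k, (N i j k : ℂ) * s k l

namespace ModularDatum

variable {I : Type} [Fintype I] [DecidableEq I] (M : ModularDatum I)

/-- the global dimension -/
noncomputable def gdim : ℝ := ∑ l, M.d l ^ 2

theorem d_ne (i : I) : (M.d i : ℂ) ≠ 0 := by
  exact_mod_cast (M.d_pos i).ne'

theorem gdim_pos : 0 < M.gdim := by
  unfold gdim
  exact Finset.sum_pos (fun i _ => pow_pos (M.d_pos i) 2) ⟨M.unit, Finset.mem_univ _⟩

theorem s_unit' (i : I) : M.s i M.unit = (M.d i : ℂ) := by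
  rw [M.s_symm, M.s_unit]

theorem d_dual (i : I) : M.d (M.dual i) = M.d i := by
  have h := M.s_dual i M.unit
  rw [M.s_unit', M.s_unit', Complex.conj_ofReal] at h
  exact_mod_cast h

/-- Parseval -/
theorem parseval (a b : I → ℕ) :
    ∑ l, (∑ k, (a k : ℂ) * M.s k l) * conj (∑ k, (b k : ℂ) * M.s k l) =
      (M.gdim : ℂ) * ∑ k, (a k : ℂ) * b k := by
  have h1 : ∀ l, (∑ k, (a k : ℂ) * M.s k l) * conj (∑ k, (b k : ℂ) * M.s k l) =
      ∑ k, ∑ j, (a k : ℂ) * b j * (M.s k l * conj (M.s j l)) := by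
    intro l
    rw [map_sum, Finset.sum_mul_sum]
    refine Finset.sum_congr rfl fun k _ => Finset.sum_congr rfl fun j _ => ?_
    rw [map_mul, Complex.conj_natCast]
    ring
  simp_rw [h1]
  rw [Finset.sum_comm]
  have h2 : ∀ k, ∑ l, ∑ j, (a k : ℂ) * b j * (M.s k l * conj (M.s j l)) =
      (M.gdim : ℂ) * ((a k : ℂ) * b k) := by
    intro k
    rw [Finset.sum_comm]
    have h3 : ∀ j, ∑ l, (a k : ℂ) * b j * (M.s k l * conj (M.s j l)) =
        if k = j then (a k : ℂ) * b j * (M.gdim : ℂ) else 0 := by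
      intro j
      rw [← Finset.mul_sum, M.orth]
      split_ifs
      · rfl
      · rw [mul_zero]
    simp_rw [h3]
    rw [Finset.sum_ite_eq Finset.univ k]
    simp only [Finset.mem_univ, if_true]
    ring
  simp_rw [h2]
  rw [Finset.mul_sum]

/-- the sum of the fusion coefficients against the `S`-matrix -/
theorem sumN (i j l : I) : ∑ k, (M.N i j k : ℂ) * M.s k l = M.s i l * M.s j l / M.d l := by
  rw [eq_div_iff (M.d_ne l), mul_comm, ← M.verlinde]

theorem sumN_d (i j : I) : ∑ k, (M.N i j k : ℝ) * M.d k = M.d i * M.d j := by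
  have h := M.sumN i j M.unit
  rw [M.s_unit', M.s_unit', M.d_unit] at h
  simp_rw [M.s_unit'] at h
  rw [Complex.ofReal_one, div_one] at h
  exact_mod_cast h

/-- the coefficient of `k` -/
theorem coeff (i j k : I) : (M.gdim : ℂ) * M.N i j k = ∑ l, M.s i l * M.s j l * conj (M.s k l) / M.d l := by
  have h := M.parseval (M.N i j) (fun m => if m = k then 1 else 0)
  have h1 : ∀ l, (∑ m, ((if m = k then 1 else 0 : ℕ) : ℂ) * M.s m l) = M.s k l := by
    intro l
    simp
  have h2 : (∑ m, (M.N i j m : ℂ) * ((if m = k then 1 else 0 : ℕ) : ℂ)) = M.N i j k := by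
    simp
  rw [h2] at h
  rw [← h]
  refine Finset.sum_congr rfl fun l _ => ?_
  rw [M.sumN, h1]
  ring

theorem N_dual_unit (i j : I) : M.N i (M.dual j) M.unit = if i = j then 1 else 0 := by
  have h := M.coeff i (M.dual j) M.unit
  have h1 : ∀ l, M.s i l * M.s (M.dual j) l * conj (M.s M.unit l) / M.d l = M.s i l * conj (M.s j l) := by
    intro l
    rw [M.s_dual, M.s_unit, Complex.conj_ofReal, mul_div_assoc, div_self (M.d_ne l), mul_one]
  simp_rw [h1] at h
  rw [M.orth] at h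
  have hg : (M.gdim : ℂ) ≠ 0 := by exact_mod_cast M.gdim_pos.ne'
  split_ifs at h with hij
  · rw [if_pos hij]
    have h2 : (M.gdim : ℂ) * M.N i (M.dual j) M.unit = (M.gdim : ℂ) * 1 := by
      rw [h, mul_one]; rfl
    have := mul_left_cancel₀ hg h2
    exact_mod_cast this
  · rw [if_neg hij]
    have := (mul_eq_zero.1 h).resolve_left hg
    exact_mod_cast this

/-- Frobenius reciprocity in the form we need -/
theorem N_recip (i j k : I) : M.N i (M.dual j) k = M.N k j i := by
  have hg : (M.gdim : ℂ) ≠ 0 := by exact_mod_cast M.gdim_pos.ne'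
  have h1 := M.coeff i (M.dual j) k
  have h2 := congrArg conj (M.coeff k j i)
  rw [map_sum, map_mul, Complex.conj_ofReal, Complex.conj_natCast] at h2
  have h3 : (M.gdim : ℂ) * M.N i (M.dual j) k = (M.gdim : ℂ) * M.N k j i := by
    rw [h1, h2]
    refine Finset.sum_congr rfl fun l _ => ?_
    rw [M.s_dual, map_div₀, map_mul, map_mul, Complex.conj_conj, Complex.conj_ofReal]
    ring
  have := mul_left_cancel₀ hg h3
  exact_mod_cast this

theorem one_le_d (i : I) : 1 ≤ M.d i := by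
  have h := M.sumN_d i (M.dual i)
  rw [M.d_dual] at h
  have h1 : (1 : ℝ) ≤ ∑ k, (M.N i (M.dual i) k : ℝ) * M.d k := by
    have h2 : (M.N i (M.dual i) M.unit : ℝ) * M.d M.unit = 1 := by
      rw [M.N_dual_unit, if_pos rfl, M.d_unit]
      norm_num
    rw [← h2]
    exact Finset.single_le_sum (f := fun k => (M.N i (M.dual i) k : ℝ) * M.d k)
      (fun k _ => mul_nonneg (Nat.cast_nonneg _) (M.d_pos k).le) (Finset.mem_univ _)
  rw [h] at h1
  nlinarith [M.d_pos i]

/-- the entries of the `S`-matrix are bounded by the products of the dimensions -/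
theorem norm_s_le (i l : I) : ‖M.s i l‖ ≤ M.d i * M.d l := by
  obtain ⟨k, -, hk⟩ := Finset.exists_max_image (Finset.univ : Finset I) (fun k => ‖M.s k l‖ / M.d k)
    ⟨M.unit, Finset.mem_univ _⟩
  set c := ‖M.s k l‖ / M.d k with hc
  have hkd := M.d_pos k
  have hsk : ‖M.s k l‖ = c * M.d k := by
    rw [hc, div_mul_cancel₀ _ hkd.ne']
  have hle : ∀ m, ‖M.s m l‖ ≤ c * M.d m := by
    intro m
    have := hk m (Finset.mem_univ _)
    rwa [div_le_iff₀ (M.d_pos m)] at this
  have hc0 : 0 < c := by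
    have h1 := hle M.unit
    rw [M.s_unit, M.d_unit, mul_one, Complex.norm_real, Real.norm_of_nonneg (M.d_pos l).le] at h1
    exact (M.d_pos l).trans_le h1
  have h1 : ‖M.s i l‖ * ‖M.s k l‖ = M.d l * ‖∑ m, (M.N i k m : ℂ) * M.s m l‖ := by
    rw [← norm_mul, M.verlinde, norm_mul, Complex.norm_real, Real.norm_of_nonneg (M.d_pos l).le]
  have h2 : ‖∑ m, (M.N i k m : ℂ) * M.s m l‖ ≤ c * (M.d i * M.d k) := by
    calc ‖∑ m, (M.N i k m : ℂ) * M.s m l‖ ≤ ∑ m, ‖(M.N i k m : ℂ) * M.s m l‖ := norm_sum_le _ _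
      _ ≤ ∑ m, c * ((M.N i k m : ℝ) * M.d m) := by
          refine Finset.sum_le_sum fun m _ => ?_
          rw [norm_mul, Complex.norm_natCast]
          calc (M.N i k m : ℝ) * ‖M.s m l‖ ≤ (M.N i k m : ℝ) * (c * M.d m) :=
                mul_le_mul_of_nonneg_left (hle m) (Nat.cast_nonneg _)
            _ = _ := by ring
      _ = c * (M.d i * M.d k) := by rw [← Finset.mul_sum, M.sumN_d]
  rw [hsk] at h1
  have h3 : ‖M.s i l‖ * (c * M.d k) ≤ (M.d i * M.d l) * (c * M.d k) := by
    rw [h1]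
    calc M.d l * ‖∑ m, (M.N i k m : ℂ) * M.s m l‖ ≤ M.d l * (c * (M.d i * M.d k)) :=
          mul_le_mul_of_nonneg_left h2 (M.d_pos l).le
      _ = _ := by ring
  exact le_of_mul_le_mul_right h3 (by positivity)

/-- `i ⊗ i*` against the `S`-matrix -/
theorem sum_sq (i l : I) : ∑ k, (M.N i (M.dual i) k : ℂ) * M.s k l = ((‖M.s i l‖ ^ 2 / M.d l : ℝ) : ℂ) := by
  rw [M.sumN, M.s_dual, Complex.mul_conj, Complex.normSq_eq_norm_sq]
  push_cast
  ring

/-- `∑_V N_{XX*}^V N_{WW*}^V = ∑_Z (N_{XW}^Z)²` -/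
theorem sum_common (X W : I) :
    ∑ V, M.N X (M.dual X) V * M.N W (M.dual W) V = ∑ Z, M.N X W Z ^ 2 := by
  have hg : (M.gdim : ℂ) ≠ 0 := by exact_mod_cast M.gdim_pos.ne'
  have h1 := M.parseval (M.N X (M.dual X)) (M.N W (M.dual W))
  have h2 := M.parseval (M.N X W) (M.N X W)
  have h3 : (M.gdim : ℂ) * ∑ k, (M.N X (M.dual X) k : ℂ) * M.N W (M.dual W) k =
      (M.gdim : ℂ) * ∑ k, (M.N X W k : ℂ) * M.N X W k := by
    rw [← h1, ← h2]
    refine Finset.sum_congr rfl fun l _ => ?_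
    rw [M.sum_sq, M.sum_sq, M.sumN, Complex.conj_ofReal, map_div₀, map_mul, Complex.conj_ofReal]
    have e1 : M.s X l * M.s W l / (M.d l : ℂ) * (conj (M.s X l) * conj (M.s W l) / (M.d l : ℂ)) =
        (M.s X l * conj (M.s X l)) * (M.s W l * conj (M.s W l)) / ((M.d l : ℂ) * M.d l) := by
      rw [div_mul_div_comm]
      congr 1
      ring
    rw [e1, Complex.mul_conj, Complex.mul_conj, Complex.normSq_eq_norm_sq, Complex.normSq_eq_norm_sq]
    push_cast
    rw [div_mul_div_comm]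
  have h4 := mul_left_cancel₀ hg h3
  have h5 : ((∑ V, M.N X (M.dual X) V * M.N W (M.dual W) V : ℕ) : ℂ) = ((∑ Z, M.N X W Z ^ 2 : ℕ) : ℂ) := by
    push_cast
    rw [h4]
    exact Finset.sum_congr rfl fun k _ => by ring
  exact_mod_cast h5

/-- (1) a noninvertible `W` shares a nontrivial constituent with `X ⊗ X*` -/
theorem exists_common {X : I} (hX : ∀ i, M.d i ≤ M.d X) {W : I} (hW : 1 < M.d W) :
    ∃ V, V ≠ M.unit ∧ M.N X (M.dual X) V ≠ 0 ∧ M.N W (M.dual W) V ≠ 0 := by
  by_contra hcon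
  push Not at hcon
  have h1 : ∑ V, M.N X (M.dual X) V * M.N W (M.dual W) V = 1 := by
    rw [Finset.sum_eq_single M.unit]
    · rw [M.N_dual_unit, M.N_dual_unit, if_pos rfl, if_pos rfl]
    · intro V _ hV
      by_cases h : M.N X (M.dual X) V = 0
      · rw [h, zero_mul]
      · rw [hcon V hV h, mul_zero]
    · intro h
      exact absurd (Finset.mem_univ _) h
  rw [M.sum_common] at h1
  have h2 : (∑ Z, M.N X W Z : ℕ) ≤ ∑ Z, M.N X W Z ^ 2 := by
    refine Finset.sum_le_sum fun Z _ => ?_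
    exact Nat.le_self_pow (by norm_num) _
  have h3 : M.d X * M.d W ≤ M.d X * ((∑ Z, M.N X W Z : ℕ) : ℝ) := by
    rw [← M.sumN_d X W]
    push_cast
    rw [Finset.mul_sum]
    refine Finset.sum_le_sum fun Z _ => ?_
    rw [mul_comm (M.d X)]
    exact mul_le_mul_of_nonneg_left (hX Z) (Nat.cast_nonneg _)
  have h4 := le_of_mul_le_mul_left h3 (M.d_pos X)
  have h5 : ((∑ Z, M.N X W Z : ℕ) : ℝ) ≤ 1 := by
    rw [h1] at h2
    exact_mod_cast h2
  linarith

/-- (2) -/
theorem exists_nonpos {V : I} (hV : V ≠ M.unit) : ∃ Z, (M.s V Z).re ≤ 0 := by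
  by_contra hcon
  push Not at hcon
  have h := M.orth V M.unit
  rw [if_neg hV] at h
  have h1 := congrArg Complex.re h
  rw [Complex.re_sum, Complex.zero_re] at h1
  have h2 : 0 < ∑ l, (M.s V l * conj (M.s M.unit l)).re := by
    refine Finset.sum_pos (fun l _ => ?_) ⟨M.unit, Finset.mem_univ _⟩
    rw [M.s_unit, Complex.conj_ofReal, Complex.mul_re, Complex.ofReal_re, Complex.ofReal_im, mul_zero, sub_zero]
    exact mul_pos (hcon l) (M.d_pos l)
  rw [h1] at h2
  exact lt_irrefl _ h2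

/-- (3) -/
theorem norm_sq_le {W V Z : I} (hV : M.N W (M.dual W) V ≠ 0) (hZ : (M.s V Z).re ≤ 0) :
    ‖M.s W Z‖ ^ 2 ≤ (M.d W ^ 2 - 1) * M.d Z ^ 2 := by
  have h := congrArg Complex.re (M.sum_sq W Z)
  rw [Complex.ofReal_re, Complex.re_sum] at h
  have h1 : ∀ k, ((M.N W (M.dual W) k : ℂ) * M.s k Z).re = (M.N W (M.dual W) k : ℝ) * (M.s k Z).re := by
    intro k
    rw [Complex.mul_re, Complex.natCast_re, Complex.natCast_im, zero_mul, sub_zero]
  simp_rw [h1] at h
  have hZ0 := M.d_pos Z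
  have h2 : ∑ k, (M.N W (M.dual W) k : ℝ) * (M.s k Z).re ≤
      ∑ k, ((M.N W (M.dual W) k : ℝ) * M.d k * M.d Z - if k = V then M.d Z else 0) := by
    refine Finset.sum_le_sum fun k _ => ?_
    split_ifs with hk
    · subst hk
      have h3 : (1 : ℝ) ≤ (M.N W (M.dual W) k : ℝ) := by
        exact_mod_cast Nat.one_le_iff_ne_zero.2 hV
      have h4 : (M.N W (M.dual W) k : ℝ) * (M.s k Z).re ≤ 0 :=
        mul_nonpos_of_nonneg_of_nonpos (Nat.cast_nonneg _) hZ
      have h5 : M.d Z ≤ (M.N W (M.dual W) k : ℝ) * M.d k * M.d Z := by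
        have h6 : 1 ≤ (M.N W (M.dual W) k : ℝ) * M.d k := by
          nlinarith [M.one_le_d k]
        nlinarith
      linarith
    · rw [sub_zero, mul_assoc]
      refine mul_le_mul_of_nonneg_left ?_ (Nat.cast_nonneg _)
      exact ((Complex.re_le_norm _).trans (M.norm_s_le k Z))
  rw [Finset.sum_sub_distrib, ← Finset.sum_mul, M.sumN_d, M.d_dual, Finset.sum_ite_eq' Finset.univ V,
    if_pos (Finset.mem_univ _), h, div_le_iff₀ hZ0] at h2
  nlinarith

/-- an object of dimension one -/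
theorem norm_s_inv {g : I} (hg : M.d g = 1) (Z : I) : ‖M.s g Z‖ = M.d Z := by
  have h := M.sumN_d g (M.dual g)
  rw [M.d_dual, hg, mul_one] at h
  have hz : ∀ k, k ≠ M.unit → M.N g (M.dual g) k = 0 := by
    intro k hk
    by_contra hne
    have h1 : (1 : ℝ) ≤ (M.N g (M.dual g) k : ℝ) := by
      exact_mod_cast Nat.one_le_iff_ne_zero.2 hne
    have h2 : (M.N g (M.dual g) k : ℝ) * M.d k + (M.N g (M.dual g) M.unit : ℝ) * M.d M.unit ≤
        ∑ k, (M.N g (M.dual g) k : ℝ) * M.d k := by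
      rw [← Finset.sum_pair (f := fun k => (M.N g (M.dual g) k : ℝ) * M.d k) hk]
      exact Finset.sum_le_sum_of_subset_of_nonneg (Finset.subset_univ _)
        (fun i _ _ => mul_nonneg (Nat.cast_nonneg _) (M.d_pos i).le)
    rw [h, M.N_dual_unit, if_pos rfl, M.d_unit] at h2
    have h3 := M.one_le_d k
    push_cast at h2
    nlinarith
  have h1 := M.sum_sq g Z
  rw [Finset.sum_eq_single M.unit (fun k _ hk => by rw [hz k hk]; simp)
    (fun h => absurd (Finset.mem_univ _) h), M.N_dual_unit, if_pos rfl, M.s_unit] at h1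
  have h2 : M.d Z = ‖M.s g Z‖ ^ 2 / M.d Z := by
    have : (M.d Z : ℂ) = ((‖M.s g Z‖ ^ 2 / M.d Z : ℝ) : ℂ) := by
      rw [← h1]; simp
    exact_mod_cast this
  rw [eq_div_iff (M.d_pos Z).ne'] at h2
  nlinarith [norm_nonneg (M.s g Z), M.d_pos Z]

end ModularDatum

end Pool.Agent.Helper46.WG
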