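import Pool.Agent.Helper46.WG.Bdd

/-!
# Modular data with simple objects of bounded dimension (MP_2b6189_al): the kernel and the pigeonhole argument
-/

set_option autoImplicit false

open scoped BigOperators ComplexConjugate
open Finset

namespace Pool.Agent.Helper46.WG

namespace ModularDatum

variable {I : Type} [Fintype I] [DecidableEq I] (M : ModularDatum I)

/-- `f` is the character of a nonnegative combination `a` of simple objects -/
def IsChar (f : I → ℝ) (a : I → ℕ) : Prop := ∀ U, ∑ Y, (a Y : ℂ) * M.s Y U = (M.d U : ℂ) * (f U : ℂ)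

theorem isChar_one : ∃ a, M.IsChar (fun _ => 1) a := by
  refine ⟨fun m => if m = M.unit then 1 else 0, fun U => ?_⟩
  simp [M.s_unit]

theorem isChar_sq (Z : I) : ∃ a, M.IsChar (fun U => ‖M.s Z U‖ ^ 2 / M.d U ^ 2) a := by
  refine ⟨M.N Z (M.dual Z), fun U => ?_⟩
  rw [M.sum_sq]
  have h := M.d_ne U
  push_cast
  field_simp

theorem isChar_mul {f g : I → ℝ} (hf : ∃ a, M.IsChar f a) (hg : ∃ a, M.IsChar g a) :
    ∃ a, M.IsChar (fun U => f U * g U) a := by
  obtain ⟨a, ha⟩ := hf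
  obtain ⟨b, hb⟩ := hg
  refine ⟨fun Y => ∑ i, ∑ j, a i * b j * M.N i j Y, fun U => ?_⟩
  have h1 : ∑ Y, ((∑ i, ∑ j, a i * b j * M.N i j Y : ℕ) : ℂ) * M.s Y U =
      ∑ i, ∑ j, (a i : ℂ) * b j * ∑ Y, (M.N i j Y : ℂ) * M.s Y U := by
    simp_rw [Finset.mul_sum]
    push_cast
    simp_rw [Finset.sum_mul]
    rw [Finset.sum_comm]
    refine Finset.sum_congr rfl fun i _ => ?_
    rw [Finset.sum_comm]
    refine Finset.sum_congr rfl fun j _ => Finset.sum_congr rfl fun Y _ => ?_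
    ring
  rw [h1]
  have h2 : ∑ i, ∑ j, (a i : ℂ) * b j * ∑ Y, (M.N i j Y : ℂ) * M.s Y U =
      (∑ i, (a i : ℂ) * M.s i U) * (∑ j, (b j : ℂ) * M.s j U) / M.d U := by
    rw [Finset.sum_mul_sum, Finset.sum_div]
    refine Finset.sum_congr rfl fun i _ => ?_
    rw [Finset.sum_div]
    refine Finset.sum_congr rfl fun j _ => ?_
    rw [M.sumN]
    ring
  rw [h2, ha, hb]
  have h := M.d_ne U
  push_cast
  field_simp

theorem isChar_pow {f : I → ℝ} (hf : ∃ a, M.IsChar f a) (m : ℕ) :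
    ∃ a, M.IsChar (fun U => f U ^ m) a := by
  induction m with
  | zero => simpa using M.isChar_one
  | succ m ih =>
    have := M.isChar_mul ih hf
    simpa [pow_succ] using this

theorem isChar_prod {ι : Type} [DecidableEq ι] (s : Finset ι) (f : ι → I → ℝ) (hf : ∀ i ∈ s, ∃ a, M.IsChar (f i) a) :
    ∃ a, M.IsChar (fun U => ∏ i ∈ s, f i U) a := by
  induction s using Finset.induction_on with
  | empty => simpa using M.isChar_one
  | insert i s hi ih =>
    have h1 := ih (fun j hj => hf j (Finset.mem_insert_of_mem hj))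
    have h2 := M.isChar_mul (hf i (Finset.mem_insert_self _ _)) h1
    obtain ⟨a, ha⟩ := h2
    refine ⟨a, fun U => ?_⟩
    rw [ha U]
    simp only [Finset.prod_insert hi]

/-- the kernel -/
theorem kernel {f : I → ℝ} {a : I → ℕ} (ha : M.IsChar f a) (W W' : I) :
    ((∑ U, (M.N W (M.dual W') U : ℝ) * M.d U * f U : ℝ) : ℂ) =
      ∑ Y, (a Y : ℂ) * (M.s W Y * conj (M.s W' Y) / M.d Y) := by
  push_cast
  have h1 : ∀ U, (M.N W (M.dual W') U : ℂ) * (M.d U : ℂ) * (f U : ℂ) =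
      ∑ Y, (a Y : ℂ) * ((M.N W (M.dual W') U : ℂ) * M.s U Y) := by
    intro U
    rw [mul_assoc, ← ha U, Finset.mul_sum]
    refine Finset.sum_congr rfl fun Y _ => ?_
    rw [M.s_symm Y U]
    ring
  simp_rw [h1]
  rw [Finset.sum_comm]
  refine Finset.sum_congr rfl fun Y _ => ?_
  rw [← Finset.mul_sum, M.sumN, M.s_dual]

theorem isChar_total {f : I → ℝ} {a : I → ℕ} (ha : M.IsChar f a) : ∑ Y, (a Y : ℝ) * M.d Y = f M.unit := by
  have h := ha M.unit
  simp_rw [M.s_unit'] at h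
  rw [M.d_unit, Complex.ofReal_one, one_mul] at h
  exact_mod_cast h

/-- two objects which are close on all constituents -/
theorem close {f : I → ℝ} {a : I → ℕ} (ha : M.IsChar f a) (hf : ∀ U, 0 ≤ f U) {k : ℝ}
    (hk : ∀ i, M.d i ≤ k) {ε δ : ℝ} (hε : ∀ U, 1 < M.d U → f U ≤ ε * f M.unit) (hfu : 0 < f M.unit)
    {W W' : I} (hinv : ∀ U, M.d U = 1 → M.N W (M.dual W') U = 0)
    (hclose : ∀ Y, a Y ≠ 0 → ‖M.s W Y / (M.d W * M.d Y) - M.s W' Y / (M.d W' * M.d Y)‖ ≤ δ) :
    1 / k ^ 2 ≤ ε + δ := by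
  have hW := M.d_pos W
  have hW' := M.d_pos W'
  have hk1 : 1 ≤ k := (M.one_le_d W).trans (hk W)
  -- the diagonal term
  have h1 : f M.unit ≤ ∑ U, (M.N W (M.dual W) U : ℝ) * M.d U * f U := by
    have h2 : (M.N W (M.dual W) M.unit : ℝ) * M.d M.unit * f M.unit = f M.unit := by
      rw [M.N_dual_unit, if_pos rfl, M.d_unit]
      norm_num
    conv_lhs => rw [← h2]
    exact Finset.single_le_sum (f := fun U => (M.N W (M.dual W) U : ℝ) * M.d U * f U)
      (fun U _ => mul_nonneg (mul_nonneg (Nat.cast_nonneg _) (M.d_pos U).le) (hf U)) (Finset.mem_univ _)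
  -- the other term
  have h2 : ∑ U, (M.N W (M.dual W') U : ℝ) * M.d U * f U ≤ ε * f M.unit * (M.d W * M.d W') := by
    have h3 := M.sumN_d W (M.dual W')
    rw [M.d_dual] at h3
    rw [← h3, Finset.mul_sum]
    refine Finset.sum_le_sum fun U _ => ?_
    rcases (M.one_le_d U).eq_or_lt with h4 | h4
    · rw [hinv U h4.symm]
      simp
    · calc (M.N W (M.dual W') U : ℝ) * M.d U * f U ≤ (M.N W (M.dual W') U : ℝ) * M.d U * (ε * f M.unit) :=
            mul_le_mul_of_nonneg_left (hε U h4) (mul_nonneg (Nat.cast_nonneg _) (M.d_pos U).le)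
        _ = _ := by ring
  -- the difference
  set A : ℝ := (∑ U, (M.N W (M.dual W) U : ℝ) * M.d U * f U) with hA
  set B : ℝ := (∑ U, (M.N W (M.dual W') U : ℝ) * M.d U * f U) with hB
  have h3 : ((A / M.d W ^ 2 - B / (M.d W * M.d W') : ℝ) : ℂ) =
      ∑ Y, ((a Y : ℂ) * M.d Y) * ((M.s W Y / (M.d W * M.d Y)) *
        conj (M.s W Y / (M.d W * M.d Y) - M.s W' Y / (M.d W' * M.d Y))) := by
    have e1 := M.kernel ha W W
    have e2 := M.kernel ha W W'
    rw [← hA] at e1
    rw [← hB] at e2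
    have hd := M.d_ne W
    have hd' := M.d_ne W'
    push_cast
    rw [e1, e2, Finset.sum_div, Finset.sum_div, ← Finset.sum_sub_distrib]
    refine Finset.sum_congr rfl fun Y _ => ?_
    have hdY := M.d_ne Y
    rw [map_sub, map_div₀, map_div₀, map_mul, map_mul, Complex.conj_ofReal, Complex.conj_ofReal, Complex.conj_ofReal]
    field_simp
  have h4 : A / M.d W ^ 2 - B / (M.d W * M.d W') ≤ δ * f M.unit := by
    have h5 : A / M.d W ^ 2 - B / (M.d W * M.d W') ≤
        ‖((A / M.d W ^ 2 - B / (M.d W * M.d W') : ℝ) : ℂ)‖ := by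
      rw [Complex.norm_real]
      exact le_abs_self _
    refine h5.trans ?_
    rw [h3, ← M.isChar_total ha, Finset.mul_sum]
    refine (norm_sum_le _ _).trans (Finset.sum_le_sum fun Y _ => ?_)
    by_cases hY : a Y = 0
    · rw [hY]
      simp
    · rw [norm_mul, norm_mul, norm_mul, Complex.norm_natCast, Complex.norm_real, Real.norm_of_nonneg (M.d_pos Y).le,
        Complex.norm_conj, mul_comm δ]
      refine mul_le_mul_of_nonneg_left ?_ (mul_nonneg (Nat.cast_nonneg _) (M.d_pos Y).le)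
      have h6 : ‖M.s W Y / (M.d W * M.d Y)‖ ≤ 1 := by
        rw [norm_div, norm_mul, Complex.norm_real, Complex.norm_real, Real.norm_of_nonneg hW.le,
          Real.norm_of_nonneg (M.d_pos Y).le, div_le_one (mul_pos hW (M.d_pos Y))]
        exact M.norm_s_le W Y
      calc ‖M.s W Y / (M.d W * M.d Y)‖ * ‖M.s W Y / (M.d W * M.d Y) - M.s W' Y / (M.d W' * M.d Y)‖ ≤ 1 * δ :=
            mul_le_mul h6 (hclose Y hY) (norm_nonneg _) zero_le_one
        _ = δ := one_mul _
  have h5 : f M.unit / k ^ 2 ≤ A / M.d W ^ 2 := by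
    refine (div_le_div_of_nonneg_left hfu.le (pow_pos hW 2) (pow_le_pow_left₀ hW.le (hk W) 2)).trans ?_
    exact div_le_div_of_nonneg_right h1 (pow_pos hW 2).le
  have h6 : B / (M.d W * M.d W') ≤ ε * f M.unit := by
    rw [div_le_iff₀ (mul_pos hW hW')]
    exact h2
  have h7 : f M.unit * (1 / k ^ 2) ≤ f M.unit * (ε + δ) := by
    have : f M.unit * (1 / k ^ 2) = f M.unit / k ^ 2 := by ring
    rw [this]
    nlinarith
  exact le_of_mul_le_mul_left h7 hfu

/-- the size of a cell of the grid -/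
theorem floor_close {x y : ℝ} {K : ℕ} (hK : 0 < K) (h : ⌊(x + 1) * K⌋₊ = ⌊(y + 1) * K⌋₊) (hx : -1 ≤ x) (hy : -1 ≤ y) :
    |x - y| ≤ 1 / K := by
  have hK' : (0 : ℝ) < K := Nat.cast_pos.2 hK
  have hx0 : 0 ≤ (x + 1) * K := mul_nonneg (by linarith) hK'.le
  have hy0 : 0 ≤ (y + 1) * K := mul_nonneg (by linarith) hK'.le
  have h1 := Nat.floor_le hx0
  have h2 := Nat.lt_floor_add_one ((x + 1) * K)
  have h3 := Nat.floor_le hy0
  have h4 := Nat.lt_floor_add_one ((y + 1) * K)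
  rw [h] at h1 h2
  have h5 : |x - y| * K = |(x - y) * K| := by rw [abs_mul, abs_of_pos hK']
  rw [le_div_iff₀ hK', h5, abs_le]
  constructor
  · nlinarith
  · nlinarith

/-- pairwise inequivalent objects are few -/
theorem card_le {f : I → ℝ} {a : I → ℕ} (ha : M.IsChar f a) (hf : ∀ U, 0 ≤ f U) {k : ℕ}
    (hk : ∀ i, M.d i ≤ k) (hk0 : 0 < k) (hε : ∀ U, 1 < M.d U → f U ≤ 1 / (4 * k ^ 2) * f M.unit) (hfu : 0 < f M.unit)
    (R : Finset I) (hR : ∀ W ∈ R, ∀ W' ∈ R, W ≠ W' → ∀ U, M.d U = 1 → M.N W (M.dual W') U = 0) :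
    R.card ≤ ((8 * k ^ 2 + 1) ^ 2) ^ (Finset.univ.filter fun Y => a Y ≠ 0).card := by
  classical
  set K : ℕ := 4 * k ^ 2 with hKdef
  have hK : 0 < K := by positivity
  have hK' : (0 : ℝ) < K := Nat.cast_pos.2 hK
  let z : I → I → ℂ := fun W Y => M.s W Y / (M.d W * M.d Y)
  have hz : ∀ W Y, ‖z W Y‖ ≤ 1 := by
    intro W Y
    show ‖M.s W Y / (M.d W * M.d Y)‖ ≤ 1
    rw [norm_div, norm_mul, Complex.norm_real, Complex.norm_real, Real.norm_of_nonneg (M.d_pos W).le,
      Real.norm_of_nonneg (M.d_pos Y).le, div_le_one (mul_pos (M.d_pos W) (M.d_pos Y))]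
    exact M.norm_s_le W Y
  have hre : ∀ W Y, |(z W Y).re| ≤ 1 := fun W Y => (Complex.abs_re_le_norm _).trans (hz W Y)
  have him : ∀ W Y, |(z W Y).im| ≤ 1 := fun W Y => (Complex.abs_im_le_norm _).trans (hz W Y)
  have hlt : ∀ x : ℝ, |x| ≤ 1 → ⌊(x + 1) * K⌋₊ < 2 * K + 1 := by
    intro x hx
    rw [abs_le] at hx
    have h0 : 0 ≤ (x + 1) * K := mul_nonneg (by linarith) hK'.le
    rw [Nat.floor_lt h0]
    push_cast
    nlinarith
  let S := {Y : I // a Y ≠ 0}
  let Ψ : R → (S → Fin (2 * K + 1) × Fin (2 * K + 1)) := fun W Y =>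
    (⟨⌊((z W.1 Y.1).re + 1) * K⌋₊, hlt _ (hre _ _)⟩, ⟨⌊((z W.1 Y.1).im + 1) * K⌋₊, hlt _ (him _ _)⟩)
  have hinj : Function.Injective Ψ := by
    intro W W' hWW
    by_contra hne
    have hne' : W.1 ≠ W'.1 := fun h => hne (Subtype.ext h)
    have hc : ∀ Y, a Y ≠ 0 → ‖z W.1 Y - z W'.1 Y‖ ≤ 2 / K := by
      intro Y hY
      have h1 := congrFun hWW ⟨Y, hY⟩
      have h2 : ⌊((z W.1 Y).re + 1) * K⌋₊ = ⌊((z W'.1 Y).re + 1) * K⌋₊ := by
        have := congrArg (fun p => (p.1 : ℕ)) h1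
        exact this
      have h3 : ⌊((z W.1 Y).im + 1) * K⌋₊ = ⌊((z W'.1 Y).im + 1) * K⌋₊ := by
        have := congrArg (fun p => (p.2 : ℕ)) h1
        exact this
      have h4 := floor_close hK h2 (abs_le.1 (hre _ _)).1 (abs_le.1 (hre _ _)).1
      have h5 := floor_close hK h3 (abs_le.1 (him _ _)).1 (abs_le.1 (him _ _)).1
      refine (Complex.norm_le_abs_re_add_abs_im _).trans ?_
      rw [Complex.sub_re, Complex.sub_im]
      calc |(z W.1 Y).re - (z W'.1 Y).re| + |(z W.1 Y).im - (z W'.1 Y).im| ≤ 1 / K + 1 / K := add_le_add h4 h5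
        _ = 2 / K := by ring
    have h1 := M.close ha hf hk hε hfu (hR W.1 W.2 W'.1 W'.2 hne') hc
    have hk' : (0 : ℝ) < k := Nat.cast_pos.2 hk0
    rw [hKdef] at h1
    push_cast at h1
    have h2 : (1 : ℝ) / (4 * k ^ 2) + 2 / (4 * k ^ 2) = 3 / 4 * (1 / k ^ 2) := by
      field_simp
      norm_num
    rw [h2] at h1
    have h3 : (0 : ℝ) < 1 / k ^ 2 := by positivity
    linarith
  have hcard := Fintype.card_le_of_injective Ψ hinj
  rw [Fintype.card_coe, Fintype.card_fun, Fintype.card_prod, Fintype.card_fin] at hcard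
  have hS : Fintype.card S = (Finset.univ.filter fun Y => a Y ≠ 0).card := Fintype.card_subtype _
  rw [hS] at hcard
  refine hcard.trans (le_of_eq ?_)
  congr 1
  rw [hKdef]
  ring

/-- a maximal system of pairwise inequivalent objects -/
theorem exists_reps : ∃ R : Finset I,
    (∀ W ∈ R, ∀ W' ∈ R, W ≠ W' → ∀ U, M.d U = 1 → M.N W (M.dual W') U = 0) ∧
    ∀ W, ∃ W' ∈ R, ∃ U, M.d U = 1 ∧ M.N W (M.dual W') U ≠ 0 := by
  classical
  let P : Finset I → Prop := fun R =>
    ∀ W ∈ R, ∀ W' ∈ R, W ≠ W' → ∀ U, M.d U = 1 → M.N W (M.dual W') U = 0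
  obtain ⟨R, hR, hmax⟩ := Finset.exists_max_image (Finset.univ.filter P) Finset.card
    ⟨∅, Finset.mem_filter.2 ⟨Finset.mem_univ _, fun W hW => absurd hW (Finset.notMem_empty _)⟩⟩
  have hRP : P R := (Finset.mem_filter.1 hR).2
  refine ⟨R, hRP, fun W => ?_⟩
  by_contra hcon
  push Not at hcon
  -- symmetry
  have hsym : ∀ W' ∈ R, ∀ U, M.d U = 1 → M.N W' (M.dual W) U = 0 := by
    intro W' hW' U hU
    by_contra hne
    -- `U` is in `W' ⊗ W*`, so `U*` is in `W ⊗ W'*`
    have h1 := M.coeff W' (M.dual W) U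
    have h2 := M.coeff W (M.dual W') (M.dual U)
    have hg : (M.gdim : ℂ) ≠ 0 := by exact_mod_cast M.gdim_pos.ne'
    have h3 : (M.gdim : ℂ) * M.N W (M.dual W') (M.dual U) = (M.gdim : ℂ) * M.N W' (M.dual W) U := by
      have h4 := congrArg conj h1
      rw [map_mul, Complex.conj_ofReal, Complex.conj_natCast, map_sum] at h4
      rw [h2, h4]
      refine Finset.sum_congr rfl fun l _ => ?_
      rw [M.s_dual, M.s_dual, M.s_dual, map_div₀, map_mul, map_mul, Complex.conj_conj, Complex.conj_conj,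
        Complex.conj_ofReal]
      ring
    have h5 := mul_left_cancel₀ hg h3
    have h6 : M.N W (M.dual W') (M.dual U) = M.N W' (M.dual W) U := by exact_mod_cast h5
    have h7 : M.d (M.dual U) = 1 := by rw [M.d_dual, hU]
    exact hne (by rw [← h6]; exact hcon W' hW' _ h7)
  have hWR : W ∉ R := by
    intro hW
    have h1 := hcon W hW M.unit M.d_unit
    rw [M.N_dual_unit, if_pos rfl] at h1
    exact one_ne_zero h1
  have hP : P (insert W R) := by
    intro A hA B hB hAB U hU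
    rw [Finset.mem_insert] at hA hB
    rcases hA with rfl | hA
    · rcases hB with rfl | hB
      · exact absurd rfl hAB
      · exact hcon B hB U hU
    · rcases hB with rfl | hB
      · exact hsym A hA U hU
      · exact hRP A hA B hB hAB U hU
  have h1 := hmax (insert W R) (Finset.mem_filter.2 ⟨Finset.mem_univ _, hP⟩)
  rw [Finset.card_insert_of_notMem hWR] at h1
  omega

/-- the global dimension in terms of a system of representatives -/
theorem gdim_le {k : ℝ} (hk : ∀ i, M.d i ≤ k) (R : Finset I)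
    (hR : ∀ W, ∃ W' ∈ R, ∃ U, M.d U = 1 ∧ M.N W (M.dual W') U ≠ 0) :
    M.gdim ≤ k ^ 2 * R.card * (Finset.univ.filter fun i => M.d i = 1).card := by
  classical
  have hk0 : 0 ≤ k := (M.d_pos M.unit).le.trans (hk M.unit)
  set G : Finset I := Finset.univ.filter fun i => M.d i = 1 with hG
  have h1 : ∀ W, M.d W ^ 2 ≤ ∑ r ∈ R, ∑ g ∈ G, k * ((M.N g r W : ℝ) * M.d W) := by
    intro W
    obtain ⟨r, hr, U, hU, hne⟩ := hR W
    rw [M.N_recip] at hne
    have h2 : M.d W ^ 2 ≤ k * ((M.N U r W : ℝ) * M.d W) := by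
      have h3 : (1 : ℝ) ≤ (M.N U r W : ℝ) := by exact_mod_cast Nat.one_le_iff_ne_zero.2 hne
      have h4 := M.d_pos W
      have h5 := hk W
      calc M.d W ^ 2 = M.d W * M.d W := sq _
        _ ≤ k * M.d W := mul_le_mul_of_nonneg_right h5 h4.le
        _ ≤ k * ((M.N U r W : ℝ) * M.d W) := by
            refine mul_le_mul_of_nonneg_left ?_ hk0
            nlinarith
    have hnn : ∀ r' g, 0 ≤ k * ((M.N g r' W : ℝ) * M.d W) := fun r' g =>
      mul_nonneg hk0 (mul_nonneg (Nat.cast_nonneg _) (M.d_pos W).le)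
    refine h2.trans ?_
    refine le_trans ?_ (Finset.single_le_sum (f := fun r => ∑ g ∈ G, k * ((M.N g r W : ℝ) * M.d W))
      (fun r' _ => Finset.sum_nonneg fun g _ => hnn r' g) hr)
    exact Finset.single_le_sum (f := fun g => k * ((M.N g r W : ℝ) * M.d W)) (fun g _ => hnn r g)
      (Finset.mem_filter.2 ⟨Finset.mem_univ _, hU⟩)
  calc M.gdim = ∑ W, M.d W ^ 2 := rfl
    _ ≤ ∑ W, ∑ r ∈ R, ∑ g ∈ G, k * ((M.N g r W : ℝ) * M.d W) := Finset.sum_le_sum fun W _ => h1 W
    _ = ∑ r ∈ R, ∑ g ∈ G, k * ∑ W, (M.N g r W : ℝ) * M.d W := by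
        rw [Finset.sum_comm]
        refine Finset.sum_congr rfl fun r _ => ?_
        rw [Finset.sum_comm]
        refine Finset.sum_congr rfl fun g _ => ?_
        rw [Finset.mul_sum]
    _ ≤ ∑ r ∈ R, ∑ g ∈ G, k ^ 2 := by
        refine Finset.sum_le_sum fun r _ => Finset.sum_le_sum fun g hg => ?_
        rw [M.sumN_d, (Finset.mem_filter.1 hg).2, one_mul, sq]
        exact mul_le_mul_of_nonneg_left (hk r) hk0
    _ = _ := by
        rw [Finset.sum_const, Finset.sum_const, nsmul_eq_mul, nsmul_eq_mul]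
        ring

end ModularDatum

end Pool.Agent.Helper46.WG
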