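import Pool.Agent.Helper46.WG.Bdd2

/-!
# Modular data with simple objects of bounded dimension (MP_2b6189_al): the theorem
-/

set_option autoImplicit false

open scoped BigOperators ComplexConjugate
open Finset

namespace Pool.Agent.Helper46.WG

namespace ModularDatum

variable {I : Type} [Fintype I] [DecidableEq I] (M : ModularDatum I)

theorem decay (k : ℕ) (hk : 0 < k) : (1 - 1 / (k : ℝ) ^ 2) ^ (4 * k ^ 4) ≤ 1 / (4 * (k : ℝ) ^ 2) := by
  have hk1 : (1 : ℝ) ≤ k := by exact_mod_cast hk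
  have hk2 : (0 : ℝ) < (k : ℝ) ^ 2 := by positivity
  have h0 : 0 ≤ 1 - 1 / (k : ℝ) ^ 2 := by
    rw [sub_nonneg, div_le_one hk2]
    exact one_le_pow₀ hk1
  have h1 : 1 - 1 / (k : ℝ) ^ 2 ≤ Real.exp (-(1 / (k : ℝ) ^ 2)) := by
    have := Real.add_one_le_exp (-(1 / (k : ℝ) ^ 2))
    linarith
  have h2 : (1 - 1 / (k : ℝ) ^ 2) ^ (4 * k ^ 4) ≤ Real.exp (-(4 * (k : ℝ) ^ 2)) := by
    refine (pow_le_pow_left₀ h0 h1 _).trans (le_of_eq ?_)
    rw [← Real.exp_nat_mul]
    congr 1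
    push_cast
    field_simp
  refine h2.trans ?_
  rw [Real.exp_neg, ← one_div]
  refine one_div_le_one_div_of_le (by positivity) ?_
  have := Real.add_one_le_exp (4 * (k : ℝ) ^ 2)
  linarith

theorem main (k : ℕ) (hk : ∀ i, M.d i ≤ k) :
    M.gdim ≤ ((k ^ 2 * (8 * k ^ 2 + 1) ^ (2 * k ^ (8 * k ^ 6)) : ℕ) : ℝ) *
      ((Finset.univ.filter fun i => M.d i = 1).card : ℝ) := by
  classical
  have hk0 : 0 < k := by
    have := (M.d_pos M.unit).trans_le (hk M.unit)
    exact_mod_cast this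
  have hk1 : (1 : ℝ) ≤ k := by exact_mod_cast hk0
  obtain ⟨X, -, hX⟩ := Finset.exists_max_image (Finset.univ : Finset I) M.d ⟨M.unit, Finset.mem_univ _⟩
  have hX' : ∀ i, M.d i ≤ M.d X := fun i => hX i (Finset.mem_univ _)
  set S : Finset I := Finset.univ.filter fun V => V ≠ M.unit ∧ M.N X (M.dual X) V ≠ 0 with hS
  have hex : ∀ V : I, ∃ Z, V ≠ M.unit → (M.s V Z).re ≤ 0 := by
    intro V
    by_cases hV : V = M.unit
    · exact ⟨M.unit, fun h => absurd hV h⟩
    · obtain ⟨Z, hZ⟩ := M.exists_nonpos hV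
      exact ⟨Z, fun _ => hZ⟩
  choose Z hZ using hex
  set m : ℕ := 4 * k ^ 4 with hm
  let g : I → I → ℝ := fun V U => (‖M.s (Z V) U‖ ^ 2 / M.d U ^ 2) ^ m
  let f : I → ℝ := fun U => ∏ V ∈ S, g V U
  obtain ⟨a, ha⟩ : ∃ a, M.IsChar f a :=
    M.isChar_prod S g (fun V _ => M.isChar_pow (M.isChar_sq (Z V)) m)
  have hg0 : ∀ V U, 0 ≤ g V U := fun V U => by positivity
  have hf0 : ∀ U, 0 ≤ f U := fun U => Finset.prod_nonneg fun V _ => hg0 V U
  have hgu : ∀ V, g V M.unit = (M.d (Z V) ^ 2) ^ m := by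
    intro V
    show (‖M.s (Z V) M.unit‖ ^ 2 / M.d M.unit ^ 2) ^ m = _
    rw [M.s_unit', M.d_unit, Complex.norm_real, Real.norm_of_nonneg (M.d_pos _).le, one_pow, div_one]
  have hgle : ∀ V U, g V U ≤ g V M.unit := by
    intro V U
    rw [hgu]
    refine pow_le_pow_left₀ (by positivity) ?_ m
    rw [div_le_iff₀ (pow_pos (M.d_pos U) 2), ← mul_pow]
    exact pow_le_pow_left₀ (norm_nonneg _) (M.norm_s_le _ _) 2
  have hgpos : ∀ V, 0 < g V M.unit := fun V => by
    rw [hgu]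
    have := M.d_pos (Z V)
    positivity
  have hfu : 0 < f M.unit := Finset.prod_pos fun V _ => hgpos V
  have hε : ∀ U, 1 < M.d U → f U ≤ 1 / (4 * (k : ℝ) ^ 2) * f M.unit := by
    intro U hU
    obtain ⟨V, hV, hVX, hVU⟩ := M.exists_common hX' hU
    have hVS : V ∈ S := Finset.mem_filter.2 ⟨Finset.mem_univ _, hV, hVX⟩
    have h1 := M.norm_sq_le hVU (hZ V hV)
    have hdU := M.d_pos U
    have hdUk := hk U
    have hgV : g V U ≤ 1 / (4 * (k : ℝ) ^ 2) * g V M.unit := by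
      have h2 : ‖M.s (Z V) U‖ ^ 2 / M.d U ^ 2 ≤ (1 - 1 / (k : ℝ) ^ 2) * M.d (Z V) ^ 2 := by
        rw [div_le_iff₀ (pow_pos hdU 2), M.s_symm]
        refine h1.trans ?_
        have h3 : M.d U ^ 2 - 1 ≤ (1 - 1 / (k : ℝ) ^ 2) * M.d U ^ 2 := by
          have h4 : 1 / (k : ℝ) ^ 2 * M.d U ^ 2 ≤ 1 := by
            rw [one_div, inv_mul_le_iff₀ (by positivity), mul_one]
            exact pow_le_pow_left₀ hdU.le hdUk 2
          linarith
        calc (M.d U ^ 2 - 1) * M.d (Z V) ^ 2 ≤ ((1 - 1 / (k : ℝ) ^ 2) * M.d U ^ 2) * M.d (Z V) ^ 2 :=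
              mul_le_mul_of_nonneg_right h3 (sq_nonneg _)
          _ = _ := by ring
      show (‖M.s (Z V) U‖ ^ 2 / M.d U ^ 2) ^ m ≤ _
      rw [hgu]
      refine (pow_le_pow_left₀ (by positivity) h2 m).trans ?_
      rw [mul_pow]
      exact mul_le_mul_of_nonneg_right (decay k hk0) (by positivity)
    show ∏ V ∈ S, g V U ≤ _ * ∏ V ∈ S, g V M.unit
    rw [← Finset.mul_prod_erase S (fun V => g V U) hVS, ← Finset.mul_prod_erase S (fun V => g V M.unit) hVS,
      ← mul_assoc]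
    exact mul_le_mul hgV (Finset.prod_le_prod (fun V _ => hg0 V U) (fun V _ => hgle V U))
      (Finset.prod_nonneg fun V _ => hg0 V U) (mul_nonneg (by positivity) (hgpos V).le)
  obtain ⟨R, hR1, hR2⟩ := M.exists_reps
  have hcard := M.card_le ha hf0 hk hk0 hε hfu R hR1
  -- the size of `S`
  have hSc : S.card ≤ k ^ 2 := by
    have h1 : (S.card : ℝ) ≤ ∑ V, (M.N X (M.dual X) V : ℝ) * M.d V := by
      calc (S.card : ℝ) = ∑ V ∈ S, (1 : ℝ) := by simp
        _ ≤ ∑ V ∈ S, (M.N X (M.dual X) V : ℝ) * M.d V := by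
            refine Finset.sum_le_sum fun V hV => ?_
            have h2 : (1 : ℝ) ≤ (M.N X (M.dual X) V : ℝ) := by
              exact_mod_cast Nat.one_le_iff_ne_zero.2 (Finset.mem_filter.1 hV).2.2
            nlinarith [M.one_le_d V]
        _ ≤ _ := Finset.sum_le_sum_of_subset_of_nonneg (Finset.subset_univ _)
            (fun V _ _ => mul_nonneg (Nat.cast_nonneg _) (M.d_pos V).le)
    rw [M.sumN_d, M.d_dual] at h1
    have h2 : M.d X * M.d X ≤ (k : ℝ) ^ 2 := by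
      rw [sq]
      exact mul_le_mul (hk X) (hk X) (M.d_pos X).le (Nat.cast_nonneg _)
    exact_mod_cast h1.trans h2
  -- the size of the support of `a`
  have hac : (Finset.univ.filter fun Y => a Y ≠ 0).card ≤ k ^ (8 * k ^ 6) := by
    have h1 : ((Finset.univ.filter fun Y => a Y ≠ 0).card : ℝ) ≤ f M.unit := by
      rw [← M.isChar_total ha]
      calc ((Finset.univ.filter fun Y => a Y ≠ 0).card : ℝ) = ∑ Y ∈ Finset.univ.filter fun Y => a Y ≠ 0, (1 : ℝ) := by
            simp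
        _ ≤ ∑ Y ∈ Finset.univ.filter fun Y => a Y ≠ 0, (a Y : ℝ) * M.d Y := by
            refine Finset.sum_le_sum fun Y hY => ?_
            have h2 : (1 : ℝ) ≤ (a Y : ℝ) := by
              exact_mod_cast Nat.one_le_iff_ne_zero.2 (Finset.mem_filter.1 hY).2
            nlinarith [M.one_le_d Y]
        _ ≤ _ := Finset.sum_le_sum_of_subset_of_nonneg (Finset.subset_univ _)
            (fun Y _ _ => mul_nonneg (Nat.cast_nonneg _) (M.d_pos Y).le)
    have h2 : f M.unit ≤ ((k : ℝ) ^ 2) ^ (m * k ^ 2) := by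
      calc f M.unit ≤ ∏ V ∈ S, ((k : ℝ) ^ 2) ^ m := by
            refine Finset.prod_le_prod (fun V _ => (hgpos V).le) (fun V _ => ?_)
            rw [hgu]
            exact pow_le_pow_left₀ (by positivity) (pow_le_pow_left₀ (M.d_pos _).le (hk _) 2) m
        _ = ((k : ℝ) ^ 2) ^ (m * S.card) := by rw [Finset.prod_const, ← pow_mul]
        _ ≤ _ := pow_le_pow_right₀ (one_le_pow₀ hk1) (Nat.mul_le_mul_left m hSc)
    have h3 : ((k : ℝ) ^ 2) ^ (m * k ^ 2) = ((k ^ (8 * k ^ 6) : ℕ) : ℝ) := by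
      rw [← pow_mul]
      push_cast
      congr 1
      rw [hm]
      ring
    rw [h3] at h2
    exact_mod_cast h1.trans h2
  have hRc : R.card ≤ (8 * k ^ 2 + 1) ^ (2 * k ^ (8 * k ^ 6)) := by
    refine hcard.trans ?_
    rw [← pow_mul]
    exact Nat.pow_le_pow_right (Nat.succ_pos _) (Nat.mul_le_mul_left 2 hac)
  refine (M.gdim_le hk R hR2).trans ?_
  refine mul_le_mul_of_nonneg_right ?_ (Nat.cast_nonneg _)
  push_cast
  refine mul_le_mul_of_nonneg_left ?_ (by positivity)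
  exact_mod_cast hRc

end ModularDatum

end Pool.Agent.Helper46.WG
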