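import Pool.Agent.Helper46.WG.Bdd

/-!
# Integral modular data (MP_2b6189_al), part 1: definitions, fusion subsets and centralizers
-/

set_option autoImplicit false

open scoped BigOperators ComplexConjugate
open Finset

namespace Pool.Agent.Helper46.WG

/-- The `S`-matrix, the dimensions of the simple objects and the fusion coefficients of an integral modular fusion
category: `I` is the set of the simple objects, `d i > 0` the (integer) dimension of `i`, `s` the (unnormalised)
`S`-matrix, `N i j k` the multiplicity of `k` in `i ⊗ j`. -/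
structure IntegralModularDatum (I : Type) [Fintype I] [DecidableEq I] where
  unit : I
  dual : I → I
  d : I → ℕ
  s : I → I → ℂ
  N : I → I → I → ℕ
  d_pos : ∀ i, 0 < d i
  d_unit : d unit = 1
  s_unit : ∀ i, s unit i = (d i : ℂ)
  s_symm : ∀ i j, s i j = s j i
  s_dual : ∀ i j, s (dual i) j = conj (s i j)
  orth : ∀ i j, ∑ l, s i l * conj (s j l) = if i = j then ((∑ l, d l ^ 2 : ℕ) : ℂ) else 0
  verlinde : ∀ i j l, s i l * s j l = (d l : ℂ) * ∑ k, (N i j k : ℂ) * s k l

namespace IntegralModularDatum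

variable {I : Type} [Fintype I] [DecidableEq I] (M : IntegralModularDatum I)

/-- the underlying modular datum with real dimensions -/
def toMD : ModularDatum I where
  unit := M.unit
  dual := M.dual
  d i := (M.d i : ℝ)
  s := M.s
  N := M.N
  d_pos i := Nat.cast_pos.2 (M.d_pos i)
  d_unit := by rw [M.d_unit, Nat.cast_one]
  s_unit i := by rw [M.s_unit]; norm_cast
  s_symm := M.s_symm
  s_dual := M.s_dual
  orth i j := by
    rw [M.orth]
    push_cast
    rfl
  verlinde i j l := by
    rw [M.verlinde]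
    norm_cast

/-- the global dimension -/
def gdim : ℕ := ∑ l, M.d l ^ 2

/-- A fusion subset: the set of the simple objects of a fusion subcategory. -/
structure IsFusion (F : Finset I) : Prop where
  unit_mem : M.unit ∈ F
  dual_mem : ∀ i ∈ F, M.dual i ∈ F
  mul_mem : ∀ i ∈ F, ∀ j ∈ F, ∀ k, M.N i j k ≠ 0 → k ∈ F

/-- A set of simple objects is symmetric if any two of its elements centralize each other: `s i j = d i * d j`. -/
def IsSymmetric (F : Finset I) : Prop := ∀ i ∈ F, ∀ j ∈ F, M.s i j = (M.d i : ℂ) * M.d j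

/-- no fusion subset except `{1}` is symmetric -/
def NoSym : Prop := ∀ F, M.IsFusion F → M.IsSymmetric F → F = {M.unit}

/-- only the trivial fusion subsets -/
def Simple : Prop := ∀ F, M.IsFusion F → F = {M.unit} ∨ F = Finset.univ

/-- all simple objects have dimension one -/
def Pointed : Prop := ∀ i, M.d i = 1

theorem s_unit' (i : I) : M.s i M.unit = (M.d i : ℂ) := by
  rw [M.s_symm, M.s_unit]

theorem d_ne (i : I) : (M.d i : ℂ) ≠ 0 := by
  exact_mod_cast (M.d_pos i).ne'

theorem d_dual (i : I) : M.d (M.dual i) = M.d i := by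
  have h := M.toMD.d_dual i
  have h' : ((M.d (M.dual i) : ℕ) : ℝ) = ((M.d i : ℕ) : ℝ) := h
  exact_mod_cast h'

theorem gdim_pos : 0 < M.gdim := by
  unfold gdim
  exact Finset.sum_pos (fun i _ => pow_pos (M.d_pos i) 2) ⟨M.unit, Finset.mem_univ _⟩

theorem sumN (i j l : I) : ∑ k, (M.N i j k : ℂ) * M.s k l = M.s i l * M.s j l / M.d l := by
  have h := M.toMD.sumN i j l
  have h' : ∑ k, (M.N i j k : ℂ) * M.s k l = M.s i l * M.s j l / ((M.d l : ℝ) : ℂ) := h
  rw [h']
  norm_cast

theorem sumN_d (i j : I) : ∑ k, M.N i j k * M.d k = M.d i * M.d j := by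
  have h := M.toMD.sumN_d i j
  have h' : ∑ k, (M.N i j k : ℝ) * (M.d k : ℝ) = (M.d i : ℝ) * M.d j := h
  exact_mod_cast h'

theorem N_dual_unit (i j : I) : M.N i (M.dual j) M.unit = if i = j then 1 else 0 := M.toMD.N_dual_unit i j

theorem N_recip (i j k : I) : M.N i (M.dual j) k = M.N k j i := M.toMD.N_recip i j k

theorem norm_s_le (i l : I) : ‖M.s i l‖ ≤ (M.d i : ℝ) * M.d l := M.toMD.norm_s_le i l

theorem coeff (i j k : I) : (M.gdim : ℂ) * M.N i j k = ∑ l, M.s i l * M.s j l * conj (M.s k l) / M.d l := by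
  have h := M.toMD.coeff i j k
  have h' : (((∑ l, (M.d l : ℝ) ^ 2 : ℝ)) : ℂ) * (M.N i j k : ℂ) =
    ∑ l, M.s i l * M.s j l * conj (M.s k l) / ((M.d l : ℝ) : ℂ) := h
  unfold gdim
  push_cast at h' ⊢
  exact h'

/-- a complex number of modulus at most `r` with real part `r` -/
theorem eq_of_re {z : ℂ} {r : ℝ} (h : ‖z‖ ≤ r) (hr : r ≤ z.re) : z = (r : ℂ) := by
  have h1 : z.re ≤ ‖z‖ := Complex.re_le_norm z
  have h2 : z.re = r := le_antisymm (h1.trans h) hr
  have h3 : ‖z‖ = r := le_antisymm h (hr.trans h1)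
  have h4 : ‖z‖ ^ 2 = z.re ^ 2 + z.im ^ 2 := by
    rw [← Complex.normSq_eq_norm_sq, Complex.normSq_apply]
    ring
  have h5 : z.im = 0 := by
    rw [h3, h2] at h4
    nlinarith
  exact Complex.ext (by simpa using h2) (by simpa using h5)

theorem eq_of_re' {i l : I} (h : (M.d i : ℝ) * M.d l ≤ (M.s i l).re) : M.s i l = (M.d i : ℂ) * M.d l := by
  have := eq_of_re (M.norm_s_le i l) h
  rw [this]
  push_cast
  rfl

theorem re_le (i l : I) : (M.s i l).re ≤ (M.d i : ℝ) * M.d l := (Complex.re_le_norm _).trans (M.norm_s_le i l)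

/-- the equality case in a weighted sum -/
theorem eq_of_sum {a : I → ℕ} {l : I} (h : (∑ k, (a k : ℂ) * M.s k l).re = ∑ k, (a k : ℝ) * (M.d k * M.d l))
    {k : I} (hk : a k ≠ 0) : M.s k l = (M.d k : ℂ) * M.d l := by
  rw [Complex.re_sum] at h
  have h1 : ∀ k, ((a k : ℂ) * M.s k l).re = (a k : ℝ) * (M.s k l).re := by
    intro k
    rw [Complex.mul_re, Complex.natCast_re, Complex.natCast_im, zero_mul, sub_zero]
  simp_rw [h1] at h
  have h2 : ∀ k ∈ (Finset.univ : Finset I), (a k : ℝ) * (M.s k l).re ≤ (a k : ℝ) * (M.d k * M.d l) := fun k _ =>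
    mul_le_mul_of_nonneg_left (M.re_le k l) (Nat.cast_nonneg _)
  have h3 := (Finset.sum_eq_sum_iff_of_le h2).1 h k (Finset.mem_univ _)
  have h4 : (0 : ℝ) < a k := Nat.cast_pos.2 (Nat.pos_of_ne_zero hk)
  exact M.eq_of_re' (mul_left_cancel₀ h4.ne' h3).ge

/-- the centralizer -/
noncomputable def cent (F : Finset I) : Finset I := by
  classical
  exact Finset.univ.filter fun k => ∀ l ∈ F, M.s k l = (M.d k : ℂ) * M.d l

theorem mem_cent {F : Finset I} {k : I} : k ∈ M.cent F ↔ ∀ l ∈ F, M.s k l = (M.d k : ℂ) * M.d l := by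
  classical
  unfold cent
  simp

theorem cent_fusion (F : Finset I) : M.IsFusion (M.cent F) := by
  refine ⟨?_, ?_, ?_⟩
  · rw [mem_cent]
    intro l _
    rw [M.s_unit, M.d_unit, Nat.cast_one, one_mul]
  · intro i hi
    rw [mem_cent] at hi ⊢
    intro l hl
    rw [M.s_dual, hi l hl, M.d_dual, map_mul, Complex.conj_natCast, Complex.conj_natCast]
  · intro i hi j hj k hk
    rw [mem_cent] at hi hj ⊢
    intro l hl
    refine M.eq_of_sum (a := M.N i j) ?_ hk
    rw [M.sumN, hi l hl, hj l hl]
    have h1 : (M.d i : ℂ) * M.d l * (M.d j * M.d l) / M.d l = ((M.d i * M.d j * M.d l : ℕ) : ℂ) := by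
      have := M.d_ne l
      push_cast
      field_simp
    rw [h1, Complex.natCast_re]
    have h2 : ∑ k, (M.N i j k : ℝ) * (M.d k * M.d l) = ((∑ k, M.N i j k * M.d k : ℕ) : ℝ) * M.d l := by
      push_cast
      rw [Finset.sum_mul]
      exact Finset.sum_congr rfl fun k _ => by ring
    rw [h2, M.sumN_d]
    push_cast
    rfl

theorem sum_col {k : I} (hk : k ≠ M.unit) : ∑ l, (M.d l : ℂ) * M.s k l = 0 := by
  have h := M.orth k M.unit
  rw [if_neg hk] at h
  rw [← h]
  refine Finset.sum_congr rfl fun l _ => ?_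
  rw [M.s_unit, Complex.conj_natCast, mul_comm]

theorem cent_univ : M.cent Finset.univ = {M.unit} := by
  ext k
  rw [mem_cent, Finset.mem_singleton]
  constructor
  · intro h
    by_contra hk
    have h1 := M.sum_col hk
    have h2 : ∑ l, (M.d l : ℂ) * M.s k l = (M.d k : ℂ) * (M.gdim : ℂ) := by
      unfold gdim
      push_cast
      rw [Finset.mul_sum]
      refine Finset.sum_congr rfl fun l _ => ?_
      rw [h l (Finset.mem_univ _)]
      ring
    rw [h2] at h1
    rcases mul_eq_zero.1 h1 with h3 | h3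
    · exact M.d_ne k h3
    · have h4 := M.gdim_pos
      have h5 : M.gdim = 0 := by exact_mod_cast h3
      omega
  · rintro rfl l _
    rw [M.s_unit, M.d_unit, Nat.cast_one, one_mul]

theorem cent_anti {F F' : Finset I} (h : F ⊆ F') : M.cent F' ⊆ M.cent F := by
  intro k hk
  rw [mem_cent] at hk ⊢
  exact fun l hl => hk l (h hl)

theorem sub_cent_cent (F : Finset I) : F ⊆ M.cent (M.cent F) := by
  intro k hk
  rw [mem_cent]
  intro l hl
  rw [mem_cent] at hl
  rw [M.s_symm, hl k hk]
  ring

/-- the sum over a fusion subset -/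
theorem sum_fusion {F : Finset I} (hF : M.IsFusion F) (k : I) :
    ∑ l ∈ F, (M.d l : ℂ) * M.s l k = if k ∈ M.cent F then ((∑ l ∈ F, M.d l ^ 2 : ℕ) : ℂ) * M.d k else 0 := by
  split_ifs with hk
  · rw [mem_cent] at hk
    push_cast
    rw [Finset.sum_mul]
    refine Finset.sum_congr rfl fun l hl => ?_
    rw [M.s_symm, hk l hl]
    ring
  · by_contra hT
    apply hk
    rw [mem_cent]
    intro l hl
    set T := ∑ l ∈ F, (M.d l : ℂ) * M.s l k with hTdef
    -- `s l k * T = d l * d k * T`
    have h1 : M.s l k * T = (M.d l : ℂ) * M.d k * T := by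
      have e1 : M.s l k * T = (M.d k : ℂ) * ∑ j ∈ F, (M.d j : ℂ) * ∑ m, (M.N l j m : ℂ) * M.s m k := by
        rw [hTdef, Finset.mul_sum, Finset.mul_sum]
        refine Finset.sum_congr rfl fun j _ => ?_
        have := M.verlinde l j k
        calc M.s l k * ((M.d j : ℂ) * M.s j k) = (M.d j : ℂ) * (M.s l k * M.s j k) := by ring
          _ = _ := by rw [this]; ring
      have e2 : ∀ j ∈ F, ∑ m, (M.N l j m : ℂ) * M.s m k = ∑ m ∈ F, (M.N l j m : ℂ) * M.s m k := by
        intro j hj
        symm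
        refine Finset.sum_subset (Finset.subset_univ _) fun m _ hm => ?_
        have : M.N l j m = 0 := by
          by_contra hne
          exact hm (hF.mul_mem l hl j hj m hne)
        rw [this, Nat.cast_zero, zero_mul]
      rw [e1, Finset.sum_congr rfl (fun j hj => by rw [e2 j hj])]
      have e3 : ∑ j ∈ F, (M.d j : ℂ) * ∑ m ∈ F, (M.N l j m : ℂ) * M.s m k =
          ∑ m ∈ F, (∑ j ∈ F, (M.d j : ℂ) * (M.N l j m : ℂ)) * M.s m k := by
        simp_rw [Finset.mul_sum, Finset.sum_mul]
        rw [Finset.sum_comm]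
        exact Finset.sum_congr rfl fun m _ => Finset.sum_congr rfl fun j _ => by ring
      have e4 : ∀ m ∈ F, ∑ j ∈ F, (M.d j : ℂ) * (M.N l j m : ℂ) = (M.d l : ℂ) * M.d m := by
        intro m hm
        have e5 : ∀ j, M.N l j m = M.N m (M.dual l) j := by
          intro j
          rw [M.N_recip m l j]
          -- commutativity
          have hg : (M.gdim : ℂ) ≠ 0 := by exact_mod_cast M.gdim_pos.ne'
          have h3 : (M.gdim : ℂ) * M.N l j m = (M.gdim : ℂ) * M.N j l m := by
            rw [M.coeff, M.coeff]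
            exact Finset.sum_congr rfl fun x _ => by ring
          exact_mod_cast mul_left_cancel₀ hg h3
        have e6 : ∑ j ∈ F, (M.d j : ℂ) * (M.N l j m : ℂ) = ((∑ j, M.N m (M.dual l) j * M.d j : ℕ) : ℂ) := by
          push_cast
          rw [← Finset.sum_subset (Finset.subset_univ F)]
          · exact Finset.sum_congr rfl fun j _ => by rw [e5 j]; ring
          · intro j _ hj
            have : M.N m (M.dual l) j = 0 := by
              by_contra hne
              exact hj (hF.mul_mem m hm _ (hF.dual_mem l hl) j hne)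
            rw [this, Nat.cast_zero, zero_mul]
        rw [e6, M.sumN_d, M.d_dual]
        push_cast
        ring
      rw [e3, Finset.sum_congr rfl (fun m hm => by rw [e4 m hm]), hTdef, Finset.mul_sum, Finset.mul_sum]
      exact Finset.sum_congr rfl fun m _ => by ring
    have h2 := mul_right_cancel₀ hT h1
    rw [M.s_symm, h2]
    ring

/-- `dim F * dim F' = dim M` -/
theorem dim_cent {F : Finset I} (hF : M.IsFusion F) :
    (∑ l ∈ F, M.d l ^ 2) * (∑ l ∈ M.cent F, M.d l ^ 2) = M.gdim := by
  have h1 : ∑ k, (M.d k : ℂ) * ∑ l ∈ F, (M.d l : ℂ) * M.s l k = (M.gdim : ℂ) := by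
    simp_rw [Finset.mul_sum]
    rw [Finset.sum_comm]
    have e1 : ∀ l ∈ F, ∑ k, (M.d k : ℂ) * ((M.d l : ℂ) * M.s l k) = if l = M.unit then (M.gdim : ℂ) else 0 := by
      intro l _
      split_ifs with hl
      · subst hl
        unfold gdim
        push_cast
        refine Finset.sum_congr rfl fun k _ => ?_
        rw [M.s_unit, M.d_unit]
        push_cast
        ring
      · have := M.sum_col hl
        calc ∑ k, (M.d k : ℂ) * ((M.d l : ℂ) * M.s l k) = (M.d l : ℂ) * ∑ k, (M.d k : ℂ) * M.s l k := by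
              rw [Finset.mul_sum]
              exact Finset.sum_congr rfl fun k _ => by ring
          _ = 0 := by rw [this, mul_zero]
    rw [Finset.sum_congr rfl e1, Finset.sum_ite_eq' F M.unit, if_pos hF.unit_mem]
  have h2 : ∑ k, (M.d k : ℂ) * ∑ l ∈ F, (M.d l : ℂ) * M.s l k =
      (((∑ l ∈ F, M.d l ^ 2) * (∑ l ∈ M.cent F, M.d l ^ 2) : ℕ) : ℂ) := by
    simp_rw [M.sum_fusion hF]
    simp_rw [mul_ite, mul_zero]
    rw [Finset.sum_ite_mem, Finset.univ_inter]
    push_cast
    rw [Finset.mul_sum]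
    exact Finset.sum_congr rfl fun k _ => by ring
  rw [h1] at h2
  exact_mod_cast h2.symm

end IntegralModularDatum

end Pool.Agent.Helper46.WG
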