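import Pool.Agent.Helper46.WG.L10

/-!
# Integral modular data (MP_2b6189_al), part 11: twists, symmetric subsets and fermions
-/

set_option autoImplicit false

open scoped BigOperators ComplexConjugate
open Finset

namespace Pool.Agent.Helper46.WG

/-- equality case of the triangle inequality -/
theorem eq_of_weighted {I : Type} [Fintype I] (a : I → ℕ) (d : I → ℕ) (hd : ∀ k, 0 < d k) (θ : I → ℂ) (hθ : ∀ k, ‖θ k‖ = 1) (c : ℂ)
    (hc : ‖c‖ = 1) (h : c * ∑ k, (a k : ℂ) * d k = ∑ k, (a k : ℂ) * θ k * d k) {k : I} (hk : a k ≠ 0) : θ k = c := by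
  have hcc : conj c * c = 1 := by
    rw [mul_comm, Complex.mul_conj, Complex.normSq_eq_norm_sq, hc]
    simp
  have h1 : (∑ k, (a k : ℂ) * d k) = ∑ k, ((a k * d k : ℕ) : ℂ) * (conj c * θ k) := by
    have h2 := congrArg (fun z => conj c * z) h
    simp only [← mul_assoc, hcc, one_mul] at h2
    rw [h2, Finset.mul_sum]
    refine Finset.sum_congr rfl fun k _ => ?_
    push_cast
    ring
  have h3 := congrArg Complex.re h1
  rw [Complex.re_sum, Complex.re_sum] at h3
  have h4 : ∀ k, ((a k : ℂ) * d k).re = ((a k * d k : ℕ) : ℝ) := by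
    intro k
    have : (a k : ℂ) * d k = ((a k * d k : ℕ) : ℂ) := by push_cast; rfl
    rw [this, Complex.natCast_re]
  have h5 : ∀ k, (((a k * d k : ℕ) : ℂ) * (conj c * θ k)).re = ((a k * d k : ℕ) : ℝ) * (conj c * θ k).re := by
    intro k
    rw [Complex.mul_re, Complex.natCast_re, Complex.natCast_im, zero_mul, sub_zero]
  simp_rw [h4, h5] at h3
  have hn : ∀ k, ‖conj c * θ k‖ = 1 := by
    intro k
    rw [norm_mul, Complex.norm_conj, hc, hθ, one_mul]
  have h6 : ∀ k ∈ (Finset.univ : Finset I), ((a k * d k : ℕ) : ℝ) * (conj c * θ k).re ≤ ((a k * d k : ℕ) : ℝ) := by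
    intro k _
    have : (conj c * θ k).re ≤ 1 := (Complex.re_le_norm _).trans (hn k).le
    exact mul_le_of_le_one_right (Nat.cast_nonneg _) this
  have h7 := (Finset.sum_eq_sum_iff_of_le h6).1 h3.symm k (Finset.mem_univ k)
  have h8 : (0 : ℝ) < ((a k * d k : ℕ) : ℝ) := Nat.cast_pos.2 (Nat.mul_pos (Nat.pos_of_ne_zero hk) (hd k))
  have h9 : (conj c * θ k).re = 1 := by
    have h10 : ((a k * d k : ℕ) : ℝ) * (conj c * θ k).re = ((a k * d k : ℕ) : ℝ) * 1 := by rw [h7, mul_one]
    exact mul_left_cancel₀ h8.ne' h10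
  have h10 := IntegralModularDatum.eq_of_re (z := conj c * θ k) (r := 1) (hn k).le h9.ge
  have h11 := congrArg (fun z => c * z) h10
  simp only [← mul_assoc] at h11
  rw [mul_comm c, hcc, one_mul] at h11
  simpa using h11

namespace IntegralModularDatum

variable {I : Type} [Fintype I] [DecidableEq I] (M : IntegralModularDatum I)

/-- The twists (`T`-matrix) of an integral modular fusion category. -/
structure IsTwist (θ : I → ℂ) : Prop where
  norm_one : ∀ i, ‖θ i‖ = 1
  unit : θ M.unit = 1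
  dual : ∀ i, θ (M.dual i) = θ i
  balancing : ∀ i j, θ i * θ j * M.s i j = ∑ k, (M.N i j k : ℂ) * θ k * M.d k

variable {M} {θ : I → ℂ} (hθ : M.IsTwist θ)
include hθ

/-- the twist is multiplicative on centralizing pairs -/
theorem twist_mul {i j k : I} (hs : M.s i j = (M.d i : ℂ) * M.d j) (hk : M.N i j k ≠ 0) : θ k = θ i * θ j := by
  refine eq_of_weighted (M.N i j) M.d M.d_pos θ hθ.norm_one (θ i * θ j) ?_ ?_ hk
  · rw [norm_mul, hθ.norm_one, hθ.norm_one, one_mul]
  · rw [← hθ.balancing, hs]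
    congr 1
    have h1 := M.sumN_d i j
    have h2 : ∑ k, (M.N i j k : ℂ) * M.d k = ((∑ k, M.N i j k * M.d k : ℕ) : ℂ) := by push_cast; rfl
    rw [h2, h1]
    push_cast
    rfl

theorem twist_sq {i : I} (hs : M.s i (M.dual i) = (M.d i : ℂ) * M.d (M.dual i)) : θ i * θ i = 1 := by
  have h := twist_mul hθ hs (k := M.unit) (by rw [M.N_dual_unit, if_pos rfl]; exact one_ne_zero)
  rw [hθ.unit, hθ.dual] at h
  exact h.symm

/-- Either a symmetric fusion subset contains a nontrivial Tannakian one, or it contains a fermion. -/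
theorem tannakian_or_fermion {F : Finset I} (hF : M.IsFusion F) (hS : M.IsSymmetric F) (h1 : F ≠ {M.unit}) :
    (∃ F : Finset I, M.IsFusion F ∧ M.IsSymmetric F ∧ (∀ i ∈ F, θ i = 1) ∧ F ≠ {M.unit}) ∨
      ∃ δ, M.d δ = 1 ∧ δ ≠ M.unit ∧ M.dual δ = δ ∧ M.s δ δ = 1 ∧ θ δ = -1 := by
  classical
  let F0 : Finset I := F.filter fun i => θ i = 1
  have hF0 : M.IsFusion F0 := by
    refine ⟨Finset.mem_filter.2 ⟨hF.unit_mem, hθ.unit⟩, ?_, ?_⟩
    · intro i hi
      obtain ⟨ha, hb⟩ := Finset.mem_filter.1 hi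
      exact Finset.mem_filter.2 ⟨hF.dual_mem i ha, by rw [hθ.dual, hb]⟩
    · intro i hi j hj k hk
      obtain ⟨ha, hb⟩ := Finset.mem_filter.1 hi
      obtain ⟨ha', hb'⟩ := Finset.mem_filter.1 hj
      exact Finset.mem_filter.2 ⟨hF.mul_mem i ha j ha' k hk, by
        rw [twist_mul hθ (hS i ha j ha') hk, hb, hb', one_mul]⟩
  by_cases hF01 : F0 = {M.unit}
  · right
    have hex : ∃ δ ∈ F, δ ≠ M.unit := by
      by_contra hcon
      push Not at hcon
      apply h1
      ext i
      rw [Finset.mem_singleton]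
      exact ⟨fun hi => hcon i hi, fun hi => by rw [hi]; exact hF.unit_mem⟩
    obtain ⟨δ, hδ, hδ1⟩ := hex
    have hδ' := hF.dual_mem δ hδ
    have hsq := twist_sq hθ (hS δ hδ _ hδ')
    have hne : θ δ ≠ 1 := by
      intro h
      have : δ ∈ F0 := Finset.mem_filter.2 ⟨hδ, h⟩
      rw [hF01, Finset.mem_singleton] at this
      exact hδ1 this
    have hm1 : θ δ = -1 := by
      have h2 : (θ δ - 1) * (θ δ + 1) = 0 := by linear_combination hsq
      rcases mul_eq_zero.1 h2 with h3 | h3
      · exact absurd (sub_eq_zero.1 h3) hne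
      · exact eq_neg_of_add_eq_zero_left h3
    have hz : ∀ k, M.N δ (M.dual δ) k ≠ 0 → k = M.unit := by
      intro k hk
      have h2 : k ∈ F0 := Finset.mem_filter.2 ⟨hF.mul_mem _ hδ _ hδ' k hk, by
        rw [twist_mul hθ (hS δ hδ _ hδ') hk, hθ.dual, hsq]⟩
      rw [hF01, Finset.mem_singleton] at h2
      exact h2
    have hd : M.d δ = 1 := by
      have h2 := M.sumN_d δ (M.dual δ)
      rw [M.d_dual, Finset.sum_eq_single M.unit, M.N_dual_unit, if_pos rfl, M.d_unit] at h2
      · exact Nat.eq_one_of_mul_eq_one_left h2.symm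
      · intro k _ hk
        have : M.N δ (M.dual δ) k = 0 := by
          by_contra hne
          exact hk (hz k hne)
        rw [this, zero_mul]
      · intro h
        exact absurd (Finset.mem_univ _) h
    have hdual : M.dual δ = δ := by
      have h2 := M.sumN_d δ δ
      have h3 : ∃ k, M.N δ δ k ≠ 0 := by
        by_contra hcon
        push Not at hcon
        have : ∑ k, M.N δ δ k * M.d k = 0 := Finset.sum_eq_zero fun k _ => by rw [hcon k, zero_mul]
        rw [this, hd] at h2
        omega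
      obtain ⟨k, hk⟩ := h3
      have h4 : k ∈ F0 := Finset.mem_filter.2 ⟨hF.mul_mem _ hδ _ hδ k hk, by
        rw [twist_mul hθ (hS δ hδ _ hδ) hk, hsq]⟩
      rw [hF01, Finset.mem_singleton] at h4
      rw [h4] at hk
      have h5 := M.N_dual_unit δ (M.dual δ)
      rw [dual_dual M.isReal_s] at h5
      split_ifs at h5 with h6
      · exact h6.symm
      · exact absurd h5 hk
    refine ⟨δ, hd, hδ1, hdual, ?_, hm1⟩
    rw [hS δ hδ δ hδ, hd]
    simp
  · left
    refine ⟨F0, hF0, ?_, ?_, hF01⟩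
    · intro i hi j hj
      exact hS i (Finset.mem_filter.1 hi).1 j (Finset.mem_filter.1 hj).1
    · intro i hi
      exact (Finset.mem_filter.1 hi).2

end IntegralModularDatum

end Pool.Agent.Helper46.WG
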