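import Pool.Agent.Helper46.WG.L11

/-!
# Integral modular data (MP_2b6189_al), part 12: the fermionic quotient
-/

set_option autoImplicit false

open scoped BigOperators ComplexConjugate
open Finset

namespace Pool.Agent.Helper46.WG

namespace IntegralModularDatum

variable {I : Type} [Fintype I] [DecidableEq I] {M : IntegralModularDatum I}

/-- tensoring with an object of dimension one -/
theorem exists_tens {δ : I} (hd : M.d δ = 1) (i : I) : ∃ j, M.d j = M.d i ∧ (∀ k, M.N δ i k = if k = j then 1 else 0) ∧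
    ∀ l, M.s j l = M.s i l * M.s δ l / M.d l := by
  classical
  have h1 : ∑ V, M.N δ (M.dual δ) V * M.N i (M.dual i) V = ∑ Z, M.N δ i Z ^ 2 := M.toMD.sum_common δ i
  have h2 := M.sumN_d δ (M.dual δ)
  rw [M.d_dual, hd, mul_one] at h2
  have h3 : ∀ V, V ≠ M.unit → M.N δ (M.dual δ) V = 0 := by
    intro V hV
    rw [← Finset.add_sum_erase _ _ (Finset.mem_univ M.unit), M.N_dual_unit, if_pos rfl, M.d_unit] at h2
    have h4 : M.N δ (M.dual δ) V * M.d V ≤ ∑ x ∈ Finset.univ.erase M.unit, M.N δ (M.dual δ) x * M.d x :=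
      Finset.single_le_sum (f := fun x => M.N δ (M.dual δ) x * M.d x) (fun _ _ => Nat.zero_le _)
        (Finset.mem_erase.2 ⟨hV, Finset.mem_univ _⟩)
    have h5 : M.N δ (M.dual δ) V * M.d V = 0 := by omega
    rcases Nat.mul_eq_zero.1 h5 with h6 | h6
    · exact h6
    · exact absurd h6 (M.d_pos V).ne'
  rw [Finset.sum_eq_single M.unit (fun V _ hV => by rw [h3 V hV, zero_mul]) (fun h => absurd (Finset.mem_univ _) h),
    M.N_dual_unit, M.N_dual_unit, if_pos rfl, if_pos rfl, one_mul] at h1
  -- a unique object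
  have hex : ∃ j, M.N δ i j ≠ 0 := by
    by_contra hcon
    push Not at hcon
    have : ∑ Z, M.N δ i Z ^ 2 = 0 := Finset.sum_eq_zero fun Z _ => by rw [hcon Z]; rfl
    omega
  obtain ⟨j, hj⟩ := hex
  have h4 : ∀ k, k ≠ j → M.N δ i k = 0 := by
    intro k hk
    by_contra hne
    rw [← Finset.add_sum_erase _ _ (Finset.mem_univ j)] at h1
    have h5 : M.N δ i k ^ 2 ≤ ∑ x ∈ Finset.univ.erase j, M.N δ i x ^ 2 :=
      Finset.single_le_sum (f := fun x => M.N δ i x ^ 2) (fun _ _ => Nat.zero_le _)
        (Finset.mem_erase.2 ⟨hk, Finset.mem_univ _⟩)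
    have h6 : 0 < M.N δ i k ^ 2 := pow_pos (Nat.pos_of_ne_zero hne) 2
    have h7 : 0 < M.N δ i j ^ 2 := pow_pos (Nat.pos_of_ne_zero hj) 2
    omega
  have h5 : M.N δ i j = 1 := by
    rw [Finset.sum_eq_single j (fun k _ hk => by rw [h4 k hk]; rfl) (fun h => absurd (Finset.mem_univ _) h)] at h1
    exact (Nat.pow_eq_one.1 h1.symm).resolve_right two_ne_zero
  have hN : ∀ k, M.N δ i k = if k = j then 1 else 0 := by
    intro k
    split_ifs with hk
    · rw [hk, h5]
    · exact h4 k hk
  refine ⟨j, ?_, hN, fun l => ?_⟩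
  · have h6 := M.sumN_d δ i
    simp_rw [hN] at h6
    simpa [hd] using h6
  · have h6 := M.sumN δ i l
    simp_rw [hN] at h6
    have h7 : ∑ k, ((if k = j then 1 else 0 : ℕ) : ℂ) * M.s k l = M.s j l := by simp
    rw [h7] at h6
    rw [h6]
    ring

/-- the data of a fermion -/
structure IsFermion (M : IntegralModularDatum I) (θ : I → ℂ) (δ : I) : Prop where
  tw : M.IsTwist θ
  d1 : M.d δ = 1
  ne : δ ≠ M.unit
  dual : M.dual δ = δ
  s1 : M.s δ δ = 1
  th : θ δ = -1

section
variable {θ : I → ℂ} {δ : I} (h : M.IsFermion θ δ)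

/-- tensoring with the fermion -/
noncomputable def tau (i : I) : I := Classical.choose (exists_tens h.d1 i)

theorem d_tau (i : I) : M.d (tau h i) = M.d i := (Classical.choose_spec (exists_tens h.d1 i)).1

theorem N_tau (i k : I) : M.N δ i k = if k = tau h i then 1 else 0 := (Classical.choose_spec (exists_tens h.d1 i)).2.1 k

theorem s_tau (i l : I) : M.s (tau h i) l = M.s i l * M.s δ l / M.d l := (Classical.choose_spec (exists_tens h.d1 i)).2.2 l

include h

theorem sδ_sq (l : I) : M.s δ l * M.s δ l = (M.d l : ℂ) * M.d l := by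
  have h1 := M.verlinde δ (M.dual δ) l
  rw [h.dual] at h1
  rw [h1]
  have h2 : ∀ k, M.N δ δ k = if k = M.unit then 1 else 0 := by
    intro k
    have h3 := M.sumN_d δ δ
    rw [h.d1, mul_one, ← Finset.add_sum_erase _ _ (Finset.mem_univ M.unit), M.d_unit, mul_one] at h3
    have h4 := M.N_dual_unit δ δ
    rw [h.dual, if_pos rfl] at h4
    split_ifs with hk
    · rw [hk, h4]
    · have h5 : M.N δ δ k * M.d k ≤ ∑ x ∈ Finset.univ.erase M.unit, M.N δ δ x * M.d x :=
        Finset.single_le_sum (f := fun x => M.N δ δ x * M.d x) (fun _ _ => Nat.zero_le _)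
          (Finset.mem_erase.2 ⟨hk, Finset.mem_univ _⟩)
      have h6 : M.N δ δ k * M.d k = 0 := by omega
      rcases Nat.mul_eq_zero.1 h6 with h7 | h7
      · exact h7
      · exact absurd h7 (M.d_pos k).ne'
  congr 1
  simp_rw [h2]
  simp [M.s_unit]

theorem tau_tau (i : I) : tau h (tau h i) = i := by
  refine row_inj M.isReal_s (by rw [d_tau, d_tau]) fun l => ?_
  rw [s_tau, s_tau]
  have h1 := sδ_sq h l
  have h2 := M.d_ne l
  field_simp
  linear_combination M.s i l * h1

/-- the centralizer of the fermion -/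
theorem mem_B {i : I} : i ∈ M.cent {M.unit, δ} ↔ M.s i δ = (M.d i : ℂ) := by
  rw [mem_cent]
  constructor
  · intro h1
    have h2 := h1 δ (by simp)
    rw [h2, h.d1]
    simp
  · intro h1 l hl
    rw [Finset.mem_insert, Finset.mem_singleton] at hl
    rcases hl with rfl | rfl
    · rw [M.s_unit', M.d_unit]
      simp
    · rw [h1, h.d1]
      simp

theorem tau_mem_B {i : I} (hi : i ∈ M.cent {M.unit, δ}) : tau h i ∈ M.cent {M.unit, δ} := by
  rw [mem_B h] at hi ⊢
  rw [s_tau, hi, h.s1, h.d1, d_tau]
  simp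

theorem s_tau_B {i l : I} (hl : l ∈ M.cent {M.unit, δ}) : M.s (tau h i) l = M.s i l := by
  rw [mem_B h] at hl
  rw [s_tau, M.s_symm δ l, hl, mul_div_assoc, div_self (M.d_ne l), mul_one]

theorem th_tau {i : I} (hi : i ∈ M.cent {M.unit, δ}) : θ (tau h i) = -θ i := by
  rw [mem_B h] at hi
  have h1 := h.tw.balancing δ i
  rw [M.s_symm, hi, h.th] at h1
  simp_rw [N_tau h] at h1
  have h2 : ∑ k, ((if k = tau h i then 1 else 0 : ℕ) : ℂ) * θ k * M.d k = θ (tau h i) * M.d (tau h i) := by simp
  rw [h2, d_tau] at h1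
  have h3 := mul_right_cancel₀ (M.d_ne i) h1
  rw [← h3]
  ring

theorem dim_B : 2 * ∑ l ∈ M.cent {M.unit, δ}, M.d l ^ 2 = M.gdim := by
  have hF : M.IsFusion {M.unit, δ} := by
    refine ⟨by simp, ?_, ?_⟩
    · intro i hi
      rw [Finset.mem_insert, Finset.mem_singleton] at hi ⊢
      rcases hi with rfl | rfl
      · left
        exact dual_unit M.isReal_s
      · right
        exact h.dual
    · intro i hi j hj k hk
      have h1 := M.sumN_d i j
      have hsymm : ∀ x ∈ ({M.unit, δ} : Finset I), ∀ y ∈ ({M.unit, δ} : Finset I), M.s x y = 1 ∧ M.d x = 1 := by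
        intro x hx y hy
        rw [Finset.mem_insert, Finset.mem_singleton] at hx hy
        rcases hx with rfl | rfl <;> rcases hy with rfl | rfl
        · exact ⟨by rw [M.s_unit, M.d_unit]; simp, M.d_unit⟩
        · exact ⟨by rw [M.s_unit, h.d1]; simp, M.d_unit⟩
        · exact ⟨by rw [M.s_unit', h.d1]; simp, h.d1⟩
        · exact ⟨h.s1, h.d1⟩
      rw [Finset.mem_insert, Finset.mem_singleton] at hi hj ⊢
      rcases hi with rfl | rfl
      · -- `1 ⊗ j`
        have h2 : M.N M.unit j k ≠ 0 := hk
        have h3 := M.N_recip k j M.unit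
        have h4 := M.N_dual_unit k j
        rw [h3] at h4
        split_ifs at h4 with h5
        · rw [h5]
          exact hj
        · exact absurd h4 h2
      · rcases hj with rfl | rfl
        · have h3 := M.N_comm i M.unit k
          rw [h3] at hk
          have h4 := M.N_recip k i M.unit
          have h5 := M.N_dual_unit k i
          rw [h4] at h5
          split_ifs at h5 with h6
          · exact Or.inr h6
          · exact absurd h5 hk
        · left
          have h2 := M.sumN_d j j
          rw [h.d1, mul_one, ← Finset.add_sum_erase _ _ (Finset.mem_univ M.unit), M.d_unit, mul_one] at h2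
          have h4 := M.N_dual_unit j j
          rw [h.dual, if_pos rfl] at h4
          by_contra hne
          have h5 : M.N j j k * M.d k ≤ ∑ x ∈ Finset.univ.erase M.unit, M.N j j x * M.d x :=
            Finset.single_le_sum (f := fun x => M.N j j x * M.d x) (fun _ _ => Nat.zero_le _)
              (Finset.mem_erase.2 ⟨hne, Finset.mem_univ _⟩)
          have h6 : 0 < M.N j j k * M.d k := Nat.mul_pos (Nat.pos_of_ne_zero hk) (M.d_pos k)
          omega
  have h1 := M.dim_cent hF
  rw [Finset.sum_insert (by rw [Finset.mem_singleton]; exact h.ne.symm), Finset.sum_singleton, M.d_unit, h.d1] at h1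
  exact h1

end

end IntegralModularDatum

end Pool.Agent.Helper46.WG
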