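import Pool.Agent.Helper46.WG.L12

/-!
# Integral modular data (MP_2b6189_al), part 13: the fermionic quotient is a modular datum; Tannakian subsets
-/

set_option autoImplicit false

open scoped BigOperators ComplexConjugate
open Finset

namespace Pool.Agent.Helper46.WG

/-- the half plane -/
def Upper (z : ℂ) : Prop := 0 < z.im ∨ (z.im = 0 ∧ 0 < z.re)

theorem upper_one : Upper 1 := Or.inr ⟨by simp, by simp⟩

theorem not_upper_neg_one : ¬ Upper (-1) := by
  rintro (h | ⟨_, h⟩)
  · simp at h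
  · simp at h
    linarith

theorem upper_neg {z : ℂ} (hz : ‖z‖ = 1) : Upper (-z) ↔ ¬ Upper z := by
  have h0 : z ≠ 0 := by
    intro h
    rw [h] at hz
    simp at hz
  unfold Upper
  rw [Complex.neg_im, Complex.neg_re]
  constructor
  · rintro (h | ⟨h1, h2⟩) (h' | ⟨h3, h4⟩)
    · linarith
    · rw [h3] at h
      simp at h
    · linarith
    · linarith
  · intro h
    push Not at h
    obtain ⟨h1, h2⟩ := h
    rcases h1.lt_or_eq with h3 | h3
    · left
      linarith
    · right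
      refine ⟨by rw [h3]; simp, ?_⟩
      have h4 := h2 h3
      rcases h4.lt_or_eq with h5 | h5
      · linarith
      · exact absurd (Complex.ext h5 h3) h0

namespace IntegralModularDatum

variable {I : Type} [Fintype I] [DecidableEq I] {M : IntegralModularDatum I} {θ : I → ℂ} {δ : I}

/-- a transversal of the action of the fermion on its centralizer -/
noncomputable def RR (_ : M.IsFermion θ δ) : Finset I := by
  classical
  exact (M.cent {M.unit, δ}).filter fun i => Upper (θ i)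

section
variable (h : M.IsFermion θ δ)
include h

theorem mem_RR {i : I} : i ∈ RR h ↔ i ∈ M.cent {M.unit, δ} ∧ Upper (θ i) := by
  classical
  unfold RR
  rw [Finset.mem_filter]

theorem tau_RR {i : I} (hi : i ∈ M.cent {M.unit, δ}) : tau h i ∈ RR h ↔ i ∉ RR h := by
  rw [mem_RR, mem_RR, th_tau h hi, upper_neg (h.tw.norm_one i)]
  constructor
  · rintro ⟨_, h2⟩ ⟨_, h3⟩
    exact h2 h3
  · intro h2
    exact ⟨tau_mem_B h hi, fun h3 => h2 ⟨hi, h3⟩⟩

theorem sum_B {α : Type} [AddCommMonoid α] (f : I → α) :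
    ∑ k ∈ M.cent {M.unit, δ}, f k = ∑ k ∈ RR h, (f k + f (tau h k)) := by
  classical
  rw [Finset.sum_add_distrib]
  have hsub : RR h ⊆ M.cent {M.unit, δ} := fun i hi => ((mem_RR h).1 hi).1
  rw [← Finset.sum_sdiff hsub, add_comm]
  congr 1
  refine Finset.sum_bij' (fun k _ => tau h k) (fun k _ => tau h k) ?_ ?_ ?_ ?_ ?_
  · intro k hk
    obtain ⟨h1, h2⟩ := Finset.mem_sdiff.1 hk
    exact (tau_RR h h1).2 h2
  · intro k hk
    have h1 := hsub hk
    refine Finset.mem_sdiff.2 ⟨tau_mem_B h h1, fun h2 => (tau_RR h h1).1 h2 hk⟩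
  · intro k _
    exact tau_tau h k
  · intro k _
    exact tau_tau h k
  · intro k _
    rw [tau_tau]

theorem dim_RR : 4 * ∑ l ∈ RR h, M.d l ^ 2 = M.gdim := by
  rw [← dim_B h, sum_B h]
  simp_rw [d_tau, ← two_mul]
  rw [← Finset.mul_sum]
  ring

theorem cent_B {k : I} : k ∈ M.cent (M.cent {M.unit, δ}) ↔ k = M.unit ∨ k = δ := by
  classical
  have h1 := M.dim_cent (M.cent_fusion {M.unit, δ})
  have h2 := dim_B h
  have hpos : 0 < ∑ l ∈ M.cent {M.unit, δ}, M.d l ^ 2 :=
    Finset.sum_pos (fun i _ => pow_pos (M.d_pos i) 2) ⟨M.unit, (M.cent_fusion _).unit_mem⟩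
  have h3 : ∑ l ∈ M.cent (M.cent {M.unit, δ}), M.d l ^ 2 = 2 := by
    rw [← h2, mul_comm] at h1
    exact Nat.eq_of_mul_eq_mul_right hpos h1
  have hsub : ({M.unit, δ} : Finset I) ⊆ M.cent (M.cent {M.unit, δ}) := M.sub_cent_cent _
  constructor
  · intro hk
    by_contra hcon
    push Not at hcon
    have h4 : k ∉ ({M.unit, δ} : Finset I) := by
      rw [Finset.mem_insert, Finset.mem_singleton]
      push Not
      exact hcon
    have h5 : ∑ l ∈ insert k {M.unit, δ}, M.d l ^ 2 ≤ ∑ l ∈ M.cent (M.cent {M.unit, δ}), M.d l ^ 2 :=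
      Finset.sum_le_sum_of_subset (Finset.insert_subset hk hsub)
    rw [Finset.sum_insert h4, Finset.sum_insert (by rw [Finset.mem_singleton]; exact h.ne.symm), Finset.sum_singleton,
      M.d_unit, h.d1, h3] at h5
    have h6 : 0 < M.d k ^ 2 := pow_pos (M.d_pos k) 2
    omega
  · intro hk
    apply hsub
    rw [Finset.mem_insert, Finset.mem_singleton]
    exact hk

theorem orth_RR {i j : I} (hi : i ∈ RR h) (hj : j ∈ RR h) :
    ∑ l ∈ RR h, M.s i l * conj (M.s j l) = if i = j then ((∑ l ∈ RR h, M.d l ^ 2 : ℕ) : ℂ) else 0 := by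
  classical
  have hi' := ((mem_RR h).1 hi).1
  have hj' := ((mem_RR h).1 hj).1
  have h1 : ∑ l ∈ M.cent {M.unit, δ}, M.s i l * conj (M.s j l) = 2 * ∑ l ∈ RR h, M.s i l * conj (M.s j l) := by
    rw [sum_B h, Finset.mul_sum]
    refine Finset.sum_congr rfl fun l _ => ?_
    rw [M.s_symm i (tau h l), M.s_symm j (tau h l), s_tau_B h hi', s_tau_B h hj', M.s_symm l i, M.s_symm l j]
    ring
  have h2 : ∑ l ∈ M.cent {M.unit, δ}, M.d l ^ 2 = 2 * ∑ l ∈ RR h, M.d l ^ 2 := by
    rw [sum_B h, Finset.mul_sum]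
    refine Finset.sum_congr rfl fun l _ => ?_
    rw [d_tau]
    ring
  have h3 : ∑ l ∈ M.cent {M.unit, δ}, M.s i l * conj (M.s j l) =
      if i = j then ((∑ l ∈ M.cent {M.unit, δ}, M.d l ^ 2 : ℕ) : ℂ) else 0 := by
    have e1 : ∀ l ∈ M.cent {M.unit, δ}, M.s i l * conj (M.s j l) = ∑ k, (M.N i (M.dual j) k : ℂ) * ((M.d l : ℂ) * M.s l k) := by
      intro l _
      rw [← M.s_dual, M.verlinde, Finset.mul_sum]
      refine Finset.sum_congr rfl fun k _ => ?_
      rw [M.s_symm k l]
      ring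
    rw [Finset.sum_congr rfl e1, Finset.sum_comm]
    simp_rw [← Finset.mul_sum, M.sum_fusion (M.cent_fusion {M.unit, δ})]
    rw [← Finset.add_sum_erase _ _ (Finset.mem_univ M.unit), if_pos ((cent_B h).2 (Or.inl rfl)), M.N_dual_unit, M.d_unit]
    have e2 : ∑ x ∈ Finset.univ.erase M.unit, (M.N i (M.dual j) x : ℂ) *
        (if x ∈ M.cent (M.cent {M.unit, δ}) then ((∑ l ∈ M.cent {M.unit, δ}, M.d l ^ 2 : ℕ) : ℂ) * M.d x else 0) = 0 := by
      refine Finset.sum_eq_zero fun x hx => ?_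
      by_cases hx' : x ∈ M.cent (M.cent {M.unit, δ})
      · have e3 := (cent_B h).1 hx'
        rcases e3 with e3 | e3
        · exact absurd e3 (Finset.ne_of_mem_erase hx)
        · rw [e3, M.N_recip, N_tau h, if_neg, Nat.cast_zero, zero_mul]
          intro e4
          rw [e4] at hi
          exact (tau_RR h hj').1 hi hj
      · rw [if_neg hx', mul_zero]
    rw [e2, add_zero]
    split_ifs
    · push_cast
      ring
    · simp
  rw [h1, h2] at h3
  split_ifs at h3 ⊢ with hij
  · push_cast at h3 ⊢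
    linear_combination h3 / 2
  · linear_combination h3 / 2

/-- the fermionic quotient -/
noncomputable def quot : IntegralModularDatum {i // i ∈ RR h} where
  unit := ⟨M.unit, (mem_RR h).2 ⟨(M.cent_fusion _).unit_mem, by rw [h.tw.unit]; exact upper_one⟩⟩
  dual i := ⟨M.dual i.1, (mem_RR h).2 ⟨(M.cent_fusion _).dual_mem _ ((mem_RR h).1 i.2).1, by
    rw [h.tw.dual]; exact ((mem_RR h).1 i.2).2⟩⟩
  d i := M.d i.1
  s i j := M.s i.1 j.1
  N i j k := M.N i.1 j.1 k.1 + M.N i.1 j.1 (tau h k.1)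
  d_pos i := M.d_pos i.1
  d_unit := M.d_unit
  s_unit i := M.s_unit i.1
  s_symm i j := M.s_symm i.1 j.1
  s_dual i j := M.s_dual i.1 j.1
  orth i j := by
    rw [Finset.sum_coe_sort (RR h) (fun l => M.s i.1 l * conj (M.s j.1 l)), orth_RR h i.2 j.2,
      Finset.sum_coe_sort (RR h) (fun l => M.d l ^ 2)]
    simp only [Subtype.ext_iff]
  verlinde i j l := by
    have hl := ((mem_RR h).1 l.2).1
    rw [M.verlinde, Finset.sum_coe_sort (RR h) (fun k => ((M.N i.1 j.1 k + M.N i.1 j.1 (tau h k) : ℕ) : ℂ) * M.s k l.1)]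
    congr 1
    have h1 : ∑ k, (M.N i.1 j.1 k : ℂ) * M.s k l.1 = ∑ k ∈ M.cent {M.unit, δ}, (M.N i.1 j.1 k : ℂ) * M.s k l.1 := by
      symm
      refine Finset.sum_subset (Finset.subset_univ _) fun k _ hk => ?_
      have : M.N i.1 j.1 k = 0 := by
        by_contra hne
        exact hk ((M.cent_fusion _).mul_mem _ ((mem_RR h).1 i.2).1 _ ((mem_RR h).1 j.2).1 k hne)
      rw [this, Nat.cast_zero, zero_mul]
    rw [h1, sum_B h]
    refine Finset.sum_congr rfl fun k _ => ?_
    rw [s_tau_B h hl]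
    push_cast
    ring

theorem quot_gdim : 4 * (quot h).gdim = M.gdim := by
  rw [← dim_RR h]
  congr 1
  exact Finset.sum_coe_sort (RR h) (fun l => M.d l ^ 2)

/-- a symmetric fusion subset of the quotient is a Tannakian one of `M` -/
theorem tannakian_of_quot {K : Finset {i // i ∈ RR h}} (hK : (quot h).IsFusion K) (hS : (quot h).IsSymmetric K)
    (h1 : K ≠ {(quot h).unit}) :
    ∃ F : Finset I, M.IsFusion F ∧ M.IsSymmetric F ∧ (∀ i ∈ F, θ i = 1) ∧ F ≠ {M.unit} := by
  classical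
  have hmem : ∀ i : I, i ∈ K.map (Function.Embedding.subtype _) ↔ ∃ hi : i ∈ RR h, (⟨i, hi⟩ : {i // i ∈ RR h}) ∈ K := by
    intro i
    rw [Finset.mem_map]
    constructor
    · rintro ⟨j, hj, rfl⟩
      exact ⟨j.2, hj⟩
    · rintro ⟨hi, hj⟩
      exact ⟨_, hj, rfl⟩
  have hsym : M.IsSymmetric (K.map (Function.Embedding.subtype _)) := by
    intro i hi j hj
    obtain ⟨hi, hi'⟩ := (hmem i).1 hi
    obtain ⟨hj, hj'⟩ := (hmem j).1 hj
    exact hS _ hi' _ hj'
  have hdual : ∀ i ∈ K.map (Function.Embedding.subtype _), M.dual i ∈ K.map (Function.Embedding.subtype _) := by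
    intro i hi
    obtain ⟨hi, hi'⟩ := (hmem i).1 hi
    exact (hmem _).2 ⟨_, hK.dual_mem _ hi'⟩
  have hth : ∀ i ∈ K.map (Function.Embedding.subtype _), θ i = 1 := by
    intro i hi
    have h2 := twist_sq h.tw (hsym i hi _ (hdual i hi))
    have h3 : (θ i - 1) * (θ i + 1) = 0 := by linear_combination h2
    rcases mul_eq_zero.1 h3 with h4 | h4
    · exact sub_eq_zero.1 h4
    · exfalso
      obtain ⟨hi, _⟩ := (hmem i).1 hi
      have h5 := ((mem_RR h).1 hi).2
      rw [eq_neg_of_add_eq_zero_left h4] at h5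
      exact not_upper_neg_one h5
  refine ⟨K.map (Function.Embedding.subtype _), ⟨?_, hdual, ?_⟩, hsym, hth, ?_⟩
  · exact (hmem _).2 ⟨_, hK.unit_mem⟩
  · intro i hi j hj k hk
    have hth' : θ k = 1 := by
      rw [twist_mul h.tw (hsym i hi j hj) hk, hth i hi, hth j hj, one_mul]
    obtain ⟨hi, hi'⟩ := (hmem i).1 hi
    obtain ⟨hj, hj'⟩ := (hmem j).1 hj
    have hkB : k ∈ M.cent {M.unit, δ} :=
      (M.cent_fusion _).mul_mem _ ((mem_RR h).1 hi).1 _ ((mem_RR h).1 hj).1 k hk
    have hkR : k ∈ RR h := (mem_RR h).2 ⟨hkB, by rw [hth']; exact upper_one⟩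
    refine (hmem _).2 ⟨hkR, hK.mul_mem _ hi' _ hj' ⟨k, hkR⟩ ?_⟩
    show M.N i j k + M.N i j (tau h k) ≠ 0
    omega
  · intro h2
    apply h1
    ext i
    rw [Finset.mem_singleton]
    constructor
    · intro hi
      have h3 : i.1 ∈ K.map (Function.Embedding.subtype _) := (hmem _).2 ⟨i.2, hi⟩
      rw [h2, Finset.mem_singleton] at h3
      exact Subtype.ext h3
    · rintro rfl
      exact hK.unit_mem

/-- if the quotient is pointed then `M` is pointed -/
theorem pointed_of_quot (hQ : (quot h).Pointed) : M.Pointed := by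
  classical
  -- all objects of the centralizer of the fermion have dimension one
  have hB : ∀ i ∈ M.cent {M.unit, δ}, M.d i = 1 := by
    intro i hi
    by_cases hiR : i ∈ RR h
    · exact hQ ⟨i, hiR⟩
    · have h1 := (tau_RR h hi).2 hiR
      have h2 := hQ ⟨_, h1⟩
      rw [← d_tau h i]
      exact h2
  intro X
  -- the constituents of `X ⊗ X*`
  have hc : ∀ k, M.N X (M.dual X) k ≠ 0 → k = M.unit ∨ k = δ := by
    intro k hk
    rw [← cent_B h, mem_cent]
    intro g hg
    refine M.eq_of_sum (a := M.N X (M.dual X)) ?_ hk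
    have h2 : ∑ k, (M.N X (M.dual X) k : ℂ) * M.s k g = ((‖M.s X g‖ ^ 2 / (M.d g : ℝ) : ℝ) : ℂ) := M.toMD.sum_sq X g
    have hg1 := hB g hg
    have hg2 : ‖M.s g X‖ = (M.d X : ℝ) := M.toMD.norm_s_inv (g := g) (by
      show ((M.d g : ℕ) : ℝ) = 1
      rw [hg1, Nat.cast_one]) X
    rw [h2, Complex.ofReal_re, M.s_symm X g, hg2]
    have h3 : ∑ k, (M.N X (M.dual X) k : ℝ) * (M.d k * M.d g) = ((∑ k, M.N X (M.dual X) k * M.d k : ℕ) : ℝ) * M.d g := by
      push_cast
      rw [Finset.sum_mul]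
      exact Finset.sum_congr rfl fun k _ => by ring
    rw [h3, M.sumN_d, M.d_dual, hg1]
    push_cast
    ring
  have h1 := M.sumN_d X (M.dual X)
  rw [M.d_dual, ← Finset.sum_subset (Finset.subset_univ {M.unit, δ}), Finset.sum_insert
    (by rw [Finset.mem_singleton]; exact h.ne.symm), Finset.sum_singleton, M.N_dual_unit, if_pos rfl, M.d_unit,
    h.d1, M.N_recip, N_tau h] at h1
  · have h2 := M.d_pos X
    split_ifs at h1
    · nlinarith
    · nlinarith
  · intro k _ hk
    have : M.N X (M.dual X) k = 0 := by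
      by_contra hne
      apply hk
      rw [Finset.mem_insert, Finset.mem_singleton]
      exact hc k hne
    rw [this, zero_mul]

end

/-- **Theorem T.** With twists: an integral modular datum whose global dimension divides a number without nontrivial
admissible divisors is pointed or contains a nontrivial Tannakian subset. -/
theorem tannakian_or_pointed {n : ℕ} (hn : ∀ D : ℕ, D ∣ n → Admissible D → D = 1) (hM : M.gdim ∣ n) (hθ : M.IsTwist θ) :
    (∃ F : Finset I, M.IsFusion F ∧ M.IsSymmetric F ∧ (∀ i ∈ F, θ i = 1) ∧ F ≠ {M.unit}) ∨ M.Pointed := by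
  by_cases hN : M.NoSym
  · exact Or.inr (pointed_of_noAdm hn I M hM hN)
  · unfold NoSym at hN
    push Not at hN
    obtain ⟨F, hF, hS, h1⟩ := hN
    rcases tannakian_or_fermion hθ hF hS h1 with h2 | ⟨δ, hd, hδ, hdual, hs, hth⟩
    · exact Or.inl h2
    · have hf : M.IsFermion θ δ := ⟨hθ, hd, hδ, hdual, hs, hth⟩
      by_cases hQ : (quot hf).NoSym
      · right
        refine pointed_of_quot hf (pointed_of_noAdm hn _ (quot hf) ?_ hQ)
        exact (Dvd.intro_left 4 (quot_gdim hf)).trans hM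
      · unfold NoSym at hQ
        push Not at hQ
        obtain ⟨K, hK, hKS, hK1⟩ := hQ
        exact Or.inl (tannakian_of_quot hf hK hKS hK1)

end IntegralModularDatum

end Pool.Agent.Helper46.WG
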