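import Pool.Agent.Helper46.WG.L10

/-!
# Integral modular data (MP_2b6189_al), part 14: large orbits without a bound on the dimensions
-/

set_option autoImplicit false

open scoped BigOperators ComplexConjugate
open Finset Polynomial NumberField IsDedekindDomain

namespace Pool.Agent.Helper46.WG

section rep

variable {I R : Type} [Fintype I] [CommRing R] {c : I → I → R} {f g : I → R}

/-- combinations of rows -/
def Rep (c : I → I → R) (f : I → R) : Prop := ∃ a : I → R, ∀ j, ∑ i, a i * c i j = f j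

theorem Rep.smul (h : Rep c f) (r : R) : Rep c fun j => r * f j := by
  obtain ⟨a, ha⟩ := h
  refine ⟨fun i => r * a i, fun j => ?_⟩
  show _ = r * f j
  rw [← ha j, Finset.mul_sum]
  exact Finset.sum_congr rfl fun i _ => by ring

theorem Rep.add (hf : Rep c f) (hg : Rep c g) : Rep c fun j => f j + g j := by
  obtain ⟨a, ha⟩ := hf
  obtain ⟨b, hb⟩ := hg
  refine ⟨fun i => a i + b i, fun j => ?_⟩
  show _ = f j + g j
  rw [← ha j, ← hb j, ← Finset.sum_add_distrib]
  exact Finset.sum_congr rfl fun i _ => by ring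

theorem Rep.mul {N : I → I → I → ℕ} (hm : ∀ i j l, c i l * c j l = ∑ m, (N i j m : R) * c m l) (hf : Rep c f)
    (hg : Rep c g) : Rep c fun j => f j * g j := by
  obtain ⟨a, ha⟩ := hf
  obtain ⟨b, hb⟩ := hg
  refine ⟨fun m => ∑ i, ∑ i', a i * b i' * (N i i' m : R), fun j => ?_⟩
  show _ = f j * g j
  rw [← ha j, ← hb j, Finset.sum_mul_sum]
  simp_rw [Finset.sum_mul]
  rw [Finset.sum_comm]
  refine Finset.sum_congr rfl fun i _ => ?_
  rw [Finset.sum_comm]
  refine Finset.sum_congr rfl fun i' _ => ?_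
  calc ∑ m, a i * b i' * (N i i' m : R) * c m j = a i * b i' * ∑ m, (N i i' m : R) * c m j := by
        rw [Finset.mul_sum]
        exact Finset.sum_congr rfl fun m _ => by ring
    _ = a i * c i j * (b i' * c i' j) := by
        rw [← hm]
        ring

/-- improving an approximate idempotent -/
theorem rep_pow {N : I → I → I → ℕ} (hm : ∀ i j l, c i l * c j l = ∑ m, (N i j m : R) * c m l) (v : Ideal R)
    (f : I → R) (hf : ∀ j, f j = 0 ∨ f j = 1) (h : ∃ g : I → R, Rep c g ∧ ∀ j, g j - f j ∈ v) (K : ℕ) :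
    ∃ g : I → R, Rep c g ∧ ∀ j, g j - f j ∈ v ^ (K + 1) := by
  induction K with
  | zero =>
    obtain ⟨g, h1, h2⟩ := h
    exact ⟨g, h1, fun j => by rw [zero_add, pow_one]; exact h2 j⟩
  | succ K ih =>
    obtain ⟨g, h1, h2⟩ := ih
    have h3 := h1.mul hm h1
    have h4 := h3.mul hm h1
    refine ⟨_, (h3.smul 3).add (h4.smul (-2)), fun j => ?_⟩
    have h5 : v ^ (K + 1) * v ^ (K + 1) ≤ v ^ (K + 1 + 1) := by
      rw [← pow_add]
      exact Ideal.pow_le_pow_right (by omega)
    apply h5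
    have h6 := h2 j
    have h7 : (g j - f j) * (g j - f j) ∈ v ^ (K + 1) * v ^ (K + 1) := Ideal.mul_mem_mul h6 h6
    have h8 : ∃ r : R, 3 * (g j * g j) + -2 * (g j * g j * g j) - f j = r * ((g j - f j) * (g j - f j)) := by
      rcases hf j with h9 | h9
      · rw [h9]
        exact ⟨3 - 2 * g j, by ring⟩
      · rw [h9]
        exact ⟨-(1 + 2 * g j), by ring⟩
    obtain ⟨r, hr⟩ := h8
    rw [hr]
    exact Ideal.mul_mem_left _ r h7

end rep

/-- a nonzero element is not in `v ^ K + p² R` for all `K` if it is `p` -/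
theorem not_forall_mem {R : Type} [CommRing R] [IsDomain R] [IsNoetherianRing R] (v : Ideal R) (hv : v ≠ ⊤) (p : R)
    (hp : p ≠ 0) (hpv : p ∈ v) : ∃ K : ℕ, p ∉ v ^ (K + 1) ⊔ Ideal.span {p ^ 2} := by
  by_contra hcon
  push Not at hcon
  have h1 : ∀ K : ℕ, p ∈ v ^ K := by
    intro K
    obtain ⟨α, hα, β, hβ, hs⟩ := Submodule.mem_sup.1 (hcon K)
    obtain ⟨b, hb⟩ := Ideal.mem_span_singleton'.1 hβ
    -- `p (1 - p b) = α`
    have e1 : p * (1 - p * b) = α := by
      rw [← hb] at hs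
      linear_combination -hs
    have hα' : α ∈ v ^ K := Ideal.pow_le_pow_right (Nat.le_succ K) hα
    have e2 : (1 - p * b) * ∑ i ∈ Finset.range K, (p * b) ^ i = 1 - (p * b) ^ K := by
      have := geom_sum_mul (p * b) K
      linear_combination -this
    have e3 : p = α * ∑ i ∈ Finset.range K, (p * b) ^ i + p * (p * b) ^ K := by
      rw [← e1]
      linear_combination -p * e2
    rw [e3]
    refine Ideal.add_mem _ (Ideal.mul_mem_right _ _ hα') (Ideal.mul_mem_left _ _ ?_)
    exact Ideal.pow_mem_pow (Ideal.mul_mem_right _ _ hpv) K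
  have h2 : p ∈ ⨅ K : ℕ, v ^ K := by
    rw [Submodule.mem_iInf]
    exact h1
  rw [Ideal.iInf_pow_eq_bot_of_isDomain _ hv] at h2
  exact hp ((Submodule.mem_bot R).1 h2)

/-- the Galois group is transitive on the primes above `p` -/
theorem trans_primes {L : Type} [Field L] [NumberField L] [IsGalois ℚ L] {p : ℕ} (hp : p.Prime)
    (v v' : HeightOneSpectrum (𝓞 L)) (hv : (p : 𝓞 L) ∈ v.asIdeal) (hv' : (p : 𝓞 L) ∈ v'.asIdeal) :
    ∃ σ : L ≃ₐ[ℚ] L, ∀ x : 𝓞 L, x ∈ v.asIdeal → σ • x ∈ v'.asIdeal := by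
  have := v.isPrime
  have := v'.isPrime
  have hz : ∀ u : HeightOneSpectrum (𝓞 L), (p : 𝓞 L) ∈ u.asIdeal →
      u.asIdeal.LiesOver (Ideal.span {(p : ℤ)}) := by
    intro u hu
    refine ⟨?_⟩
    have hmax : (Ideal.span {(p : ℤ)}).IsMaximal :=
      PrincipalIdealRing.isMaximal_of_irreducible (Nat.prime_iff_prime_int.1 hp).irreducible
    refine hmax.eq_of_le ?_ ?_
    · have := u.isPrime
      exact (Ideal.IsPrime.under ℤ u.asIdeal).ne_top
    · rw [Ideal.span_singleton_le_iff_mem]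
      change algebraMap ℤ (𝓞 L) (p : ℤ) ∈ u.asIdeal
      simpa using hu
  have := hz v hv
  have := hz v' hv'
  obtain ⟨σ, hσ⟩ := Ideal.exists_smul_eq_of_isGaloisGroup (Ideal.span {(p : ℤ)}) v.asIdeal v'.asIdeal
    (L ≃ₐ[ℚ] L)
  refine ⟨σ, fun x hx => ?_⟩
  rw [← hσ]
  exact Ideal.smul_mem_pointwise_smul_iff.2 hx

end Pool.Agent.Helper46.WG
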