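import Pool.Agent.Helper46.WG.L14

/-!
# Integral modular data (MP_2b6189_al), part 15: all orbits of a simple datum are large if `p² ∣ gdim`
-/

set_option autoImplicit false

open scoped BigOperators ComplexConjugate
open Finset Polynomial NumberField IsDedekindDomain

namespace Pool.Agent.Helper46.WG

namespace IntegralModularDatum

variable {I : Type} [Fintype I] [DecidableEq I] {M : IntegralModularDatum I}

section
variable {L : Type} [Field L] [NumberField L] [IsGalois ℚ L] {t : I → I → L} (hR : M.IsReal t)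
  (hint : ∀ i j, IsIntegral ℤ (t i j / M.d j))

include hR

omit [IsGalois ℚ L] in
theorem xx_unit (j : I) : xx hint M.unit j = 1 := by
  apply RingOfIntegers.coe_injective
  rw [coe_xx, hR.t_unit, div_self (d_neF hR j)]
  simp

omit [IsGalois ℚ L] in
theorem xx_unit' (i : I) : xx hint i M.unit = (M.d i : 𝓞 L) := by
  apply RingOfIntegers.coe_injective
  rw [coe_xx, t_unit' hR, M.d_unit, map_natCast]
  simp

omit [IsGalois ℚ L] in
theorem xx_mul (i j l : I) : xx hint i l * xx hint j l = ∑ m, (M.N i j m : 𝓞 L) * xx hint m l := by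
  apply RingOfIntegers.coe_injective
  have e1 : algebraMap (𝓞 L) L (∑ m, (M.N i j m : 𝓞 L) * xx hint m l) = ∑ m, (M.N i j m : L) * (t m l / M.d l) := by
    rw [map_sum]
    refine Finset.sum_congr rfl fun m _ => ?_
    rw [map_mul, coe_xx, map_natCast]
  have e2 : algebraMap (𝓞 L) L (xx hint i l * xx hint j l) = t i l / M.d l * (t j l / M.d l) := by
    rw [map_mul, coe_xx, coe_xx]
  rw [e1, e2]
  have e3 : ∑ m, (M.N i j m : L) * (t m l / M.d l) = (∑ m, (M.N i j m : L) * t m l) / M.d l := by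
    rw [Finset.sum_div]
    exact Finset.sum_congr rfl fun m _ => by ring
  rw [e3, verl' hR]
  ring

omit [IsGalois ℚ L] in
theorem xx_orth (i l : I) : ∑ j, (M.d j : 𝓞 L) ^ 2 * (xx hint l j * xx hint i j) =
    if l = M.dual i then (M.gdim : 𝓞 L) else 0 := by
  apply RingOfIntegers.coe_injective
  rw [map_sum]
  have e1 : ∀ j, (algebraMap (𝓞 L) L) ((M.d j : 𝓞 L) ^ 2 * (xx hint l j * xx hint i j)) = t l j * t (M.dual (M.dual i)) j := by
    intro j
    rw [map_mul, map_pow, map_natCast, map_mul, coe_xx, coe_xx, dual_dual hR]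
    have := d_neF hR j
    field_simp
  simp_rw [e1]
  rw [hR.orth]
  split_ifs <;> simp

theorem xx_gal (σ : L ≃ₐ[ℚ] L) (i j : I) : σ • xx hint i j = xx hint (act hR σ i) j := by
  apply RingOfIntegers.coe_injective
  show σ (t i j / M.d j) = t (act hR σ i) j / M.d j
  rw [map_div₀, map_natCast, t_act' hR]

/-- the block of the dimension character at `v` -/
noncomputable def blk (hint : ∀ i j, IsIntegral ℤ (t i j / M.d j)) (v : HeightOneSpectrum (𝓞 L)) : Finset I := by
  classical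
  exact Finset.univ.filter fun j => ∀ i, (M.d i : 𝓞 L) - xx hint i j ∈ v.asIdeal

omit hR [IsGalois ℚ L] [NumberField L] in
theorem mem_blk {v : HeightOneSpectrum (𝓞 L)} {j : I} :
    j ∈ blk hint v ↔ ∀ i, (M.d i : 𝓞 L) - xx hint i j ∈ v.asIdeal := by
  classical
  unfold blk
  simp

/-- the block does not depend on `v` -/
theorem blk_indep {p : ℕ} (hp : p.Prime) (v v' : HeightOneSpectrum (𝓞 L)) (hv : (p : 𝓞 L) ∈ v.asIdeal)
    (hv' : (p : 𝓞 L) ∈ v'.asIdeal) {j : I} (hj : j ∈ blk hint v) (i : I) :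
    (M.d i : 𝓞 L) - xx hint i j ∈ v'.asIdeal := by
  obtain ⟨σ, hσ⟩ := trans_primes hp v v' hv hv'
  have h1 := hσ _ ((mem_blk hint).1 hj (act hR σ⁻¹ i))
  rw [smul_sub, xx_gal hR, act_act_inv, d_act] at h1
  have h2 : σ • ((M.d i : ℕ) : 𝓞 L) = ((M.d i : ℕ) : 𝓞 L) := by
    apply RingOfIntegers.coe_injective
    show σ (algebraMap (𝓞 L) L ((M.d i : ℕ) : 𝓞 L)) = _
    rw [map_natCast, map_natCast]
  rw [h2] at h1
  exact h1

omit [IsGalois ℚ L] in
/-- approximate idempotents -/
theorem exists_idem {v : HeightOneSpectrum (𝓞 L)} (K : ℕ) :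
    ∃ a : I → 𝓞 L, ∀ j, (∑ i, a i * xx hint i j) - (if j ∈ blk hint v then 1 else 0) ∈ v.asIdeal ^ (K + 1) := by
  classical
  have hmax : v.asIdeal.IsMaximal := v.isMaximal
  letI : Field (𝓞 L ⧸ v.asIdeal) := Ideal.Quotient.field v.asIdeal
  have key : ∃ g : I → 𝓞 L, Rep (xx hint) g ∧ ∀ j, g j - (if j ∈ blk hint v then 1 else 0) ∈ v.asIdeal := by
    obtain ⟨a, ha⟩ := exists_sep M.unit (fun i => ((M.d i : ℕ) : 𝓞 L ⧸ v.asIdeal)) M.N
      (fun i j => Ideal.Quotient.mk v.asIdeal (xx hint i j))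
      (fun j => by
        show Ideal.Quotient.mk v.asIdeal (xx hint M.unit j) = 1
        rw [xx_unit hR, map_one])
      (fun i j l => by
        show Ideal.Quotient.mk v.asIdeal (xx hint i l) * Ideal.Quotient.mk v.asIdeal (xx hint j l) = _
        rw [← map_mul, xx_mul hR, map_sum]
        refine Finset.sum_congr rfl fun m _ => ?_
        rw [map_mul, map_natCast]) (blk hint v) (fun j => by
        rw [mem_blk]
        refine forall_congr' fun i => ?_
        rw [← Ideal.Quotient.eq_zero_iff_mem, map_sub, map_natCast, sub_eq_zero]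
        exact eq_comm)
    choose b hb using fun i => Ideal.Quotient.mk_surjective (I := v.asIdeal) (a i)
    refine ⟨fun j => ∑ i, b i * xx hint i j, ⟨b, fun j => rfl⟩, fun j => ?_⟩
    rw [← Ideal.Quotient.eq_zero_iff_mem, map_sub, map_sum, sub_eq_zero]
    have h1 := ha j
    have h2 : ∀ i, Ideal.Quotient.mk v.asIdeal (b i * xx hint i j) = a i * Ideal.Quotient.mk v.asIdeal (xx hint i j) := by
      intro i
      rw [map_mul, hb]
    simp_rw [h2]
    rw [h1]
    split_ifs <;> simp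
  obtain ⟨g, ⟨a, ha⟩, hg⟩ := rep_pow (xx_mul hR hint) v.asIdeal (fun j => if j ∈ blk hint v then (1 : 𝓞 L) else 0)
    (fun j => by
      by_cases hj : j ∈ blk hint v
      · exact Or.inr (if_pos hj)
      · exact Or.inl (if_neg hj)) key K
  refine ⟨a, fun j => ?_⟩
  rw [ha j]
  exact hg j

omit [IsGalois ℚ L] in
/-- the sums over the block are divisible by `p²` up to high powers of `v` -/
theorem sum_blk {p : ℕ} (hpD : p ^ 2 ∣ M.gdim) {v : HeightOneSpectrum (𝓞 L)} (K : ℕ) (l : I) :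
    ∑ j ∈ blk hint v, (M.d j : 𝓞 L) ^ 2 * xx hint l j ∈ v.asIdeal ^ (K + 1) ⊔ Ideal.span {(p : 𝓞 L) ^ 2} := by
  classical
  obtain ⟨a, ha⟩ := exists_idem hR hint (v := v) K
  have e1 : ∑ j, (M.d j : 𝓞 L) ^ 2 * xx hint l j * ∑ i, a i * xx hint i j = a (M.dual l) * M.gdim := by
    have e2 : ∀ j, (M.d j : 𝓞 L) ^ 2 * xx hint l j * ∑ i, a i * xx hint i j =
        ∑ i, a i * ((M.d j : 𝓞 L) ^ 2 * (xx hint l j * xx hint i j)) := by
      intro j
      rw [Finset.mul_sum]
      exact Finset.sum_congr rfl fun i _ => by ring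
    simp_rw [e2]
    rw [Finset.sum_comm]
    simp_rw [← Finset.mul_sum, xx_orth hR]
    rw [Finset.sum_eq_single (M.dual l)]
    · rw [dual_dual hR, if_pos rfl]
    · intro i _ hi
      rw [if_neg, mul_zero]
      intro h
      apply hi
      rw [h, dual_dual hR]
    · intro h
      exact absurd (Finset.mem_univ _) h
  have e3 : ∑ j ∈ blk hint v, (M.d j : 𝓞 L) ^ 2 * xx hint l j =
      ∑ j, (M.d j : 𝓞 L) ^ 2 * xx hint l j * (if j ∈ blk hint v then 1 else 0) := by
    simp
  have e4 : ∑ j ∈ blk hint v, (M.d j : 𝓞 L) ^ 2 * xx hint l j = -(∑ j, (M.d j : 𝓞 L) ^ 2 * xx hint l j *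
      ((∑ i, a i * xx hint i j) - (if j ∈ blk hint v then 1 else 0))) + a (M.dual l) * M.gdim := by
    rw [e3, ← e1, ← Finset.sum_neg_distrib, ← Finset.sum_add_distrib]
    exact Finset.sum_congr rfl fun j _ => by ring
  rw [e4]
  refine Ideal.add_mem _ (Ideal.mem_sup_left (neg_mem (Ideal.sum_mem _ fun j _ => Ideal.mul_mem_left _ _ (ha j))))
    (Ideal.mem_sup_right ?_)
  obtain ⟨m, hm⟩ := hpD
  rw [hm]
  refine Ideal.mem_span_singleton'.2 ⟨a (M.dual l) * m, ?_⟩
  push_cast
  ring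

include hint in
/-- **Theorem B.** If `p² ∣ gdim` then all nontrivial orbits of a simple datum are large. -/
theorem orb_large2 (e : L →+* ℂ) (he : ∀ i j, e (t i j) = M.s i j) (hsim : M.Simple) {p : ℕ} (hp : p.Prime)
    (hpD : p ^ 2 ∣ M.gdim) {V : I} (hV : V ≠ M.unit) : p ≤ (orb hR p V).card * M.d V := by
  classical
  by_contra hcon
  push Not at hcon
  set O := orb hR p V with hO
  set a : ℕ := O.card * M.d V with ha
  have hsumd : ∑ X ∈ O, M.d X = a := by
    rw [Finset.sum_congr rfl (fun X hX => d_orb hR (hO ▸ hX)), Finset.sum_const, smul_eq_mul]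
  have hpR : (0 : ℝ) < p := Nat.cast_pos.2 hp.pos
  -- a prime above `p`
  obtain ⟨v, hv⟩ : ∃ v : HeightOneSpectrum (𝓞 L), (p : 𝓞 L) ∈ v.asIdeal := by
    have h1 : ¬ IsUnit ((p : ℕ) : 𝓞 L) := by
      intro h
      exact prime_not_dvd_one (L := L) hp h.dvd
    obtain ⟨m, hm, hpm⟩ := exists_max_ideal_of_mem_nonunits h1
    refine ⟨⟨m, hm.isPrime, ?_⟩, hpm⟩
    rintro rfl
    rw [Submodule.mem_bot] at hpm
    exact hp.ne_zero (by exact_mod_cast hpm)
  -- the orbit sums
  let y : I → 𝓞 L := fun Y => ∑ X ∈ O, xx hint X Y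
  have hy : ∀ Y, algebraMap (𝓞 L) L (y Y) = ∑ X ∈ O, t X Y / M.d Y := by
    intro Y
    show algebraMap (𝓞 L) L (∑ X ∈ O, xx hint X Y) = _
    rw [map_sum]
    rfl
  have hdvd : ∀ Y, Y ∈ blk hint v → (p : 𝓞 L) ∣ (a : 𝓞 L) - y Y := by
    intro Y hY
    refine dvd_of_inertia L p hp _ ?_ ?_
    · intro v' hv'
      have e1 : (a : 𝓞 L) - y Y = ∑ X ∈ O, ((M.d X : 𝓞 L) - xx hint X Y) := by
        rw [Finset.sum_sub_distrib, ← hsumd]
        push_cast
        rfl
      rw [e1]
      exact Ideal.sum_mem _ fun X _ => blk_indep hR hint hp v v' hv hv' hY X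
    · intro v' hv' τ hτ
      have hτK : τ ∈ Kp L p := Subgroup.subset_closure ⟨v', hv', hτ⟩
      show τ (algebraMap (𝓞 L) L ((a : 𝓞 L) - y Y)) = algebraMap (𝓞 L) L ((a : 𝓞 L) - y Y)
      rw [map_sub, map_natCast, hy, map_sub, map_natCast, map_sum]
      congr 1
      have e2 : ∀ X, τ (t X Y / M.d Y) = t (act hR τ X) Y / M.d Y := by
        intro X
        rw [map_div₀, map_natCast, t_act' hR]
      simp_rw [e2]
      exact Finset.sum_equiv (perm hR τ) (fun X => act_mem_orb hR hτK X) (fun X _ => rfl)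
  have hybd : ∀ (e' : L →+* ℂ) (Y : I), ‖e' (algebraMap (𝓞 L) L (y Y))‖ ≤ a := by
    intro e' Y
    rw [hy, map_sum]
    refine (norm_sum_le _ _).trans ?_
    rw [← hsumd]
    push_cast
    refine Finset.sum_le_sum fun X _ => ?_
    rw [map_div₀, map_natCast, norm_div, Complex.norm_natCast, div_le_iff₀ (Nat.cast_pos.2 (M.d_pos Y))]
    exact norm_t_le hR e' X Y
  have hcent : M.cent O = {M.unit} := by
    rcases hsim _ (M.cent_fusion O) with h | h
    · exact h
    · exfalso
      apply hV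
      have h1 : V ∈ M.cent Finset.univ := by
        rw [← h]
        exact M.sub_cent_cent O (self_mem_orb hR p V)
      rw [M.cent_univ, Finset.mem_singleton] at h1
      exact h1
  have hyv : ∀ Y, Y ∈ blk hint v → y Y = (a : 𝓞 L) - p + if Y = M.unit then (p : 𝓞 L) else 0 := by
    intro Y hYb
    obtain ⟨w, hw⟩ := hdvd Y hYb
    by_cases hY : Y = M.unit
    · rw [if_pos hY, hY, sub_add_cancel, ← hsumd]
      push_cast
      refine Finset.sum_congr rfl fun X _ => ?_
      exact xx_unit' hR hint X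
    · rw [if_neg hY, add_zero]
      have hw0 : w ≠ 0 := by
        intro hw0
        apply hY
        rw [hw0, mul_zero, sub_eq_zero] at hw
        have h2 := congrArg (fun z => e (algebraMap (𝓞 L) L z)) hw
        simp only [map_natCast, hy, map_sum, map_div₀, he] at h2
        have h3 : ∑ X ∈ O, M.s X Y = (a : ℂ) * M.d Y := by
          rw [h2, Finset.sum_mul]
          refine Finset.sum_congr rfl fun X _ => ?_
          rw [div_mul_cancel₀ _ (M.d_ne Y)]
        have h4 : Y ∈ M.cent O := by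
          rw [mem_cent]
          intro X hX
          have h5 := M.eq_of_sum (a := fun k => if k ∈ O then 1 else 0) (l := Y) (k := X) (by
            have e1 : ∑ k, (((if k ∈ O then 1 else 0 : ℕ)) : ℂ) * M.s k Y = ∑ X ∈ O, M.s X Y := by
              simp
            have e2 : ∑ k, (((if k ∈ O then 1 else 0 : ℕ)) : ℝ) * (M.d k * M.d Y) = (a : ℝ) * M.d Y := by
              rw [← hsumd]
              push_cast
              rw [Finset.sum_mul]
              simp
            rw [e1, e2, h3]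
            have e3 : (a : ℂ) * M.d Y = ((a * M.d Y : ℕ) : ℂ) := by push_cast; rfl
            rw [e3, Complex.natCast_re]
            push_cast
            rfl) (by rw [if_pos hX]; exact one_ne_zero)
          rw [M.s_symm, h5, mul_comm]
        rw [hcent, Finset.mem_singleton] at h4
        exact h4
      have h1 : 1 - w = 0 := by
        refine eq_zero_of_norm _ fun e' => ?_
        show ‖e' (algebraMap (𝓞 L) L (1 - w))‖ < 1
        rw [map_sub, map_sub, map_one, map_one]
        refine norm_one_sub_lt hpR (Nat.cast_nonneg a) (Nat.cast_lt.2 hcon) ?_ ?_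
        · intro h2
          apply hw0
          have h3 : algebraMap (𝓞 L) L w = 0 := by
            rw [← map_zero e'] at h2
            exact e'.injective h2
          rw [← map_zero (algebraMap (𝓞 L) L)] at h3
          exact RingOfIntegers.coe_injective h3
        · have h2 := congrArg (fun z => e' (algebraMap (𝓞 L) L z)) hw
          simp only [map_sub, map_mul, map_natCast] at h2
          push_cast
          rw [← h2]
          have h3 : (a : ℂ) - ((a : ℂ) - e' (algebraMap (𝓞 L) L (y Y))) = e' (algebraMap (𝓞 L) L (y Y)) := by ring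
          rw [h3]
          exact hybd e' Y
      rw [← sub_eq_zero.1 h1, mul_one] at hw
      rw [← hw]
      ring
  -- the block contains the unit
  have hub : M.unit ∈ blk hint v := by
    rw [mem_blk]
    intro i
    rw [xx_unit' hR, sub_self]
    exact v.asIdeal.zero_mem
  -- the final congruence
  have hne : v.asIdeal ≠ ⊤ := v.isPrime.ne_top
  have hp0 : (p : 𝓞 L) ≠ 0 := Nat.cast_ne_zero.2 hp.ne_zero
  obtain ⟨K, hK⟩ := not_forall_mem v.asIdeal hne (p : 𝓞 L) hp0 hv
  apply hK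
  have e1 : ∑ Y ∈ blk hint v, (M.d Y : 𝓞 L) ^ 2 * y Y =
      (∑ Y ∈ blk hint v, (M.d Y : 𝓞 L) ^ 2) * ((a : 𝓞 L) - p) + p := by
    rw [Finset.sum_congr rfl (fun Y hY => by rw [hyv Y hY, mul_add])]
    rw [Finset.sum_add_distrib, Finset.sum_mul]
    congr 1
    simp_rw [mul_ite, mul_zero]
    rw [Finset.sum_ite_eq' (blk hint v) M.unit, if_pos hub, M.d_unit]
    simp
  have e2 : ∑ Y ∈ blk hint v, (M.d Y : 𝓞 L) ^ 2 * y Y ∈ v.asIdeal ^ (K + 1) ⊔ Ideal.span {(p : 𝓞 L) ^ 2} := by
    have e3 : ∑ Y ∈ blk hint v, (M.d Y : 𝓞 L) ^ 2 * y Y =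
        ∑ X ∈ O, ∑ Y ∈ blk hint v, (M.d Y : 𝓞 L) ^ 2 * xx hint X Y := by
      rw [Finset.sum_comm]
      refine Finset.sum_congr rfl fun Y _ => ?_
      show (M.d Y : 𝓞 L) ^ 2 * ∑ X ∈ O, xx hint X Y = _
      rw [Finset.mul_sum]
    rw [e3]
    exact Ideal.sum_mem _ fun X _ => sum_blk hR hint hpD K X
  have e4 : ∑ Y ∈ blk hint v, (M.d Y : 𝓞 L) ^ 2 ∈ v.asIdeal ^ (K + 1) ⊔ Ideal.span {(p : 𝓞 L) ^ 2} := by
    have h1 := sum_blk hR hint hpD (v := v) K M.unit
    simp_rw [xx_unit hR, mul_one] at h1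
    exact h1
  have e5 : (p : 𝓞 L) = ∑ Y ∈ blk hint v, (M.d Y : 𝓞 L) ^ 2 * y Y -
      (∑ Y ∈ blk hint v, (M.d Y : 𝓞 L) ^ 2) * ((a : 𝓞 L) - p) := by
    rw [e1]
    ring
  have e6 := Ideal.sub_mem _ e2 (Ideal.mul_mem_right ((a : 𝓞 L) - p) _ e4)
  rw [← e5] at e6
  exact e6

end

/-- Many objects of the same dimension. -/
theorem many_of_dim (hsim : M.Simple) {p : ℕ} (hp : p.Prime) (hpD : p ^ 2 ∣ M.gdim) {V : I} (hV : V ≠ M.unit) :
    p ≤ (Finset.univ.filter fun X => M.d X = M.d V).card * M.d V := by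
  classical
  obtain ⟨L, _, _, _, e, t, he, hR, hint⟩ := M.exists_real
  refine (orb_large2 hR hint e he hsim hp hpD hV).trans (Nat.mul_le_mul_right _ (Finset.card_le_card ?_))
  intro X hX
  exact Finset.mem_filter.2 ⟨Finset.mem_univ _, d_orb hR hX⟩

end IntegralModularDatum

end Pool.Agent.Helper46.WG
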