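import Pool.Agent.Helper46.WG.L1

/-!
# Integral modular data (MP_2b6189_al), part 2: fusion subsets with trivial radical are modular data; reduction to simple data
-/

set_option autoImplicit false

open scoped BigOperators ComplexConjugate
open Finset

namespace Pool.Agent.Helper46.WG

namespace IntegralModularDatum

variable {I : Type} [Fintype I] [DecidableEq I] (M : IntegralModularDatum I)

/-- orthogonality on a fusion subset with trivial radical -/
theorem orth_sub {F : Finset I} (hF : M.IsFusion F) (hC : F ∩ M.cent F ⊆ {M.unit}) {i j : I} (hi : i ∈ F) (hj : j ∈ F) :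
    ∑ l ∈ F, M.s i l * conj (M.s j l) = if i = j then ((∑ l ∈ F, M.d l ^ 2 : ℕ) : ℂ) else 0 := by
  have h1 : ∀ l ∈ F, M.s i l * conj (M.s j l) = ∑ k, (M.N i (M.dual j) k : ℂ) * ((M.d l : ℂ) * M.s l k) := by
    intro l _
    rw [← M.s_dual, M.verlinde, Finset.mul_sum]
    refine Finset.sum_congr rfl fun k _ => ?_
    rw [M.s_symm k l]
    ring
  rw [Finset.sum_congr rfl h1, Finset.sum_comm]
  simp_rw [← Finset.mul_sum, M.sum_fusion hF]
  rw [Finset.sum_eq_single M.unit]
  · rw [if_pos (M.cent_fusion F).unit_mem, M.N_dual_unit, M.d_unit]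
    split_ifs
    · push_cast
      ring
    · simp
  · intro k _ hk
    by_cases hN : M.N i (M.dual j) k = 0
    · rw [hN, Nat.cast_zero, zero_mul]
    · have hkF := hF.mul_mem i hi _ (hF.dual_mem j hj) k hN
      have hkC : k ∉ M.cent F := by
        intro hkC
        exact hk (Finset.mem_singleton.1 (hC (Finset.mem_inter.2 ⟨hkF, hkC⟩)))
      rw [if_neg hkC, mul_zero]
  · intro h
    exact absurd (Finset.mem_univ _) h

/-- the modular datum on a fusion subset with trivial radical -/
def restrict (F : Finset I) (hF : M.IsFusion F) (hC : F ∩ M.cent F ⊆ {M.unit}) : IntegralModularDatum {i // i ∈ F} where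
  unit := ⟨M.unit, hF.unit_mem⟩
  dual i := ⟨M.dual i.1, hF.dual_mem i.1 i.2⟩
  d i := M.d i.1
  s i j := M.s i.1 j.1
  N i j k := M.N i.1 j.1 k.1
  d_pos i := M.d_pos i.1
  d_unit := M.d_unit
  s_unit i := M.s_unit i.1
  s_symm i j := M.s_symm i.1 j.1
  s_dual i j := M.s_dual i.1 j.1
  orth i j := by
    rw [Finset.sum_coe_sort F (fun l => M.s i.1 l * conj (M.s j.1 l)), M.orth_sub hF hC i.2 j.2,
      Finset.sum_coe_sort F (fun l => M.d l ^ 2)]
    simp only [Subtype.ext_iff]
  verlinde i j l := by
    rw [M.verlinde, Finset.sum_coe_sort F (fun k => (M.N i.1 j.1 k : ℂ) * M.s k l.1)]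
    congr 1
    symm
    refine Finset.sum_subset (Finset.subset_univ _) fun k _ hk => ?_
    have : M.N i.1 j.1 k = 0 := by
      by_contra hne
      exact hk (hF.mul_mem _ i.2 _ j.2 k hne)
    rw [this, Nat.cast_zero, zero_mul]

theorem restrict_gdim (F : Finset I) (hF : M.IsFusion F) (hC : F ∩ M.cent F ⊆ {M.unit}) :
    (M.restrict F hF hC).gdim = ∑ l ∈ F, M.d l ^ 2 :=
  Finset.sum_coe_sort F (fun l => M.d l ^ 2)

/-- a fusion subset of the restriction -/
theorem fusion_map {F : Finset I} (hF : M.IsFusion F) (hC : F ∩ M.cent F ⊆ {M.unit}) {K : Finset {i // i ∈ F}}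
    (hK : (M.restrict F hF hC).IsFusion K) : M.IsFusion (K.map (Function.Embedding.subtype _)) := by
  refine ⟨?_, ?_, ?_⟩
  · exact Finset.mem_map.2 ⟨_, hK.unit_mem, rfl⟩
  · intro i hi
    obtain ⟨j, hj, rfl⟩ := Finset.mem_map.1 hi
    exact Finset.mem_map.2 ⟨_, hK.dual_mem j hj, rfl⟩
  · intro i hi j hj k hk
    obtain ⟨i', hi', rfl⟩ := Finset.mem_map.1 hi
    obtain ⟨j', hj', rfl⟩ := Finset.mem_map.1 hj
    have hkF : k ∈ F := hF.mul_mem _ i'.2 _ j'.2 k hk
    exact Finset.mem_map.2 ⟨⟨k, hkF⟩, hK.mul_mem i' hi' j' hj' ⟨k, hkF⟩ hk, rfl⟩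

theorem restrict_noSym (hM : M.NoSym) (F : Finset I) (hF : M.IsFusion F) (hC : F ∩ M.cent F ⊆ {M.unit}) :
    (M.restrict F hF hC).NoSym := by
  intro K hK hS
  have h1 := hM _ (M.fusion_map hF hC hK) (by
    intro i hi j hj
    obtain ⟨i', hi', rfl⟩ := Finset.mem_map.1 hi
    obtain ⟨j', hj', rfl⟩ := Finset.mem_map.1 hj
    exact hS i' hi' j' hj')
  ext k
  rw [Finset.mem_singleton]
  constructor
  · intro hk
    have h2 : k.1 ∈ K.map (Function.Embedding.subtype _) := Finset.mem_map.2 ⟨k, hk, rfl⟩
    rw [h1, Finset.mem_singleton] at h2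
    exact Subtype.ext h2
  · rintro rfl
    exact hK.unit_mem

/-- the radical is symmetric -/
theorem radical (hM : M.NoSym) {F : Finset I} (hF : M.IsFusion F) : F ∩ M.cent F ⊆ {M.unit} := by
  have h1 := hM (F ∩ M.cent F) ⟨Finset.mem_inter.2 ⟨hF.unit_mem, (M.cent_fusion F).unit_mem⟩,
    fun i hi => Finset.mem_inter.2 ⟨hF.dual_mem i (Finset.mem_inter.1 hi).1,
      (M.cent_fusion F).dual_mem i (Finset.mem_inter.1 hi).2⟩,
    fun i hi j hj k hk => Finset.mem_inter.2 ⟨hF.mul_mem i (Finset.mem_inter.1 hi).1 j (Finset.mem_inter.1 hj).1 k hk,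
      (M.cent_fusion F).mul_mem i (Finset.mem_inter.1 hi).2 j (Finset.mem_inter.1 hj).2 k hk⟩⟩ (by
    intro i hi j hj
    exact M.mem_cent.1 (Finset.mem_inter.1 hi).2 j (Finset.mem_inter.1 hj).1)
  rw [h1]

/-- the set of the objects of dimension one -/
def inv : Finset I := Finset.univ.filter fun i => M.d i = 1

theorem inv_fusion : M.IsFusion M.inv := by
  refine ⟨?_, ?_, ?_⟩
  · exact Finset.mem_filter.2 ⟨Finset.mem_univ _, M.d_unit⟩
  · intro i hi
    exact Finset.mem_filter.2 ⟨Finset.mem_univ _, by rw [M.d_dual]; exact (Finset.mem_filter.1 hi).2⟩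
  · intro i hi j hj k hk
    refine Finset.mem_filter.2 ⟨Finset.mem_univ _, ?_⟩
    have h1 := M.sumN_d i j
    rw [(Finset.mem_filter.1 hi).2, (Finset.mem_filter.1 hj).2, mul_one] at h1
    have h2 : M.N i j k * M.d k ≤ ∑ k, M.N i j k * M.d k :=
      Finset.single_le_sum (f := fun k => M.N i j k * M.d k) (fun _ _ => Nat.zero_le _) (Finset.mem_univ k)
    rw [h1] at h2
    have h3 := M.d_pos k
    have h4 : 0 < M.N i j k := Nat.pos_of_ne_zero hk
    have h5 : M.d k ≤ M.N i j k * M.d k := Nat.le_mul_of_pos_left _ h4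
    omega

/-- reduction to simple data -/
theorem reduce (n : ℕ) (hS : ∀ (I : Type) [Fintype I] [DecidableEq I] (M : IntegralModularDatum I), M.gdim ∣ n →
    M.NoSym → M.Simple → M.Pointed) : ∀ (c : ℕ) (I : Type) [Fintype I] [DecidableEq I] (M : IntegralModularDatum I),
    Fintype.card I = c → M.gdim ∣ n → M.NoSym → M.Pointed := by
  intro c
  induction c using Nat.strong_induction_on with
  | _ c ih =>
    intro I _ _ M hc hn hM
    by_cases hsim : M.Simple
    · exact hS I M hn hM hsim
    · unfold Simple at hsim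
      push Not at hsim
      obtain ⟨F, hF, hF1, hFu⟩ := hsim
      have hsub : ∀ F : Finset I, M.IsFusion F → F ≠ Finset.univ → ∀ i ∈ F, M.d i = 1 := by
        intro F hF hFu i hi
        have hC := M.radical hM hF
        have hlt : Fintype.card {i // i ∈ F} < c := by
          rw [Fintype.card_coe, ← hc]
          exact Finset.card_lt_univ_of_notMem (x := (Classical.choose (not_forall.1 fun h => hFu
            (Finset.eq_univ_iff_forall.2 h)))) (Classical.choose_spec (not_forall.1 fun h => hFu
            (Finset.eq_univ_iff_forall.2 h)))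
        have hd : (M.restrict F hF hC).gdim ∣ n := by
          rw [M.restrict_gdim]
          exact (Dvd.intro _ (M.dim_cent hF)).trans hn
        exact ih _ hlt _ (M.restrict F hF hC) rfl hd (M.restrict_noSym hM F hF hC) ⟨i, hi⟩
      have h1 := hsub F hF hFu
      have hF' : M.cent F ≠ Finset.univ := by
        intro h
        apply hF1
        have h2 : F ⊆ M.cent Finset.univ := by
          rw [← h]
          exact M.sub_cent_cent F
        rw [M.cent_univ] at h2
        ext k
        constructor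
        · exact fun hk => h2 hk
        · intro hk
          rw [Finset.mem_singleton.1 hk]
          exact hF.unit_mem
      have h2 := hsub (M.cent F) (M.cent_fusion F) hF'
      have hG1 : F ⊆ M.inv := fun i hi => Finset.mem_filter.2 ⟨Finset.mem_univ _, h1 i hi⟩
      have hG2 : M.cent F ⊆ M.inv := fun i hi => Finset.mem_filter.2 ⟨Finset.mem_univ _, h2 i hi⟩
      have hG3 : M.cent M.inv = {M.unit} := by
        refine Finset.Subset.antisymm ?_ ?_
        · intro k hk
          exact M.radical hM (M.cent_fusion F) (Finset.mem_inter.2 ⟨M.cent_anti hG1 hk, M.cent_anti hG2 hk⟩)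
        · intro k hk
          rw [Finset.mem_singleton.1 hk]
          exact (M.cent_fusion _).unit_mem
      have h3 := M.dim_cent M.inv_fusion
      rw [hG3, Finset.sum_singleton, M.d_unit, one_pow, mul_one] at h3
      intro i
      by_contra hi
      have h4 : ∑ l ∈ M.inv, M.d l ^ 2 + M.d i ^ 2 ≤ M.gdim := by
        have hiG : i ∉ M.inv := fun h => hi (Finset.mem_filter.1 h).2
        rw [add_comm, ← Finset.sum_insert (f := fun l => M.d l ^ 2) hiG]
        exact Finset.sum_le_sum_of_subset (Finset.subset_univ _)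
      have h5 : 0 < M.d i ^ 2 := pow_pos (M.d_pos i) 2
      omega

end IntegralModularDatum

end Pool.Agent.Helper46.WG
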