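import Pool.Agent.Helper46.WG.L2

/-!
# Integral modular data (MP_2b6189_al), part 3: number fields, characters of the fusion ring, the Galois action
-/

set_option autoImplicit false

open scoped BigOperators ComplexConjugate
open Finset Polynomial

namespace Pool.Agent.Helper46.WG

/-! ### A Galois number field containing given algebraic numbers -/

theorem exists_gal (F E : Type) [Field F] [Field E] [Algebra F E] [IsAlgClosed E] {ι : Type} [Fintype ι] (x : ι → E)
    (hx : ∀ i, IsIntegral F (x i)) :
    ∃ L : IntermediateField F E, FiniteDimensional F L ∧ Normal F L ∧ ∀ i, x i ∈ L := by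
  classical
  let p : F[X] := ∏ i, minpoly F (x i)
  have hp : (p.map (algebraMap F E)).Splits := IsAlgClosed.splits _
  refine ⟨IntermediateField.adjoin F (p.rootSet E), ?_, ?_, ?_⟩
  · have := IntermediateField.adjoin_rootSet_isSplittingField hp
    exact Polynomial.IsSplittingField.finiteDimensional _ p
  · have := IntermediateField.adjoin_rootSet_isSplittingField hp
    exact Normal.of_isSplittingField p
  · intro i
    apply IntermediateField.subset_adjoin
    rw [Polynomial.mem_rootSet]
    refine ⟨Finset.prod_ne_zero_iff.2 fun j _ => minpoly.ne_zero (hx j), ?_⟩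
    rw [map_prod]
    exact Finset.prod_eq_zero (Finset.mem_univ i) (minpoly.aeval F (x i))

theorem transfer (L : Type) [Field L] [CharZero L] (A : Algebra ℚ L) (h1 : @FiniteDimensional ℚ L _ _ A.toModule)
    (h2 : @Normal ℚ L _ _ A) : ∃ _ : NumberField L, IsGalois ℚ L := by
  have e : A = DivisionRing.toRatAlgebra := Subsingleton.elim _ _
  subst e
  have hNF : NumberField L := ⟨⟩
  exact ⟨hNF, ⟨⟩⟩

theorem exists_field {ι : Type} [Fintype ι] (x : ι → ℂ) (hx : ∀ i, IsIntegral ℚ (x i)) :
    ∃ (L : Type) (_ : Field L) (_ : NumberField L) (_ : IsGalois ℚ L) (e : L →+* ℂ) (t : ι → L), ∀ i, e (t i) = x i := by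
  obtain ⟨L, hL1, hL2, hL3⟩ := exists_gal ℚ ℂ x hx
  obtain ⟨h1, h2⟩ := transfer L _ hL1 hL2
  exact ⟨L, inferInstance, h1, h2, algebraMap L ℂ, fun i => ⟨x i, hL3 i⟩, fun i => rfl⟩

namespace IntegralModularDatum

variable {I : Type} [Fintype I] [DecidableEq I] (M : IntegralModularDatum I)

/-- the `S`-matrix over a field -/
structure IsReal {F : Type} [Field F] (t : I → I → F) : Prop where
  t_unit : ∀ i, t M.unit i = (M.d i : F)
  t_symm : ∀ i j, t i j = t j i
  t_dual : ∀ i j, t (M.dual i) j = t i (M.dual j)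
  t_dual2 : ∀ i j, t (M.dual i) (M.dual j) = t i j
  verl : ∀ i j l, t i l * t j l = (M.d l : F) * ∑ k, (M.N i j k : F) * t k l
  orth : ∀ i j, ∑ l, t i l * t (M.dual j) l = if i = j then (M.gdim : F) else 0

theorem isReal_s : M.IsReal M.s where
  t_unit := M.s_unit
  t_symm := M.s_symm
  t_dual i j := by rw [M.s_dual, M.s_symm i (M.dual j), M.s_dual, M.s_symm j i]
  t_dual2 i j := by rw [M.s_dual, M.s_symm i (M.dual j), M.s_dual, M.s_symm j i, Complex.conj_conj]
  verl := M.verlinde
  orth i j := by
    simp_rw [M.s_dual]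
    exact M.orth i j

theorem isReal_of {L : Type} [Field L] (e : L →+* ℂ) (t : I → I → L) (ht : ∀ i j, e (t i j) = M.s i j) : M.IsReal t where
  t_unit i := e.injective (by rw [ht, M.isReal_s.t_unit, map_natCast])
  t_symm i j := e.injective (by rw [ht, ht, M.isReal_s.t_symm])
  t_dual i j := e.injective (by rw [ht, ht, M.isReal_s.t_dual])
  t_dual2 i j := e.injective (by rw [ht, ht, M.isReal_s.t_dual2])
  verl i j l := e.injective (by
    rw [map_mul, map_mul, map_sum, map_natCast, ht, ht, M.verlinde]
    congr 1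
    refine Finset.sum_congr rfl fun k _ => ?_
    rw [map_mul, map_natCast, ht])
  orth i j := e.injective (by
    rw [map_sum]
    have h := M.isReal_s.orth i j
    calc ∑ l, e (t i l * t (M.dual j) l) = ∑ l, M.s i l * M.s (M.dual j) l :=
          Finset.sum_congr rfl fun l _ => by rw [map_mul, ht, ht]
      _ = if i = j then (M.gdim : ℂ) else 0 := h
      _ = e (if i = j then (M.gdim : L) else 0) := by split_ifs <;> simp)

theorem N_comm (i j k : I) : M.N i j k = M.N j i k := by
  have hg : (M.gdim : ℂ) ≠ 0 := by exact_mod_cast M.gdim_pos.ne'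
  have h3 : (M.gdim : ℂ) * M.N i j k = (M.gdim : ℂ) * M.N j i k := by
    rw [M.coeff, M.coeff]
    exact Finset.sum_congr rfl fun x _ => by ring
  exact_mod_cast mul_left_cancel₀ hg h3

section
variable {F : Type} [Field F] [CharZero F] {M} {t : I → I → F} (hR : M.IsReal t)
include hR

theorem d_neF (i : I) : (M.d i : F) ≠ 0 := Nat.cast_ne_zero.2 (M.d_pos i).ne'

theorem verl' (i j l : I) : ∑ k, (M.N i j k : F) * t k l = t i l * t j l / M.d l := by
  rw [eq_div_iff (d_neF hR l), mul_comm, ← hR.verl]

/-- every ring homomorphism of the fusion ring is given by a column of the `S`-matrix -/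
theorem hom_eq (φ : I → F) (h1 : φ M.unit = 1) (hm : ∀ i j, φ i * φ j = ∑ k, (M.N i j k : F) * φ k) :
    ∃ l, ∀ i, φ i = t i l / M.d l := by
  have hD : (M.gdim : F) ≠ 0 := Nat.cast_ne_zero.2 M.gdim_pos.ne'
  let c : I → F := fun l => ∑ k, φ k * t (M.dual k) l
  have hc : ∃ l, c l ≠ 0 := by
    by_contra hcon
    push Not at hcon
    have h2 : ∑ l, c l * t M.unit l = φ M.unit * M.gdim := by
      have e1 : ∀ l, c l * t M.unit l = ∑ k, φ k * (t M.unit l * t (M.dual k) l) := by
        intro l
        show (∑ k, φ k * t (M.dual k) l) * t M.unit l = _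
        rw [Finset.sum_mul]
        exact Finset.sum_congr rfl fun k _ => by ring
      simp_rw [e1]
      rw [Finset.sum_comm]
      simp_rw [← Finset.mul_sum, hR.orth]
      simp
    rw [h1, one_mul] at h2
    apply hD
    rw [← h2]
    exact Finset.sum_eq_zero fun l _ => by rw [hcon l, zero_mul]
  obtain ⟨l, hl⟩ := hc
  refine ⟨l, fun i => ?_⟩
  have key : φ i * c l = t i l / M.d l * c l := by
    have e1 : φ i * c l = ∑ m, φ m * ∑ k, (M.N i k m : F) * t (M.dual k) l := by
      show φ i * (∑ k, φ k * t (M.dual k) l) = _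
      rw [Finset.mul_sum]
      have e2 : ∀ k, φ i * (φ k * t (M.dual k) l) = ∑ m, (M.N i k m : F) * φ m * t (M.dual k) l := by
        intro k
        rw [← mul_assoc, hm, Finset.sum_mul]
      simp_rw [e2]
      rw [Finset.sum_comm]
      refine Finset.sum_congr rfl fun m _ => ?_
      rw [Finset.mul_sum]
      exact Finset.sum_congr rfl fun k _ => by ring
    have e3 : ∀ m, ∑ k, (M.N i k m : F) * t (M.dual k) l = t i l / M.d l * t (M.dual m) l := by
      intro m
      have e4 : ∀ k, (M.N i k m : F) * t (M.dual k) l = (M.N m (M.dual i) k : F) * t k (M.dual l) := by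
        intro k
        rw [hR.t_dual, M.N_recip m i k, M.N_comm i k m]
      simp_rw [e4]
      rw [verl' hR, hR.t_dual2, M.d_dual, hR.t_dual]
      ring
    rw [e1]
    simp_rw [e3]
    show _ = t i l / M.d l * (∑ k, φ k * t (M.dual k) l)
    rw [Finset.mul_sum]
    exact Finset.sum_congr rfl fun m _ => by ring
  exact mul_right_cancel₀ hl key

theorem col_inj {l l' : I} (h : ∀ i, t i l / M.d l = t i l' / M.d l') : l = l' := by
  have hD : (M.gdim : F) ≠ 0 := Nat.cast_ne_zero.2 M.gdim_pos.ne'
  by_contra hne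
  have h1 := hR.orth l l
  have h2 := hR.orth l l'
  rw [if_pos rfl] at h1
  rw [if_neg hne] at h2
  have e : ∀ i, t (M.dual l) i = M.d l / M.d l' * t (M.dual l') i := by
    intro i
    rw [hR.t_dual l i, hR.t_symm l (M.dual i), hR.t_dual l' i, hR.t_symm l' (M.dual i)]
    have h3 := h (M.dual i)
    rw [div_eq_iff (d_neF hR l)] at h3
    rw [h3]
    ring
  apply hD
  rw [← h1]
  calc ∑ i, t l i * t (M.dual l) i = M.d l / M.d l' * ∑ i, t l i * t (M.dual l') i := by
        rw [Finset.mul_sum]
        exact Finset.sum_congr rfl fun i _ => by rw [e i]; ring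
    _ = 0 := by rw [h2, mul_zero]

theorem norm_col (l : I) : ∑ i, t i l / M.d l * (t (M.dual i) l / M.d l) = M.gdim / (M.d l : F) ^ 2 := by
  have h := hR.orth l l
  rw [if_pos rfl] at h
  rw [← h, Finset.sum_div]
  refine Finset.sum_congr rfl fun i _ => ?_
  rw [hR.t_symm i l, hR.t_dual i l, hR.t_symm i (M.dual l)]
  ring

end

/-- a ring homomorphism permutes the columns -/
theorem exists_perm {F G : Type} [Field F] [CharZero F] [Field G] [CharZero G] {t : I → I → F} {u : I → I → G}
    (hR : M.IsReal t) (hR' : M.IsReal u) (σ : F →+* G) (j : I) :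
    ∃ l, M.d l = M.d j ∧ ∀ i, σ (t i j) = u i l := by
  obtain ⟨l, hl⟩ := hom_eq hR' (fun i => σ (t i j / M.d j)) (by
    rw [hR.t_unit, div_self (d_neF hR j), map_one]) (by
    intro i i'
    have h : t i j / M.d j * (t i' j / M.d j) = ∑ k, (M.N i i' k : F) * (t k j / M.d j) := by
      have e : ∑ k, (M.N i i' k : F) * (t k j / M.d j) = (∑ k, (M.N i i' k : F) * t k j) / M.d j := by
        rw [Finset.sum_div]
        exact Finset.sum_congr rfl fun k _ => by ring
      rw [e, verl' hR]
      ring
    rw [← map_mul, h, map_sum]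
    refine Finset.sum_congr rfl fun k _ => ?_
    rw [map_mul, map_natCast])
  have hd : M.d l = M.d j := by
    have h1 := congrArg σ (norm_col hR j)
    rw [map_sum, map_div₀, map_natCast, map_pow, map_natCast] at h1
    have h2 := norm_col hR' l
    have h3 : (M.gdim : G) / (M.d l : G) ^ 2 = M.gdim / (M.d j : G) ^ 2 := by
      rw [← h1, ← h2]
      refine Finset.sum_congr rfl fun i _ => ?_
      rw [map_mul, hl, hl]
    have hD : (M.gdim : G) ≠ 0 := Nat.cast_ne_zero.2 M.gdim_pos.ne'
    have h4 : (M.d l : G) ^ 2 = (M.d j : G) ^ 2 := by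
      have a := d_neF hR' l
      have b := d_neF hR' j
      rw [div_eq_div_iff (pow_ne_zero 2 a) (pow_ne_zero 2 b)] at h3
      exact (mul_left_cancel₀ hD h3).symm
    have h5 : M.d l ^ 2 = M.d j ^ 2 := by exact_mod_cast h4
    exact Nat.pow_left_injective (two_ne_zero) h5
  refine ⟨l, hd, fun i => ?_⟩
  have h1 := hl i
  rw [map_div₀, map_natCast, hd] at h1
  exact (div_left_inj' (d_neF hR' j)).1 h1

/-- the `S`-matrix has algebraic integer characters -/
theorem isIntegral_char (i j : I) : IsIntegral ℤ (M.s i j / M.d j) := by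
  refine isIntegral_of_smul_mem_submodule (M := ℂ) (Submodule.span ℤ (Set.range fun k => M.s k j)) ?_ ?_ _ ?_
  · intro h
    have h1 : M.s M.unit j ∈ Submodule.span ℤ (Set.range fun k => M.s k j) := Submodule.subset_span ⟨_, rfl⟩
    rw [h, Submodule.mem_bot, M.s_unit] at h1
    exact M.d_ne j h1
  · exact Submodule.fg_span (Set.finite_range _)
  · intro n hn
    induction hn using Submodule.span_induction with
    | mem x hx =>
      obtain ⟨k, rfl⟩ := hx
      have h1 : (M.s i j / M.d j) • M.s k j = ∑ m, (M.N i k m : ℤ) • M.s m j := by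
        have := M.sumN i k j
        rw [smul_eq_mul]
        calc M.s i j / M.d j * M.s k j = M.s i j * M.s k j / M.d j := by ring
          _ = ∑ m, (M.N i k m : ℂ) * M.s m j := this.symm
          _ = _ := Finset.sum_congr rfl fun m _ => by rw [zsmul_eq_mul, Int.cast_natCast]
      rw [h1]
      exact Submodule.sum_mem _ fun m _ => Submodule.smul_mem _ _ (Submodule.subset_span ⟨m, rfl⟩)
    | zero =>
      rw [smul_zero]
      exact Submodule.zero_mem _
    | add x y _ _ hx hy =>
      rw [smul_add]
      exact Submodule.add_mem _ hx hy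
    | smul a x _ hx =>
      rw [smul_comm]
      exact Submodule.smul_mem _ _ hx

/-- the number field and the `S`-matrix over it -/
theorem exists_real : ∃ (L : Type) (_ : Field L) (_ : NumberField L) (_ : IsGalois ℚ L) (e : L →+* ℂ) (t : I → I → L),
    (∀ i j, e (t i j) = M.s i j) ∧ M.IsReal t ∧ ∀ i j, IsIntegral ℤ (t i j / M.d j) := by
  obtain ⟨L, h1, h2, h3, e, t, ht⟩ := exists_field (fun x : I × I => M.s x.1 x.2) (by
    rintro ⟨i, j⟩
    have h : M.s i j = M.s i j / M.d j * M.d j := by
      rw [div_mul_cancel₀ _ (M.d_ne j)]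
    show IsIntegral ℚ (M.s i j)
    rw [h]
    refine IsIntegral.mul ?_ ?_
    · exact (M.isIntegral_char i j).tower_top
    · have h0 : IsIntegral ℤ ((M.d j : ℂ)) := by
        have := isIntegral_algebraMap (R := ℤ) (A := ℂ) (x := (M.d j : ℤ))
        simpa using this
      exact h0.tower_top)
  refine ⟨L, h1, h2, h3, e, fun i j => t (i, j), fun i j => ht (i, j), M.isReal_of e _ fun i j => ht (i, j), fun i j => ?_⟩
  have h4 := M.isIntegral_char i j
  have h5 : e (t (i, j) / M.d j) = M.s i j / M.d j := by
    rw [map_div₀, map_natCast, ht]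
  rw [← h5] at h4
  exact (isIntegral_algHom_iff (RingHom.toIntAlgHom e) e.injective).1 h4

end IntegralModularDatum

end Pool.Agent.Helper46.WG
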