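import Pool.Agent.Helper46.WG.L3

/-!
# Integral modular data (MP_2b6189_al), part 4: the Galois action
-/

set_option autoImplicit false

open scoped BigOperators ComplexConjugate
open Finset Polynomial NumberField

namespace Pool.Agent.Helper46.WG

namespace IntegralModularDatum

variable {I : Type} [Fintype I] [DecidableEq I] {M : IntegralModularDatum I}

section
variable {L : Type} [Field L] [CharZero L] {t : I → I → L} (hR : M.IsReal t)
include hR

theorem col_inj' {l l' : I} (hd : M.d l = M.d l') (h : ∀ i, t i l = t i l') : l = l' := by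
  refine col_inj hR fun i => ?_
  rw [h i, hd]

theorem row_inj {l l' : I} (hd : M.d l = M.d l') (h : ∀ i, t l i = t l' i) : l = l' := by
  refine col_inj' hR hd fun i => ?_
  rw [hR.t_symm, h, hR.t_symm]

theorem t_unit' (i : I) : t i M.unit = (M.d i : L) := by
  rw [hR.t_symm, hR.t_unit]

theorem dual_unit : M.dual M.unit = M.unit := by
  refine row_inj hR (M.d_dual _) fun i => ?_
  rw [hR.t_dual, hR.t_unit, hR.t_unit, M.d_dual]

theorem dual_dual (i : I) : M.dual (M.dual i) = i := by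
  refine row_inj hR (by rw [M.d_dual, M.d_dual]) fun j => ?_
  rw [hR.t_dual, hR.t_dual2]

theorem sum_row (i : I) : ∑ l, (M.d l : L) * t i l = if i = M.unit then (M.gdim : L) else 0 := by
  have h := hR.orth i M.unit
  rw [dual_unit hR] at h
  rw [← h]
  refine Finset.sum_congr rfl fun l _ => ?_
  rw [hR.t_unit, mul_comm]

end

section
variable {L : Type} [Field L] [NumberField L] [IsGalois ℚ L] {t : I → I → L} (hR : M.IsReal t)
include hR

/-- the Galois action -/
noncomputable def act (σ : L ≃ₐ[ℚ] L) (j : I) : I :=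
  Classical.choose (M.exists_perm hR hR (σ : L →+* L) j)

theorem d_act (σ : L ≃ₐ[ℚ] L) (j : I) : M.d (act hR σ j) = M.d j :=
  (Classical.choose_spec (M.exists_perm hR hR (σ : L →+* L) j)).1

theorem t_act (σ : L ≃ₐ[ℚ] L) (i j : I) : σ (t i j) = t i (act hR σ j) :=
  (Classical.choose_spec (M.exists_perm hR hR (σ : L →+* L) j)).2 i

theorem t_act' (σ : L ≃ₐ[ℚ] L) (i j : I) : σ (t i j) = t (act hR σ i) j := by
  rw [hR.t_symm, t_act hR, hR.t_symm]

/-- the Galois group acts on the set of the simple objects -/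
noncomputable def galAct : MulAction (L ≃ₐ[ℚ] L) I where
  smul σ j := act hR σ j
  one_smul j := by
    show act hR 1 j = j
    refine col_inj' hR (d_act hR _ _) fun i => ?_
    rw [← t_act hR]
    rfl
  mul_smul σ τ j := by
    show act hR (σ * τ) j = act hR σ (act hR τ j)
    refine col_inj' hR (by rw [d_act, d_act, d_act]) fun i => ?_
    rw [← t_act hR, ← t_act hR, ← t_act hR]
    rfl

theorem act_unit (σ : L ≃ₐ[ℚ] L) : act hR σ M.unit = M.unit := by
  refine col_inj' hR (d_act hR _ _) fun i => ?_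
  rw [← t_act hR, t_unit' hR, map_natCast]

theorem act_dual (σ : L ≃ₐ[ℚ] L) (i : I) : act hR σ (M.dual i) = M.dual (act hR σ i) := by
  refine row_inj hR (by rw [d_act, M.d_dual, M.d_dual, d_act]) fun j => ?_
  rw [← t_act' hR, hR.t_dual, hR.t_dual, t_act' hR]

theorem coeffL (i j k : I) : (M.gdim : L) * M.N i j k = ∑ l, t i l * t j l * t (M.dual k) l / M.d l := by
  have h1 : ∀ l, t i l * t j l * t (M.dual k) l / M.d l = ∑ m, (M.N i j m : L) * (t m l * t (M.dual k) l) := by
    intro l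
    rw [hR.verl]
    have := d_neF (M := M) hR l
    rw [Finset.mul_sum, Finset.sum_mul, Finset.sum_div]
    refine Finset.sum_congr rfl fun m _ => ?_
    field_simp
  simp_rw [h1]
  rw [Finset.sum_comm]
  simp_rw [← Finset.mul_sum, hR.orth]
  simp [mul_comm]

theorem N_act (σ : L ≃ₐ[ℚ] L) (i V : I) : M.N (act hR σ i) (M.dual (act hR σ i)) (act hR σ V) = M.N i (M.dual i) V := by
  have hg : (M.gdim : L) ≠ 0 := by exact_mod_cast M.gdim_pos.ne'
  have h1 : (M.gdim : L) * M.N (act hR σ i) (M.dual (act hR σ i)) (act hR σ V) =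
      (M.gdim : L) * M.N i (M.dual i) V := by
    have h2 := congrArg σ (coeffL hR i (M.dual i) V)
    rw [map_mul, map_natCast, map_natCast, map_sum] at h2
    rw [h2, coeffL hR]
    refine Finset.sum_congr rfl fun l _ => ?_
    rw [map_div₀, map_mul, map_mul, map_natCast, ← act_dual hR, ← act_dual hR, t_act' hR, t_act' hR, t_act' hR]
  exact_mod_cast mul_left_cancel₀ hg h1

theorem norm_t_le (e' : L →+* ℂ) (i j : I) : ‖e' (t i j)‖ ≤ (M.d i : ℝ) * M.d j := by
  obtain ⟨l, h1, h2⟩ := M.exists_perm hR M.isReal_s e' j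
  rw [h2 i, ← h1]
  exact M.norm_s_le i l

end

/-- an algebraic integer with all conjugates of absolute value less than one is zero -/
theorem eq_zero_of_norm {L : Type} [Field L] [NumberField L] (z : 𝓞 L) (h : ∀ e : L →+* ℂ, ‖e (z : L)‖ < 1) : z = 0 := by
  have h1 := Algebra.norm_eq_prod_embeddings ℚ ℂ (z : L)
  have h2 : ‖(algebraMap ℚ ℂ) (Algebra.norm ℚ (z : L))‖ < 1 := by
    rw [h1, norm_prod]
    classical
    let e0 : L →ₐ[ℚ] ℂ := IsAlgClosed.lift
    calc ∏ σ : L →ₐ[ℚ] ℂ, ‖σ (z : L)‖ ≤ ‖e0 (z : L)‖ := by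
          rw [← Finset.mul_prod_erase Finset.univ _ (Finset.mem_univ e0)]
          exact mul_le_of_le_one_right (norm_nonneg _) (Finset.prod_le_one (fun σ _ => norm_nonneg _)
            fun σ _ => (h σ.toRingHom).le)
      _ < 1 := h e0.toRingHom
  have h3 : ((Algebra.norm ℤ z : ℤ) : ℚ) = Algebra.norm ℚ (z : L) := Algebra.coe_norm_int z
  rw [← h3] at h2
  have h4 : ‖((Algebra.norm ℤ z : ℤ) : ℂ)‖ < 1 := by simpa using h2
  rw [Complex.norm_intCast] at h4
  have h5 : |Algebra.norm ℤ z| < 1 := by exact_mod_cast h4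
  have h6 : Algebra.norm ℤ z = 0 := by
    rw [abs_lt] at h5
    omega
  exact Algebra.norm_eq_zero_iff.1 h6

/-- a nonzero algebraic integer with all conjugates in the closed unit disc has absolute value one -/
theorem norm_eq_one_of_le {L : Type} [Field L] [NumberField L] (z : 𝓞 L) (hz : z ≠ 0)
    (h : ∀ e : L →+* ℂ, ‖e (z : L)‖ ≤ 1) (e0 : L →+* ℂ) : ‖e0 (z : L)‖ = 1 := by
  have h1 := Algebra.norm_eq_prod_embeddings ℚ ℂ (z : L)
  have h3 : ((Algebra.norm ℤ z : ℤ) : ℚ) = Algebra.norm ℚ (z : L) := Algebra.coe_norm_int z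
  have h6 : Algebra.norm ℤ z ≠ 0 := fun h => hz (Algebra.norm_eq_zero_iff.1 h)
  have h7 : (1 : ℝ) ≤ ‖(algebraMap ℚ ℂ) (Algebra.norm ℚ (z : L))‖ := by
    rw [← h3]
    have h8 : (algebraMap ℚ ℂ) ((Algebra.norm ℤ z : ℤ) : ℚ) = ((Algebra.norm ℤ z : ℤ) : ℂ) := by simp
    rw [h8, Complex.norm_intCast]
    exact_mod_cast Int.one_le_abs h6
  rw [h1, norm_prod] at h7
  classical
  let e1 : L →ₐ[ℚ] ℂ := e0.toRatAlgHom
  have h9 : ∏ σ : L →ₐ[ℚ] ℂ, ‖σ (z : L)‖ ≤ ‖e1 (z : L)‖ := by
    rw [← Finset.mul_prod_erase Finset.univ _ (Finset.mem_univ e1)]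
    exact mul_le_of_le_one_right (norm_nonneg _) (Finset.prod_le_one (fun σ _ => norm_nonneg _)
      fun σ _ => h σ.toRingHom)
  exact le_antisymm (h e0) (h7.trans h9)

end IntegralModularDatum

end Pool.Agent.Helper46.WG
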