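import Pool.Agent.Helper46.WG.L4

/-!
# Integral modular data (MP_2b6189_al), part 5: characters modulo a prime
-/

set_option autoImplicit false

open scoped BigOperators ComplexConjugate
open Finset Polynomial NumberField IsDedekindDomain

namespace Pool.Agent.Helper46.WG

/-- a function separating a set: algebra spanned by the rows of `c` -/
theorem exists_sep {I k : Type} [Fintype I] [DecidableEq I] [Field k] (u : I) (d : I → k) (N : I → I → I → ℕ)
    (c : I → I → k) (h1 : ∀ j, c u j = 1) (hm : ∀ i j l, c i l * c j l = ∑ m, (N i j m : k) * c m l)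
    (E : Finset I) (hE : ∀ j, j ∈ E ↔ ∀ i, c i j = d i) :
    ∃ a : I → k, ∀ j, ∑ i, a i * c i j = if j ∈ E then 1 else 0 := by
  classical
  -- products
  have hprod : ∀ a b : I → k, ∃ e : I → k, ∀ j, ∑ i, e i * c i j = (∑ i, a i * c i j) * (∑ i, b i * c i j) := by
    intro a b
    refine ⟨fun m => ∑ i, ∑ i', a i * b i' * (N i i' m : k), fun j => ?_⟩
    rw [Finset.sum_mul_sum]
    simp_rw [Finset.sum_mul]
    rw [Finset.sum_comm]
    refine Finset.sum_congr rfl fun i _ => ?_
    rw [Finset.sum_comm]
    refine Finset.sum_congr rfl fun i' _ => ?_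
    calc ∑ m, a i * b i' * (N i i' m : k) * c m j = a i * b i' * ∑ m, (N i i' m : k) * c m j := by
          rw [Finset.mul_sum]
          exact Finset.sum_congr rfl fun m _ => by ring
      _ = a i * c i j * (b i' * c i' j) := by
          rw [← hm]
          ring
  -- one
  have hone : ∃ a : I → k, ∀ j, ∑ i, a i * c i j = 1 := by
    refine ⟨fun i => if i = u then 1 else 0, fun j => ?_⟩
    simp [h1]
  -- killing one column
  have hkill : ∀ j0, j0 ∉ E → ∃ a : I → k, (∀ j ∈ E, ∑ i, a i * c i j = 1) ∧ ∑ i, a i * c i j0 = 0 := by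
    intro j0 hj0
    rw [hE] at hj0
    push Not at hj0
    obtain ⟨i0, hi0⟩ := hj0
    have hne : d i0 - c i0 j0 ≠ 0 := sub_ne_zero.2 (Ne.symm hi0)
    have key : ∀ j, ∑ i, ((if i = i0 then (d i0 - c i0 j0)⁻¹ else 0) + (if i = u then -(c i0 j0) * (d i0 - c i0 j0)⁻¹ else 0)) *
        c i j = (c i0 j - c i0 j0) * (d i0 - c i0 j0)⁻¹ := by
      intro j
      simp_rw [add_mul, ite_mul, zero_mul]
      rw [Finset.sum_add_distrib, Finset.sum_ite_eq' Finset.univ i0, Finset.sum_ite_eq' Finset.univ u,
        if_pos (Finset.mem_univ _), if_pos (Finset.mem_univ _), h1]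
      ring
    refine ⟨fun i => (if i = i0 then (d i0 - c i0 j0)⁻¹ else 0) +
      (if i = u then -(c i0 j0) * (d i0 - c i0 j0)⁻¹ else 0), fun j hj => ?_, ?_⟩
    · rw [key, (hE j).1 hj i0]
      exact mul_inv_cancel₀ hne
    · rw [key, sub_self, zero_mul]
  -- killing a set of columns
  have hall : ∀ S : Finset I, (∀ j ∈ S, j ∉ E) → ∃ a : I → k, (∀ j ∈ E, ∑ i, a i * c i j = 1) ∧
      ∀ j ∈ S, ∑ i, a i * c i j = 0 := by
    intro S
    induction S using Finset.induction_on with
    | empty =>
      intro _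
      obtain ⟨a, ha⟩ := hone
      exact ⟨a, fun j _ => ha j, fun j hj => absurd hj (Finset.notMem_empty j)⟩
    | insert j0 S _ ih =>
      intro hS
      obtain ⟨a, ha, ha'⟩ := ih fun j hj => hS j (Finset.mem_insert_of_mem hj)
      obtain ⟨b, hb, hb'⟩ := hkill j0 (hS j0 (Finset.mem_insert_self _ _))
      obtain ⟨e, he⟩ := hprod a b
      refine ⟨e, fun j hj => by rw [he, ha j hj, hb j hj, one_mul], fun j hj => ?_⟩
      rw [he]
      rcases Finset.mem_insert.1 hj with rfl | hj
      · rw [hb', mul_zero]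
      · rw [ha' j hj, zero_mul]
  obtain ⟨a, ha, ha'⟩ := hall (Finset.univ.filter fun j => j ∉ E) fun j hj => (Finset.mem_filter.1 hj).2
  refine ⟨a, fun j => ?_⟩
  split_ifs with hj
  · exact ha j hj
  · exact ha' j (Finset.mem_filter.2 ⟨Finset.mem_univ _, hj⟩)

namespace IntegralModularDatum

variable {I : Type} [Fintype I] [DecidableEq I] {M : IntegralModularDatum I}

/-- The residue characteristic `p` is larger than the square of all dimensions and divides the global dimension: for a
simple datum all characters are congruent to the dimension. -/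
theorem cong_all (hsim : M.Simple) {p : ℕ} (hp : p.Prime) (hpD : p ∣ M.gdim) (hbd : ∀ i j, M.d i * M.d j < p)
    {k : Type} [Field k] [CharP k p] (c : I → I → k) (hcu : ∀ j, c M.unit j = 1)
    (hm : ∀ i j l, c i l * c j l = ∑ m, (M.N i j m : k) * c m l)
    (hsw : ∀ i j, (M.d j : k) * c i j = (M.d i : k) * c j i) (hdual : ∀ i j, c (M.dual i) j = c i (M.dual j))
    (hsum : ∀ i, ∑ j, (M.d j : k) ^ 2 * c i j = if i = M.unit then (M.gdim : k) else 0) :
    ∀ i j, c i j = M.d i := by
  classical
  set E : Finset I := Finset.univ.filter fun j => ∀ i, c i j = M.d i with hEdef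
  have hE : ∀ j, j ∈ E ↔ ∀ i, c i j = M.d i := by
    intro j
    rw [hEdef, Finset.mem_filter]
    simp
  have hd0 : ∀ i, (M.d i : k) ≠ 0 := by
    intro i h
    rw [CharP.cast_eq_zero_iff k p] at h
    have h1 := hbd i M.unit
    rw [M.d_unit, mul_one] at h1
    exact absurd (Nat.le_of_dvd (M.d_pos i) h) (by omega)
  have hsw' : ∀ i j, c i j = (M.d i : k) * c j i / M.d j := by
    intro i j
    rw [eq_div_iff (hd0 j), mul_comm, hsw]
  have h1E : M.unit ∈ E := by
    rw [hE]
    intro i
    rw [hsw' i M.unit, hcu, M.d_unit]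
    simp
  obtain ⟨a, ha⟩ := exists_sep M.unit (fun i => (M.d i : k)) M.N c hcu hm E hE
  -- the sum over `E`
  have hs : ∑ j ∈ E, (M.d j : k) ^ 2 = 0 := by
    have e1 : ∑ j, (M.d j : k) ^ 2 * ∑ i, a i * c i j = ∑ j ∈ E, (M.d j : k) ^ 2 := by
      simp_rw [ha]
      simp
    rw [← e1]
    have e2 : ∑ j, (M.d j : k) ^ 2 * ∑ i, a i * c i j = ∑ i, a i * ∑ j, (M.d j : k) ^ 2 * c i j := by
      simp_rw [Finset.mul_sum]
      rw [Finset.sum_comm]
      exact Finset.sum_congr rfl fun i _ => Finset.sum_congr rfl fun j _ => by ring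
    rw [e2]
    simp_rw [hsum]
    have h0 : (M.gdim : k) = 0 := (CharP.cast_eq_zero_iff k p _).2 hpD
    simp [h0]
  have hs' : p ∣ ∑ j ∈ E, M.d j ^ 2 := by
    rw [← CharP.cast_eq_zero_iff k p]
    push_cast
    exact hs
  -- `E` is a fusion subset
  have hF : M.IsFusion E := by
    refine ⟨h1E, ?_, ?_⟩
    · intro j hj
      rw [hE] at hj ⊢
      intro i
      rw [← hdual, hj, M.d_dual]
    · intro j hj j' hj' u hu
      by_contra huE
      rw [hE] at hj hj'
      -- `∑_u N_u c i u * d u ...`
      have e1 : ∀ i, ∑ u, (M.N j j' u : k) * (M.d u * c i u) = (M.d i : k) * (M.d j * M.d j') := by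
        intro i
        have h2 := hm j j' i
        have h3 : ∀ u, (M.N j j' u : k) * (M.d u * c i u) = (M.d i : k) * ((M.N j j' u : k) * c u i) := by
          intro u
          rw [hsw i u]
          ring
        simp_rw [h3]
        rw [← Finset.mul_sum, ← h2, hsw' j i, hsw' j' i, hj i, hj' i]
        have := hd0 i
        field_simp
      have e2 : ∑ i, a i * ∑ u, (M.N j j' u : k) * (M.d u * c i u) = ∑ u ∈ E, (M.N j j' u : k) * M.d u := by
        have e3 : ∑ i, a i * ∑ u, (M.N j j' u : k) * (M.d u * c i u) =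
            ∑ u, (M.N j j' u : k) * M.d u * ∑ i, a i * c i u := by
          simp_rw [Finset.mul_sum]
          rw [Finset.sum_comm]
          exact Finset.sum_congr rfl fun i _ => Finset.sum_congr rfl fun u _ => by ring
        rw [e3]
        simp_rw [ha]
        simp
      have e4 : ∑ i, a i * ((M.d i : k) * (M.d j * M.d j')) = (M.d j : k) * M.d j' := by
        have e5 := ha M.unit
        rw [if_pos h1E] at e5
        have e6 : ∑ i, a i * (M.d i : k) = 1 := by
          rw [← e5]
          refine Finset.sum_congr rfl fun i _ => ?_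
          rw [(hE M.unit).1 h1E i]
        calc ∑ i, a i * ((M.d i : k) * (M.d j * M.d j')) = (∑ i, a i * (M.d i : k)) * (M.d j * M.d j') := by
              rw [Finset.sum_mul]
              exact Finset.sum_congr rfl fun i _ => by ring
          _ = _ := by rw [e6, one_mul]
      simp_rw [e1] at e2
      rw [e4] at e2
      -- compare
      have e7 : (∑ u, M.N j j' u * M.d u) = M.d j * M.d j' := M.sumN_d j j'
      have e8 : ∑ u ∈ E, M.N j j' u * M.d u + ∑ u ∈ Finset.univ \ E, M.N j j' u * M.d u = M.d j * M.d j' := by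
        rw [← e7, add_comm]
        exact Finset.sum_sdiff (Finset.subset_univ E)
      have e9 : ((∑ u ∈ Finset.univ \ E, M.N j j' u * M.d u : ℕ) : k) = 0 := by
        have h4 := congrArg (Nat.cast : ℕ → k) e8
        push_cast at h4 ⊢
        rw [← e2] at h4
        exact add_eq_left.1 h4
      rw [CharP.cast_eq_zero_iff k p] at e9
      have e10 : M.N j j' u * M.d u ≤ ∑ u ∈ Finset.univ \ E, M.N j j' u * M.d u :=
        Finset.single_le_sum (f := fun u => M.N j j' u * M.d u) (fun _ _ => Nat.zero_le _)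
          (Finset.mem_sdiff.2 ⟨Finset.mem_univ _, huE⟩)
      have e11 : 0 < M.N j j' u * M.d u := Nat.mul_pos (Nat.pos_of_ne_zero hu) (M.d_pos u)
      have e12 := Nat.le_of_dvd (lt_of_lt_of_le e11 e10) e9
      have e13 := hbd j j'
      omega
  rcases hsim E hF with h | h
  · rw [h, Finset.sum_singleton, M.d_unit, one_pow] at hs'
    have := hp.two_le
    exact absurd (Nat.le_of_dvd one_pos hs') (by omega)
  · intro i j
    exact (hE j).1 (by rw [h]; exact Finset.mem_univ j) i

end IntegralModularDatum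

end Pool.Agent.Helper46.WG
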