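import Mathlib

/-!
# Integral modular data (MP_2b6189_al), part 6: divisibility by `p` of elements fixed by the inertia groups above `p`
-/

set_option autoImplicit false

open scoped BigOperators
open NumberField IsDedekindDomain

namespace Pool.Agent.Helper46.WG

/-- the order of `a` at the place `v` -/
noncomputable def ordW {A F : Type} [CommRing A] [IsDedekindDomain A] [Field F] [Algebra A F] [IsFractionRing A F]
    (v : HeightOneSpectrum A) (a : F) : ℤ := -WithZero.log (v.valuation F a)

/-- the order of the image of an element of the smaller field -/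
theorem ordW_liesOver {A K L B : Type} [CommRing A] [IsDedekindDomain A] [CommRing B] [IsDedekindDomain B] [Algebra A B]
    [Module.IsTorsionFree A B] [Field K] [Field L] [Algebra K L] [Algebra A K] [IsFractionRing A K] [Algebra A L]
    [IsScalarTower A K L] [Algebra B L] [IsFractionRing B L] [IsScalarTower A B L] (v : HeightOneSpectrum A)
    (w : HeightOneSpectrum B) (h : w.asIdeal.LiesOver v.asIdeal) (x : K) :
    ordW w (algebraMap K L x) = (v.asIdeal.ramificationIdx' w.asIdeal : ℤ) * ordW v x := by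
  have := h
  have h1 := HeightOneSpectrum.valuation_liesOver (K := K) L v w x
  unfold ordW
  rw [← h1, WithZero.log_pow]
  simp

/-- the ramification index is the order of the inertia group -/
theorem ram_eq {A B : Type} (G : Type) [CommRing A] [IsDedekindDomain A] [CommRing B] [IsDedekindDomain B] [Algebra A B]
    [Module.Finite A B] [Module.IsTorsionFree A B] [Group G] [Finite G] [MulSemiringAction G B] [IsGaloisGroup G A B]
    (v : HeightOneSpectrum A) (w : HeightOneSpectrum B) (h : w.asIdeal.LiesOver v.asIdeal) (hfin : Finite (A ⧸ v.asIdeal)) :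
    v.asIdeal.ramificationIdx' w.asIdeal = Nat.card (w.asIdeal.inertia G) := by
  have := h
  have : v.asIdeal.IsPrime := v.isPrime
  have : v.asIdeal.IsMaximal := v.isMaximal
  have : w.asIdeal.IsPrime := w.isPrime
  have : Finite v.asIdeal.ResidueField :=
    Finite.of_surjective _ (Ideal.bijective_algebraMap_quotient_residueField v.asIdeal).surjective
  rw [Ideal.card_inertia_eq_ramificationIdxIn v.asIdeal w.asIdeal,
    Ideal.ramificationIdxIn_eq_ramificationIdx v.asIdeal w.asIdeal G,
    Ideal.ramificationIdx'_eq_ramificationIdx v.asIdeal w.asIdeal v.ne_bot]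

/-- the inertia group of `v` -/
def inertiaOf (L : Type) [Field L] [NumberField L] (v : HeightOneSpectrum (𝓞 L)) : Subgroup (L ≃ₐ[ℚ] L) :=
  v.asIdeal.inertia (L ≃ₐ[ℚ] L)

theorem ord_dvd (L : Type) [Field L] [NumberField L] [IsGalois ℚ L] (v : HeightOneSpectrum (𝓞 L)) (p : ℕ) (hp : p.Prime)
    (hpv : (p : 𝓞 L) ∈ v.asIdeal) (y : L) (hy : ∀ τ ∈ inertiaOf L v, τ y = y) : ordW v (p : L) ∣ ordW v y := by
  classical
  let J : Subgroup (L ≃ₐ[ℚ] L) := inertiaOf L v
  let M : IntermediateField ℚ L := IntermediateField.fixedField J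
  have hyM : y ∈ M := by
    rw [IntermediateField.mem_fixedField_iff]
    intro τ hτ
    exact hy τ hτ
  have hvp := v.isPrime
  let q : HeightOneSpectrum (𝓞 M) := ⟨v.asIdeal.under (𝓞 M), inferInstance, by
    intro h0
    exact v.ne_bot (Ideal.eq_bot_of_comap_eq_bot h0)⟩
  have hq : v.asIdeal.LiesOver q.asIdeal := ⟨rfl⟩
  have hpp : Prime (p : ℤ) := Nat.prime_iff_prime_int.1 hp
  let r : HeightOneSpectrum ℤ := ⟨Ideal.span {(p : ℤ)}, (Ideal.span_singleton_prime hpp.ne_zero).2 hpp, by
    rw [Ne, Ideal.span_singleton_eq_bot]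
    exact hpp.ne_zero⟩
  have hr : v.asIdeal.LiesOver r.asIdeal := by
    refine (Ideal.liesOver_span_iff Ideal.IsPrime.ne_top' hpp).2 ?_
    simpa using hpv
  have e1 := ram_eq (L ≃ₐ[ℚ] L) r v hr (by
    exact Ring.HasFiniteQuotients.finiteQuotient r.ne_bot)
  have e2 := ram_eq (L ≃ₐ[M] L) q v hq (by
    exact Ring.HasFiniteQuotients.finiteQuotient q.ne_bot)
  have e3 : Nat.card (v.asIdeal.inertia (L ≃ₐ[M] L)) = Nat.card J := by
    have h1 : v.asIdeal.inertia (L ≃ₐ[M] L) = ⊤ := by
      rw [eq_top_iff]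
      intro σ _
      have h2 : AlgEquiv.restrictScalars ℚ σ ∈ J := by
        rw [← IntermediateField.fixingSubgroup_fixedField J, IntermediateField.mem_fixingSubgroup_iff]
        intro x hx
        exact σ.commutes ⟨x, hx⟩
      intro a
      exact h2 a
    rw [h1, Subgroup.card_top, IsGalois.card_aut_eq_finrank]
    exact IntermediateField.finrank_fixedField_eq_card J
  have o1 := ordW_liesOver (K := ℚ) (L := L) r v hr (p : ℚ)
  have o2 := ordW_liesOver (K := M) (L := L) q v hq ⟨y, hyM⟩
  have o3 : ordW r (p : ℚ) = 1 := by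
    unfold ordW
    have h1 : (p : ℚ) = algebraMap ℤ ℚ (p : ℤ) := by simp
    rw [h1, HeightOneSpectrum.valuation_of_algebraMap, r.intValuation_singleton hpp.ne_zero rfl]
    simp
  rw [map_natCast, e1, o3, mul_one] at o1
  rw [e2, e3] at o2
  rw [o1]
  have o4 : ordW v y = (Nat.card J : ℤ) * ordW q (⟨y, hyM⟩ : M) := o2
  rw [o4]
  exact Dvd.intro _ rfl

/-- An algebraic integer which is in all primes above `p` and fixed by all inertia groups above `p` is divisible by `p`. -/
theorem dvd_of_inertia (L : Type) [Field L] [NumberField L] [IsGalois ℚ L] (p : ℕ) (hp : p.Prime) (y : 𝓞 L)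
    (h1 : ∀ v : HeightOneSpectrum (𝓞 L), (p : 𝓞 L) ∈ v.asIdeal → y ∈ v.asIdeal)
    (h2 : ∀ v : HeightOneSpectrum (𝓞 L), (p : 𝓞 L) ∈ v.asIdeal → ∀ τ ∈ inertiaOf L v, τ (y : L) = y) :
    (p : 𝓞 L) ∣ y := by
  classical
  by_cases hy0 : y = 0
  · rw [hy0]
    exact dvd_zero _
  have hyL : (y : L) ≠ 0 := by
    intro h
    exact hy0 (by exact_mod_cast h)
  have hp0 : (p : L) ≠ 0 := Nat.cast_ne_zero.2 hp.ne_zero
  have key : ∀ v : HeightOneSpectrum (𝓞 L), v.valuation L ((y : L) / p) ≤ 1 := by
    intro v
    have hvp : v.valuation L (p : L) ≠ 0 := (Valuation.ne_zero_iff _).2 hp0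
    have hvy : v.valuation L (y : L) ≠ 0 := (Valuation.ne_zero_iff _).2 hyL
    rw [map_div₀]
    have e : (p : L) = algebraMap (𝓞 L) L (p : 𝓞 L) := by simp
    have e' : (y : L) = algebraMap (𝓞 L) L y := rfl
    by_cases hpv : (p : 𝓞 L) ∈ v.asIdeal
    · have hd := ord_dvd L v p hp hpv (y : L) (h2 v hpv)
      have hy1 : v.valuation L (y : L) < 1 := by
        rw [e']
        exact (v.valuation_lt_one_iff_mem y).2 (h1 v hpv)
      have hp1 : v.valuation L (p : L) < 1 := by
        rw [e]
        exact (v.valuation_lt_one_iff_mem _).2 hpv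
      have ly : WithZero.log (v.valuation L (y : L)) < 0 := by
        rw [← WithZero.exp_zero (M := ℤ)] at hy1
        exact (WithZero.log_lt_iff_lt_exp hvy).2 hy1
      have hle : ordW v (p : L) ≤ ordW v (y : L) := by
        refine Int.le_of_dvd ?_ hd
        unfold ordW
        omega
      unfold ordW at hle
      have hle' : WithZero.log (v.valuation L (y : L)) ≤ WithZero.log (v.valuation L (p : L)) := by omega
      have hvle : v.valuation L (y : L) ≤ v.valuation L (p : L) := (WithZero.log_le_log hvy hvp).1 hle'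
      exact (div_le_one₀ (zero_lt_iff.2 hvp)).2 hvle
    · have h3 : v.valuation L (p : L) = 1 := by
        rw [e]
        exact (HeightOneSpectrum.valuation_eq_one_iff_notMem v).2 hpv
      rw [h3, div_one, e']
      exact v.valuation_le_one y
  obtain ⟨w, hw⟩ := HeightOneSpectrum.mem_integers_of_valuation_le_one L ((y : L) / p) key
  refine ⟨w, ?_⟩
  apply RingOfIntegers.ext
  have hw' : (w : L) = (y : L) / p := hw
  have h5 : (((p : 𝓞 L) * w : 𝓞 L) : L) = (p : L) * (w : L) := by simp
  rw [h5, hw']
  field_simp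

end Pool.Agent.Helper46.WG
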