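import Pool.Agent.Helper46.WG.L5
import Pool.Agent.Helper46.WG.L6

/-!
# Integral modular data (MP_2b6189_al), part 7: large orbits of the group generated by the inertia groups
-/

set_option autoImplicit false

open scoped BigOperators ComplexConjugate
open Finset Polynomial NumberField IsDedekindDomain

namespace Pool.Agent.Helper46.WG

namespace IntegralModularDatum

variable {I : Type} [Fintype I] [DecidableEq I] (M : IntegralModularDatum I)

/-- the square of the dimension of a simple object divides the global dimension -/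
theorem sq_dvd (i : I) : M.d i ^ 2 ∣ M.gdim := by
  have h1 := norm_col (M.isReal_s) i
  have h2 : IsIntegral ℤ ((M.gdim : ℂ) / (M.d i : ℂ) ^ 2) := by
    rw [← h1]
    exact IsIntegral.sum _ fun k _ => (M.isIntegral_char k i).mul (M.isIntegral_char _ i)
  have h3 : ((M.gdim : ℂ) / (M.d i : ℂ) ^ 2) = algebraMap ℚ ℂ ((M.gdim : ℚ) / (M.d i : ℚ) ^ 2) := by simp
  rw [h3, isIntegral_algebraMap_iff (algebraMap ℚ ℂ).injective] at h2
  obtain ⟨z, hz⟩ := IsIntegrallyClosed.isIntegral_iff.1 h2
  have h4 : (M.d i : ℚ) ≠ 0 := Nat.cast_ne_zero.2 (M.d_pos i).ne'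
  have h5 : (M.gdim : ℚ) = (M.d i : ℚ) ^ 2 * z := by
    have h6 : (z : ℚ) = (M.gdim : ℚ) / (M.d i : ℚ) ^ 2 := by simpa using hz
    rw [h6]
    field_simp
  have h6 : ((M.gdim : ℕ) : ℤ) = ((M.d i ^ 2 : ℕ) : ℤ) * z := by
    have : ((M.gdim : ℕ) : ℚ) = ((M.d i ^ 2 : ℕ) : ℚ) * z := by
      rw [h5]
      push_cast
      ring
    exact_mod_cast this
  exact Int.natCast_dvd_natCast.1 ⟨z, h6⟩

variable {M}

/-- a field of residue characteristic `p` -/
theorem charP_quot {L : Type} [Field L] [NumberField L] {p : ℕ} (hp : p.Prime) (v : HeightOneSpectrum (𝓞 L))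
    (hv : (p : 𝓞 L) ∈ v.asIdeal) : CharP (𝓞 L ⧸ v.asIdeal) p := by
  have hvp := v.isPrime
  obtain ⟨q, hq⟩ := CharP.exists (𝓞 L ⧸ v.asIdeal)
  have h1 : ((p : ℕ) : 𝓞 L ⧸ v.asIdeal) = 0 := by
    have h2 : Ideal.Quotient.mk v.asIdeal (p : 𝓞 L) = 0 := Ideal.Quotient.eq_zero_iff_mem.2 hv
    rw [map_natCast] at h2
    exact h2
  have h3 : q ∣ p := (CharP.cast_eq_zero_iff (𝓞 L ⧸ v.asIdeal) q p).1 h1
  rcases (Nat.dvd_prime hp).1 h3 with h4 | h4
  · exact absurd h4 (CharP.char_ne_one (𝓞 L ⧸ v.asIdeal) q)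
  · rw [← h4]
    exact hq

section
variable {L : Type} [Field L] [NumberField L] [IsGalois ℚ L] {t : I → I → L} (hR : M.IsReal t)
  (hint : ∀ i j, IsIntegral ℤ (t i j / M.d j))

/-- the characters as algebraic integers -/
def xx (hint : ∀ i j, IsIntegral ℤ (t i j / M.d j)) (i j : I) : 𝓞 L := ⟨t i j / M.d j, hint i j⟩

omit [NumberField L] [IsGalois ℚ L] in
theorem coe_xx (i j : I) : algebraMap (𝓞 L) L (xx hint i j) = t i j / M.d j := rfl

include hR in
omit [IsGalois ℚ L] in
/-- congruence of all characters with the dimensions modulo all primes above `p` -/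
theorem cong_v (hsim : M.Simple) {p : ℕ} (hp : p.Prime) (hpD : p ∣ M.gdim) (hbd : ∀ i j, M.d i * M.d j < p)
    (v : HeightOneSpectrum (𝓞 L)) (hv : (p : 𝓞 L) ∈ v.asIdeal) (i j : I) :
    (M.d i : 𝓞 L) - xx hint i j ∈ v.asIdeal := by
  have hmax : v.asIdeal.IsMaximal := v.isMaximal
  letI : Field (𝓞 L ⧸ v.asIdeal) := Ideal.Quotient.field v.asIdeal
  have hch : CharP (𝓞 L ⧸ v.asIdeal) p := charP_quot hp v hv
  have key := cong_all (M := M) hsim hp hpD hbd (fun i j => Ideal.Quotient.mk v.asIdeal (xx hint i j)) ?_ ?_ ?_ ?_ ?_ i j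
  · rw [← Ideal.Quotient.eq_zero_iff_mem, map_sub, map_natCast, sub_eq_zero]
    exact key.symm
  · intro j
    have h : xx hint M.unit j = 1 := by
      apply RingOfIntegers.coe_injective
      rw [coe_xx, hR.t_unit, div_self (d_neF hR j)]
      simp
    show Ideal.Quotient.mk v.asIdeal (xx hint M.unit j) = 1
    rw [h, map_one]
  · intro i j l
    have h : xx hint i l * xx hint j l = ∑ m, (M.N i j m : 𝓞 L) * xx hint m l := by
      apply RingOfIntegers.coe_injective
      have e1 : algebraMap (𝓞 L) L (∑ m, (M.N i j m : 𝓞 L) * xx hint m l) = ∑ m, (M.N i j m : L) * (t m l / M.d l) := by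
        rw [map_sum]
        refine Finset.sum_congr rfl fun m _ => ?_
        rw [map_mul, coe_xx, map_natCast]
      have e2 : algebraMap (𝓞 L) L (xx hint i l * xx hint j l) = t i l / M.d l * (t j l / M.d l) := by
        rw [map_mul, coe_xx, coe_xx]
      rw [e1, e2]
      have e3 : ∑ m, (M.N i j m : L) * (t m l / M.d l) = (∑ m, (M.N i j m : L) * t m l) / M.d l := by
        rw [Finset.sum_div]
        exact Finset.sum_congr rfl fun m _ => by ring
      rw [e3, verl' hR]
      ring
    show Ideal.Quotient.mk v.asIdeal (xx hint i l) * Ideal.Quotient.mk v.asIdeal (xx hint j l) = _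
    rw [← map_mul, h, map_sum]
    refine Finset.sum_congr rfl fun m _ => ?_
    rw [map_mul, map_natCast]
  · intro i j
    have h : (M.d j : 𝓞 L) * xx hint i j = (M.d i : 𝓞 L) * xx hint j i := by
      apply RingOfIntegers.coe_injective
      rw [map_mul, map_mul, coe_xx, coe_xx, map_natCast, map_natCast, hR.t_symm j i]
      have := d_neF hR i
      have := d_neF hR j
      field_simp
    show ((M.d j : ℕ) : 𝓞 L ⧸ v.asIdeal) * Ideal.Quotient.mk v.asIdeal (xx hint i j) =
      ((M.d i : ℕ) : 𝓞 L ⧸ v.asIdeal) * Ideal.Quotient.mk v.asIdeal (xx hint j i)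
    have h2 := congrArg (Ideal.Quotient.mk v.asIdeal) h
    rw [map_mul, map_mul, map_natCast, map_natCast] at h2
    exact h2
  · intro i j
    have h : xx hint (M.dual i) j = xx hint i (M.dual j) := by
      apply RingOfIntegers.coe_injective
      rw [coe_xx, coe_xx, hR.t_dual, M.d_dual]
    show Ideal.Quotient.mk v.asIdeal (xx hint (M.dual i) j) = Ideal.Quotient.mk v.asIdeal (xx hint i (M.dual j))
    rw [h]
  · intro i
    have h : ∑ j, (M.d j : 𝓞 L) ^ 2 * xx hint i j = if i = M.unit then (M.gdim : 𝓞 L) else 0 := by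
      apply RingOfIntegers.coe_injective
      rw [map_sum]
      have e1 : ∀ j, (algebraMap (𝓞 L) L) ((M.d j : 𝓞 L) ^ 2 * xx hint i j) = (M.d j : L) * t i j := by
        intro j
        rw [map_mul, map_pow, map_natCast, coe_xx]
        have := d_neF hR j
        field_simp
      simp_rw [e1]
      rw [sum_row hR]
      split_ifs <;> simp
    show ∑ j, ((M.d j : ℕ) : 𝓞 L ⧸ v.asIdeal) ^ 2 * Ideal.Quotient.mk v.asIdeal (xx hint i j) = _
    have h2 := congrArg (Ideal.Quotient.mk v.asIdeal) h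
    rw [map_sum] at h2
    have e2 : ∀ j, (Ideal.Quotient.mk v.asIdeal) ((M.d j : 𝓞 L) ^ 2 * xx hint i j) =
        ((M.d j : ℕ) : 𝓞 L ⧸ v.asIdeal) ^ 2 * Ideal.Quotient.mk v.asIdeal (xx hint i j) := by
      intro j
      rw [map_mul, map_pow, map_natCast]
    simp_rw [e2] at h2
    rw [h2]
    split_ifs <;> simp

end

end IntegralModularDatum

end Pool.Agent.Helper46.WG
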