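import Pool.Agent.Helper46.WG.L7

/-!
# Integral modular data (MP_2b6189_al), part 8: the orbits of the group generated by the inertia groups are large
-/

set_option autoImplicit false

open scoped BigOperators ComplexConjugate
open Finset Polynomial NumberField IsDedekindDomain

namespace Pool.Agent.Helper46.WG

/-- the group generated by the inertia groups above `p` -/
def Kp (L : Type) [Field L] [NumberField L] (p : ℕ) : Subgroup (L ≃ₐ[ℚ] L) :=
  Subgroup.closure {τ | ∃ v : HeightOneSpectrum (𝓞 L), (p : 𝓞 L) ∈ v.asIdeal ∧ τ ∈ inertiaOf L v}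

/-- a complex number near a real one -/
theorem norm_one_sub_lt {W : ℂ} {p a : ℝ} (hp : 0 < p) (ha : 0 ≤ a) (hap : a < p) (hW : W ≠ 0)
    (h : ‖(a : ℂ) - p * W‖ ≤ a) : ‖1 - W‖ < 1 := by
  have h1 : ‖(a : ℂ) - p * W‖ ^ 2 ≤ a ^ 2 := pow_le_pow_left₀ (norm_nonneg _) h 2
  rw [← Complex.normSq_eq_norm_sq, Complex.normSq_apply] at h1
  have e1 : ((a : ℂ) - p * W).re = a - p * W.re := by simp
  have e2 : ((a : ℂ) - p * W).im = -(p * W.im) := by simp
  rw [e1, e2] at h1
  have h2 : 0 < W.re ^ 2 + W.im ^ 2 := by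
    have h3 : 0 < Complex.normSq W := Complex.normSq_pos.2 hW
    rw [Complex.normSq_apply] at h3
    nlinarith
  have h3 : p * (p * (W.re ^ 2 + W.im ^ 2)) ≤ p * (2 * a * W.re) := by nlinarith
  have h4 : p * (W.re ^ 2 + W.im ^ 2) ≤ 2 * a * W.re := le_of_mul_le_mul_left h3 hp
  have h5 : 0 < 2 * a * W.re := lt_of_lt_of_le (mul_pos hp h2) h4
  have h6 : 0 < W.re := by
    by_contra hcon
    push Not at hcon
    have : 2 * a * W.re ≤ 0 := mul_nonpos_of_nonneg_of_nonpos (by positivity) hcon
    linarith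
  have h7 : ‖1 - W‖ ^ 2 < 1 := by
    rw [← Complex.normSq_eq_norm_sq, Complex.normSq_apply]
    have e3 : (1 - W).re = 1 - W.re := by simp
    have e4 : (1 - W).im = -W.im := by simp
    rw [e3, e4]
    have h8 : p * (W.re ^ 2 + W.im ^ 2) < p * (2 * W.re) := by nlinarith
    have h9 := lt_of_mul_lt_mul_left h8 hp.le
    nlinarith
  by_contra hcon
  push Not at hcon
  have : 1 ≤ ‖1 - W‖ ^ 2 := by nlinarith
  linarith

namespace IntegralModularDatum

variable {I : Type} [Fintype I] [DecidableEq I] {M : IntegralModularDatum I}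

section
variable {L : Type} [Field L] [NumberField L] [IsGalois ℚ L] {t : I → I → L} (hR : M.IsReal t)

/-- the orbit of `V` -/
noncomputable def orb (p : ℕ) (V : I) : Finset I := by
  classical
  exact Finset.univ.filter fun X => ∃ h ∈ Kp L p, act hR h V = X

theorem mem_orb {p : ℕ} {V X : I} : X ∈ orb hR p V ↔ ∃ h ∈ Kp L p, act hR h V = X := by
  classical
  unfold orb
  simp

theorem self_mem_orb (p : ℕ) (V : I) : V ∈ orb hR p V :=
  (mem_orb hR).2 ⟨1, Subgroup.one_mem _, (galAct hR).one_smul V⟩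

theorem act_mul (σ τ : L ≃ₐ[ℚ] L) (V : I) : act hR (σ * τ) V = act hR σ (act hR τ V) := (galAct hR).mul_smul σ τ V

theorem act_one (V : I) : act hR 1 V = V := (galAct hR).one_smul V

theorem act_inv_act (σ : L ≃ₐ[ℚ] L) (V : I) : act hR σ⁻¹ (act hR σ V) = V := by
  rw [← act_mul, inv_mul_cancel, act_one]

theorem act_act_inv (σ : L ≃ₐ[ℚ] L) (V : I) : act hR σ (act hR σ⁻¹ V) = V := by
  rw [← act_mul, mul_inv_cancel, act_one]

/-- the permutation given by a Galois automorphism -/
noncomputable def perm (σ : L ≃ₐ[ℚ] L) : I ≃ I where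
  toFun := act hR σ
  invFun := act hR σ⁻¹
  left_inv := act_inv_act hR σ
  right_inv := act_act_inv hR σ

theorem act_mem_orb {p : ℕ} {V : I} {τ : L ≃ₐ[ℚ] L} (hτ : τ ∈ Kp L p) (X : I) :
    X ∈ orb hR p V ↔ act hR τ X ∈ orb hR p V := by
  rw [mem_orb, mem_orb]
  constructor
  · rintro ⟨h, hh, rfl⟩
    exact ⟨τ * h, Subgroup.mul_mem _ hτ hh, act_mul hR _ _ _⟩
  · rintro ⟨h, hh, he⟩
    exact ⟨τ⁻¹ * h, Subgroup.mul_mem _ (Subgroup.inv_mem _ hτ) hh, by rw [act_mul, he, act_inv_act]⟩

theorem d_orb {p : ℕ} {V X : I} (h : X ∈ orb hR p V) : M.d X = M.d V := by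
  obtain ⟨h, _, rfl⟩ := (mem_orb hR).1 h
  exact d_act hR _ _

theorem unit_notMem_orb {p : ℕ} {V : I} (hV : V ≠ M.unit) : M.unit ∉ orb hR p V := by
  intro h
  obtain ⟨h, _, he⟩ := (mem_orb hR).1 h
  apply hV
  rw [← act_inv_act hR h V, he, act_unit]

/-- all nontrivial orbits are large -/
theorem orb_large (e : L →+* ℂ) (he : ∀ i j, e (t i j) = M.s i j) (hint : ∀ i j, IsIntegral ℤ (t i j / M.d j))
    (hsim : M.Simple) (hnp : ¬ M.Pointed) {p : ℕ} (hp : p.Prime) (hpD : p ∣ M.gdim) (hbd : ∀ i j, M.d i * M.d j < p)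
    {V : I} (hV : V ≠ M.unit) : p ≤ (orb hR p V).card * M.d V := by
  by_contra hcon
  push Not at hcon
  set O := orb hR p V with hO
  set a : ℕ := O.card * M.d V with ha
  have hsumd : ∑ X ∈ O, M.d X = a := by
    rw [Finset.sum_congr rfl (fun X hX => d_orb hR (hO ▸ hX)), Finset.sum_const, smul_eq_mul]
  have hpR : (0 : ℝ) < p := Nat.cast_pos.2 hp.pos
  -- the orbit sums
  let y : I → 𝓞 L := fun Y => ∑ X ∈ O, xx hint X Y
  have hy : ∀ Y, algebraMap (𝓞 L) L (y Y) = ∑ X ∈ O, t X Y / M.d Y := by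
    intro Y
    show algebraMap (𝓞 L) L (∑ X ∈ O, xx hint X Y) = _
    rw [map_sum]
    rfl
  have hdvd : ∀ Y, (p : 𝓞 L) ∣ (a : 𝓞 L) - y Y := by
    intro Y
    refine dvd_of_inertia L p hp _ ?_ ?_
    · intro v hv
      have e1 : (a : 𝓞 L) - y Y = ∑ X ∈ O, ((M.d X : 𝓞 L) - xx hint X Y) := by
        rw [Finset.sum_sub_distrib, ← hsumd]
        push_cast
        rfl
      rw [e1]
      exact Ideal.sum_mem _ fun X _ => cong_v hR hint hsim hp hpD hbd v hv X Y
    · intro v hv τ hτ
      have hτK : τ ∈ Kp L p := Subgroup.subset_closure ⟨v, hv, hτ⟩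
      show τ (algebraMap (𝓞 L) L ((a : 𝓞 L) - y Y)) = algebraMap (𝓞 L) L ((a : 𝓞 L) - y Y)
      rw [map_sub, map_natCast, hy, map_sub, map_natCast, map_sum]
      congr 1
      have e2 : ∀ X, τ (t X Y / M.d Y) = t (act hR τ X) Y / M.d Y := by
        intro X
        rw [map_div₀, map_natCast, t_act' hR]
      simp_rw [e2]
      exact Finset.sum_equiv (perm hR τ) (fun X => act_mem_orb hR hτK X) (fun X _ => rfl)
  choose w hw using hdvd
  have hybd : ∀ (e' : L →+* ℂ) (Y : I), ‖e' (algebraMap (𝓞 L) L (y Y))‖ ≤ a := by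
    intro e' Y
    rw [hy, map_sum]
    refine (norm_sum_le _ _).trans ?_
    rw [← hsumd]
    push_cast
    refine Finset.sum_le_sum fun X _ => ?_
    rw [map_div₀, map_natCast, norm_div, Complex.norm_natCast, div_le_iff₀ (Nat.cast_pos.2 (M.d_pos Y))]
    exact norm_t_le hR e' X Y
  have hw01 : ∀ Y, w Y = 0 ∨ w Y = 1 := by
    intro Y
    by_cases hw0 : w Y = 0
    · exact Or.inl hw0
    · right
      have h1 : 1 - w Y = 0 := by
        refine eq_zero_of_norm _ fun e' => ?_
        show ‖e' (algebraMap (𝓞 L) L (1 - w Y))‖ < 1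
        rw [map_sub, map_sub, map_one, map_one]
        refine norm_one_sub_lt hpR (Nat.cast_nonneg a) (Nat.cast_lt.2 hcon) ?_ ?_
        · intro h2
          apply hw0
          have h3 : algebraMap (𝓞 L) L (w Y) = 0 := by
            rw [← map_zero e'] at h2
            exact e'.injective h2
          rw [← map_zero (algebraMap (𝓞 L) L)] at h3
          exact RingOfIntegers.coe_injective h3
        · have h2 := congrArg (fun z => e' (algebraMap (𝓞 L) L z)) (hw Y)
          simp only [map_sub, map_mul, map_natCast] at h2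
          push_cast
          rw [← h2]
          have h3 : (a : ℂ) - ((a : ℂ) - e' (algebraMap (𝓞 L) L (y Y))) = e' (algebraMap (𝓞 L) L (y Y)) := by ring
          rw [h3]
          exact hybd e' Y
      exact (sub_eq_zero.1 h1).symm
  have hcent : M.cent O = {M.unit} := by
    rcases hsim _ (M.cent_fusion O) with h | h
    · exact h
    · exfalso
      apply hV
      have h1 : V ∈ M.cent Finset.univ := by
        rw [← h]
        exact M.sub_cent_cent O (self_mem_orb hR p V)
      rw [M.cent_univ, Finset.mem_singleton] at h1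
      exact h1
  -- `w Y = 0` only for the unit
  have hw0 : ∀ Y, w Y = 0 → Y = M.unit := by
    intro Y hY
    have h1 := hw Y
    rw [hY, mul_zero, sub_eq_zero] at h1
    have h2 := congrArg (fun z => e (algebraMap (𝓞 L) L z)) h1
    simp only [map_natCast, hy, map_sum, map_div₀, he] at h2
    have h3 : ∑ X ∈ O, M.s X Y = (a : ℂ) * M.d Y := by
      rw [h2, Finset.sum_mul]
      refine Finset.sum_congr rfl fun X _ => ?_
      rw [div_mul_cancel₀ _ (M.d_ne Y)]
    have h4 : Y ∈ M.cent O := by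
      rw [mem_cent]
      intro X hX
      have h5 := M.eq_of_sum (a := fun k => if k ∈ O then 1 else 0) (l := Y) (k := X) (by
        have e1 : ∑ k, (((if k ∈ O then 1 else 0 : ℕ)) : ℂ) * M.s k Y = ∑ X ∈ O, M.s X Y := by
          simp
        have e2 : ∑ k, (((if k ∈ O then 1 else 0 : ℕ)) : ℝ) * (M.d k * M.d Y) = (a : ℝ) * M.d Y := by
          rw [← hsumd]
          push_cast
          rw [Finset.sum_mul]
          simp
        rw [e1, e2, h3]
        have e3 : (a : ℂ) * M.d Y = ((a * M.d Y : ℕ) : ℂ) := by push_cast; rfl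
        rw [e3, Complex.natCast_re]
        push_cast
        rfl) (by rw [if_pos hX]; exact one_ne_zero)
      rw [M.s_symm, h5, mul_comm]
    rw [hcent, Finset.mem_singleton] at h4
    exact h4
  have hyv : ∀ Y, algebraMap (𝓞 L) L (y Y) = (a : L) - p + if Y = M.unit then (p : L) else 0 := by
    intro Y
    by_cases hY : Y = M.unit
    · rw [if_pos hY, hy, hY, sub_add_cancel, ← hsumd]
      push_cast
      refine Finset.sum_congr rfl fun X _ => ?_
      rw [t_unit' hR, M.d_unit, Nat.cast_one, div_one]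
    · rw [if_neg hY, add_zero]
      have h1 := hw Y
      rcases hw01 Y with h2 | h2
      · exact absurd (hw0 Y h2) hY
      · rw [h2, mul_one] at h1
        have h3 := congrArg (algebraMap (𝓞 L) L) h1
        rw [map_sub, map_natCast, map_natCast] at h3
        rw [← h3]
        ring
  have hsum0 : ∑ Y, (M.d Y : L) ^ 2 * algebraMap (𝓞 L) L (y Y) = 0 := by
    simp_rw [hy, Finset.mul_sum]
    rw [Finset.sum_comm]
    refine Finset.sum_eq_zero fun X hX => ?_
    have h1 := sum_row hR X
    rw [if_neg (fun h => unit_notMem_orb hR hV (h ▸ hX))] at h1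
    rw [← h1]
    refine Finset.sum_congr rfl fun Y _ => ?_
    have := d_neF hR Y
    field_simp
  have hfin : (M.gdim : L) * (a - p) + p = 0 := by
    rw [← hsum0]
    simp_rw [hyv, mul_add]
    rw [Finset.sum_add_distrib]
    have e1 : ∑ Y, (M.d Y : L) ^ 2 * ((a : L) - p) = (M.gdim : L) * (a - p) := by
      unfold gdim
      push_cast
      rw [Finset.sum_mul]
    rw [e1]
    simp [M.d_unit]
  have hfin' : (M.gdim : ℤ) * (p - a) = p := by
    have h1 : (((M.gdim : ℤ) * (p - a) : ℤ) : L) = ((p : ℤ) : L) := by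
      push_cast
      linear_combination -hfin
    exact_mod_cast h1
  have hgp : M.gdim ∣ p := Int.natCast_dvd_natCast.1 ⟨_, hfin'.symm⟩
  apply hnp
  intro i
  have h1 : M.d i ^ 2 ∣ p := (M.sq_dvd i).trans hgp
  rcases (Nat.dvd_prime hp).1 ((dvd_pow_self _ two_ne_zero).trans h1) with h2 | h2
  · exact h2
  · rw [h2] at h1
    have h3 := Nat.le_of_dvd hp.pos h1
    have h4 := hp.two_le
    nlinarith

end

end IntegralModularDatum

end Pool.Agent.Helper46.WG
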