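import Pool.Agent.Helper46.WG.L8

/-!
# Integral modular data (MP_2b6189_al), part 9: a simple datum has no large prime
-/

set_option autoImplicit false

open scoped BigOperators ComplexConjugate
open Finset Polynomial NumberField IsDedekindDomain

namespace Pool.Agent.Helper46.WG

namespace IntegralModularDatum

variable {I : Type} [Fintype I] [DecidableEq I] {M : IntegralModularDatum I}

section
variable {L : Type} [Field L] [NumberField L] [IsGalois ℚ L] {t : I → I → L} (hR : M.IsReal t)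

/-- orbit counting -/
theorem orb_count [Fintype (L ≃ₐ[ℚ] L)] (f : I → ℕ) (p : ℕ) (V : I) (K : Finset (L ≃ₐ[ℚ] L)) (hK : ∀ h, h ∈ K ↔ h ∈ Kp L p) :
    (∑ h ∈ K, f (act hR h⁻¹ V)) * (orb hR p V).card = K.card * ∑ X ∈ orb hR p V, f X := by
  classical
  set O := orb hR p V with hO
  have h1 : ∑ h ∈ K, f (act hR h⁻¹ V) = ∑ h ∈ K, f (act hR h V) := by
    refine Finset.sum_bij' (fun h _ => h⁻¹) (fun h _ => h⁻¹) ?_ ?_ ?_ ?_ ?_
    · intro h hh
      rw [hK] at hh ⊢
      exact Subgroup.inv_mem _ hh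
    · intro h hh
      rw [hK] at hh ⊢
      exact Subgroup.inv_mem _ hh
    · intro h _
      exact inv_inv h
    · intro h _
      exact inv_inv h
    · intro h _
      rfl
  have hmap : ∀ h ∈ K, act hR h V ∈ O := fun h hh => (mem_orb hR).2 ⟨h, (hK h).1 hh, rfl⟩
  let c : ℕ := (K.filter fun h => act hR h V = V).card
  have hc : ∀ X ∈ O, (K.filter fun h => act hR h V = X).card = c := by
    intro X hX
    obtain ⟨h0, hh0, rfl⟩ := (mem_orb hR).1 hX
    refine Finset.card_bij' (fun h _ => h0⁻¹ * h) (fun h _ => h0 * h) ?_ ?_ ?_ ?_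
    · intro h hh
      obtain ⟨ha, hb⟩ := Finset.mem_filter.1 hh
      rw [hK] at ha
      refine Finset.mem_filter.2 ⟨(hK _).2 (Subgroup.mul_mem _ (Subgroup.inv_mem _ hh0) ha), ?_⟩
      rw [act_mul, hb, act_inv_act]
    · intro h hh
      obtain ⟨ha, hb⟩ := Finset.mem_filter.1 hh
      rw [hK] at ha
      refine Finset.mem_filter.2 ⟨(hK _).2 (Subgroup.mul_mem _ hh0 ha), ?_⟩
      rw [act_mul, hb]
    · intro h _
      exact mul_inv_cancel_left h0 h
    · intro h _
      exact inv_mul_cancel_left h0 h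
  have h2 : ∑ h ∈ K, f (act hR h V) = c * ∑ X ∈ O, f X := by
    rw [← Finset.sum_fiberwise_of_maps_to hmap, Finset.mul_sum]
    refine Finset.sum_congr rfl fun X hX => ?_
    rw [← hc X hX, Finset.sum_congr rfl (fun h hh => by rw [(Finset.mem_filter.1 hh).2]), Finset.sum_const, smul_eq_mul]
  have h3 : K.card = O.card * c := by
    rw [Finset.card_eq_sum_card_fiberwise hmap, Finset.sum_congr rfl hc, Finset.sum_const, smul_eq_mul]
  rw [h1, h2, h3]
  ring

end

theorem common_ge {X : I} (hX : ∀ i, M.d i ≤ M.d X) (W : I) :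
    M.d W ≤ ∑ V, M.N X (M.dual X) V * M.N W (M.dual W) V := by
  have h1 : ∑ V, M.N X (M.dual X) V * M.N W (M.dual W) V = ∑ Z, M.N X W Z ^ 2 := M.toMD.sum_common X W
  have h2 := M.sumN_d X W
  have h3 : ∑ Z, M.N X W Z * M.d Z ≤ (∑ Z, M.N X W Z ^ 2) * M.d X := by
    rw [Finset.sum_mul]
    refine Finset.sum_le_sum fun Z _ => Nat.mul_le_mul ?_ (hX Z)
    exact Nat.le_self_pow two_ne_zero _
  rw [h1]
  rw [h2, mul_comm (M.d X)] at h3
  exact Nat.le_of_mul_le_mul_right h3 (M.d_pos X)

/-- **Theorem R.** A simple integral modular datum which is not pointed has no prime divisor of the global dimension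
which is larger than the squares of the dimensions. -/
theorem no_large_prime (hsim : M.Simple) (hnp : ¬ M.Pointed) {p : ℕ} (hp : p.Prime) (hpD : p ∣ M.gdim)
    (hbd : ∀ i j, M.d i * M.d j < p) : False := by
  classical
  obtain ⟨L, _, _, _, e, t, he, hR, hint⟩ := M.exists_real
  -- no nontrivial object of dimension one
  have hinv : M.inv = {M.unit} := by
    rcases hsim _ M.inv_fusion with h | h
    · exact h
    · exfalso
      apply hnp
      intro i
      have : i ∈ M.inv := by rw [h]; exact Finset.mem_univ _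
      exact (Finset.mem_filter.1 this).2
  have hd2 : ∀ V, V ≠ M.unit → 2 ≤ M.d V := by
    intro V hV
    by_contra hcon
    have h1 := M.d_pos V
    have h2 : V ∈ M.inv := Finset.mem_filter.2 ⟨Finset.mem_univ _, by omega⟩
    rw [hinv, Finset.mem_singleton] at h2
    exact hV h2
  -- the objects
  obtain ⟨X, -, hX⟩ := Finset.exists_max_image (Finset.univ : Finset I) (fun k => M.d k) ⟨M.unit, Finset.mem_univ _⟩
  replace hX : ∀ i, M.d i ≤ M.d X := fun i => hX i (Finset.mem_univ i)
  have hne : (Finset.univ.filter fun V => V ≠ M.unit).Nonempty := by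
    by_contra hcon
    apply hnp
    intro i
    by_contra hi
    apply hcon
    refine ⟨i, Finset.mem_filter.2 ⟨Finset.mem_univ _, ?_⟩⟩
    rintro rfl
    exact hi M.d_unit
  obtain ⟨W, hW1, hW⟩ := Finset.exists_min_image (Finset.univ.filter fun V => V ≠ M.unit) (fun k => M.d k) hne
  have hW1 : W ≠ M.unit := (Finset.mem_filter.1 hW1).2
  replace hW : ∀ V, V ≠ M.unit → M.d W ≤ M.d V := fun V hV => hW V (Finset.mem_filter.2 ⟨Finset.mem_univ _, hV⟩)
  have hw2 := hd2 W hW1
  set k := M.d X with hk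
  set w := M.d W with hw
  let g : I → ℕ := fun V => M.N W (M.dual W) V
  let f : I → ℕ := fun V => M.N X (M.dual X) V
  let U : Finset I := Finset.univ.erase M.unit
  have hUne : ∀ V ∈ U, V ≠ M.unit := fun V hV => Finset.ne_of_mem_erase hV
  -- dimension counts
  have hg : ∑ V ∈ U, g V * M.d V + 1 = w ^ 2 := by
    have h1 := M.sumN_d W (M.dual W)
    rw [M.d_dual] at h1
    have h2 := Finset.sum_erase_add Finset.univ (fun V => M.N W (M.dual W) V * M.d V) (Finset.mem_univ M.unit)
    rw [h1] at h2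
    simp only [M.N_dual_unit, M.d_unit, if_true, mul_one] at h2
    rw [sq]
    exact h2
  have hf : ∑ V ∈ U, f V * M.d V + 1 = k ^ 2 := by
    have h1 := M.sumN_d X (M.dual X)
    rw [M.d_dual] at h1
    have h2 := Finset.sum_erase_add Finset.univ (fun V => M.N X (M.dual X) V * M.d V) (Finset.mem_univ M.unit)
    rw [h1] at h2
    simp only [M.N_dual_unit, M.d_unit, if_true, mul_one] at h2
    rw [sq]
    exact h2
  have hgs : ∑ V ∈ U, g V ≤ w - 1 := by
    have h1 : (∑ V ∈ U, g V) * w ≤ ∑ V ∈ U, g V * M.d V := by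
      rw [Finset.sum_mul]
      exact Finset.sum_le_sum fun V hV => Nat.mul_le_mul_left _ (hW V (hUne V hV))
    have h2 : (∑ V ∈ U, g V) * w < w * w := by
      rw [← sq]
      omega
    have h3 := lt_of_mul_lt_mul_right h2 (Nat.zero_le w)
    omega
  -- the group
  let K : Finset (L ≃ₐ[ℚ] L) := Finset.univ.filter fun h => h ∈ Kp L p
  have hK : ∀ h, h ∈ K ↔ h ∈ Kp L p := fun h => by simp [K]
  have hKpos : 0 < K.card := Finset.card_pos.2 ⟨1, (hK 1).2 (Subgroup.one_mem _)⟩
  have hper : ∀ h : L ≃ₐ[ℚ] L, w - 1 ≤ ∑ V ∈ U, g V * f (act hR h⁻¹ V) := by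
    intro h
    have h1 := common_ge (M := M) (X := act hR h X) (fun i => by rw [d_act]; exact hX i) W
    have h2 := Finset.sum_erase_add Finset.univ
      (fun V => M.N (act hR h X) (M.dual (act hR h X)) V * M.N W (M.dual W) V) (Finset.mem_univ M.unit)
    rw [← h2] at h1
    simp only [M.N_dual_unit, if_true, mul_one] at h1
    have h3 : ∑ V ∈ U, g V * f (act hR h⁻¹ V) =
        ∑ V ∈ Finset.univ.erase M.unit, M.N (act hR h X) (M.dual (act hR h X)) V * M.N W (M.dual W) V := by
      refine Finset.sum_congr rfl fun V _ => ?_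
      have h4 := N_act hR h X (act hR h⁻¹ V)
      rw [act_act_inv] at h4
      show M.N W (M.dual W) V * M.N X (M.dual X) (act hR h⁻¹ V) = _
      rw [← h4, mul_comm]
    rw [h3]
    omega
  let A : I → ℕ := fun V => ∑ h ∈ K, f (act hR h⁻¹ V)
  have hA : ∀ V ∈ U, p * A V ≤ K.card * (k ^ 2 - 1) := by
    intro V hV
    have h1 := orb_count hR f p V K hK
    have h2 := orb_large hR e he hint hsim hnp hp hpD hbd (hUne V hV)
    have h3 : (∑ Y ∈ orb hR p V, f Y) * M.d V ≤ k ^ 2 - 1 := by
      rw [Finset.sum_mul]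
      have h4 : ∑ Y ∈ orb hR p V, f Y * M.d V ≤ ∑ Y ∈ U, f Y * M.d Y := by
        rw [Finset.sum_congr rfl (fun Y hY => by rw [← d_orb hR hY])]
        refine Finset.sum_le_sum_of_subset fun Y hY => ?_
        refine Finset.mem_erase.2 ⟨?_, Finset.mem_univ _⟩
        rintro rfl
        exact unit_notMem_orb hR (hUne V hV) hY
      omega
    calc p * A V ≤ (orb hR p V).card * M.d V * A V := Nat.mul_le_mul_right _ h2
      _ = (A V * (orb hR p V).card) * M.d V := by ring
      _ = K.card * ((∑ Y ∈ orb hR p V, f Y) * M.d V) := by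
          show ((∑ h ∈ K, f (act hR h⁻¹ V)) * (orb hR p V).card) * M.d V = _
          rw [h1]
          ring
      _ ≤ _ := Nat.mul_le_mul_left _ h3
  have hsum : K.card * (w - 1) ≤ ∑ V ∈ U, g V * A V := by
    have h1 : ∑ h ∈ K, (w - 1) ≤ ∑ h ∈ K, ∑ V ∈ U, g V * f (act hR h⁻¹ V) := Finset.sum_le_sum fun h _ => hper h
    rw [Finset.sum_const, smul_eq_mul, Finset.sum_comm] at h1
    refine h1.trans (le_of_eq ?_)
    refine Finset.sum_congr rfl fun V _ => ?_
    rw [← Finset.mul_sum]
  have hfinal : p * (K.card * (w - 1)) ≤ (k ^ 2 - 1) * (K.card * (w - 1)) := by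
    calc p * (K.card * (w - 1)) ≤ p * ∑ V ∈ U, g V * A V := Nat.mul_le_mul_left _ hsum
      _ = ∑ V ∈ U, g V * (p * A V) := by
          rw [Finset.mul_sum]
          exact Finset.sum_congr rfl fun V _ => by ring
      _ ≤ ∑ V ∈ U, g V * (K.card * (k ^ 2 - 1)) := Finset.sum_le_sum fun V hV => Nat.mul_le_mul_left _ (hA V hV)
      _ = (∑ V ∈ U, g V) * (K.card * (k ^ 2 - 1)) := by rw [Finset.sum_mul]
      _ ≤ (w - 1) * (K.card * (k ^ 2 - 1)) := Nat.mul_le_mul_right _ hgs
      _ = _ := by ring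
  have hle := Nat.le_of_mul_le_mul_right hfinal (Nat.mul_pos hKpos (by omega))
  have h1 := hbd X X
  rw [← sq] at h1
  have h2 : M.d X ^ 2 = k ^ 2 := rfl
  omega

end IntegralModularDatum

end Pool.Agent.Helper46.WG
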